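import Pool.Agent.TH954.Y.Defs

/-!
# An elementary inequality for sums and minima
-/

set_option autoImplicit false

namespace Pool.Agent.TH954.Y.CombAux

/-- a set of `d` indices with the largest values -/
theorem exists_top {M : ℕ} (x : Fin M → ℝ) : ∀ d : ℕ, d ≤ M →
    ∃ T : Finset (Fin M), T.card = d ∧ ∀ t ∈ T, ∀ j, j ∉ T → x j ≤ x t := by
  intro d
  induction d with
  | zero => exact fun _ => ⟨∅, by simp, by simp⟩
  | succ d ih =>
    intro hd
    obtain ⟨T, hT, hx⟩ := ih (by omega)
    have hne : (Tᶜ).Nonempty := by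
      rw [← Finset.card_pos, Finset.card_compl, Fintype.card_fin]
      omega
    obtain ⟨m, hm, hmax⟩ := Finset.exists_max_image Tᶜ x hne
    rw [Finset.mem_compl] at hm
    refine ⟨insert m T, by rw [Finset.card_insert_of_notMem hm, hT], ?_⟩
    intro t ht j hj
    rw [Finset.mem_insert, not_or] at hj
    rcases Finset.mem_insert.1 ht with rfl | ht
    · exact hmax j (Finset.mem_compl.2 hj.2)
    · exact hx t ht j hj.2

theorem comb_main (M d : ℕ) (x : Fin M → ℝ) (G : ℝ) (hG : 0 ≤ G) (h0 : ∀ j, 0 ≤ x j)
    (h1 : ∀ j, x j ≤ G) :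
    ∑ j, x j ≤ d * G + ∑ e : Fin (d + 1) ↪ Fin M, ⨅ i, x (e i) := by
  classical
  have hpos : ∀ e : Fin (d + 1) ↪ Fin M, 0 ≤ ⨅ i, x (e i) :=
    fun e => Real.iInf_nonneg fun i => h0 _
  rcases le_total M d with hM | hM
  · have h2 : ∑ j, x j ≤ ∑ _j : Fin M, G := Finset.sum_le_sum fun j _ => h1 j
    rw [Finset.sum_const, Finset.card_univ, Fintype.card_fin, nsmul_eq_mul] at h2
    have h3 : (M : ℝ) * G ≤ d * G := mul_le_mul_of_nonneg_right (by exact_mod_cast hM) hG
    have h4 : 0 ≤ ∑ e : Fin (d + 1) ↪ Fin M, ⨅ i, x (e i) :=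
      Finset.sum_nonneg fun e _ => hpos e
    linarith
  · obtain ⟨T, hT, hx⟩ := exists_top x d hM
    have hdisj : ∀ j ∈ Tᶜ, Function.Injective
        (Fin.snoc (α := fun _ => Fin M) (T.orderEmbOfFin hT) j : Fin (d + 1) → Fin M) := by
      intro j hj
      rw [Finset.mem_compl] at hj
      intro a b hab
      induction a using Fin.lastCases with
      | last =>
        induction b using Fin.lastCases with
        | last => rfl
        | cast b =>
          simp only [Fin.snoc_last, Fin.snoc_castSucc] at hab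
          exact absurd (hab ▸ Finset.orderEmbOfFin_mem T hT b) hj
      | cast a =>
        induction b using Fin.lastCases with
        | last =>
          simp only [Fin.snoc_last, Fin.snoc_castSucc] at hab
          exact absurd (hab ▸ Finset.orderEmbOfFin_mem T hT a) hj
        | cast b =>
          simp only [Fin.snoc_castSucc] at hab
          rw [(T.orderEmbOfFin hT).injective hab]
    let E : (Tᶜ : Finset (Fin M)) → (Fin (d + 1) ↪ Fin M) := fun j => ⟨_, hdisj j.1 j.2⟩
    have hE : Function.Injective E := by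
      intro a b hab
      have := congrArg (fun e : Fin (d + 1) ↪ Fin M => e (Fin.last d)) hab
      simp only [E, Function.Embedding.coeFn_mk, Fin.snoc_last] at this
      exact Subtype.ext this
    have h2 : ∑ j ∈ T, x j ≤ d * G := by
      calc ∑ j ∈ T, x j ≤ ∑ _j ∈ T, G := Finset.sum_le_sum fun j _ => h1 j
        _ = d * G := by rw [Finset.sum_const, hT, nsmul_eq_mul]
    have h3 : ∑ j ∈ Tᶜ, x j ≤ ∑ e : Fin (d + 1) ↪ Fin M, ⨅ i, x (e i) := by
      rw [← Finset.sum_coe_sort]
      calc ∑ j : (Tᶜ : Finset (Fin M)), x j ≤ ∑ j : (Tᶜ : Finset (Fin M)), ⨅ i, x (E j i) := by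
            refine Finset.sum_le_sum fun j _ => ?_
            refine le_ciInf fun i => ?_
            have hj := j.2
            rw [Finset.mem_compl] at hj
            induction i using Fin.lastCases with
            | last => simp only [E, Function.Embedding.coeFn_mk, Fin.snoc_last, le_refl]
            | cast i =>
              simp only [E, Function.Embedding.coeFn_mk, Fin.snoc_castSucc]
              exact hx _ (Finset.orderEmbOfFin_mem T hT i) _ hj
        _ = ∑ e ∈ Finset.univ.image E, ⨅ i, x (e i) := by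
            rw [Finset.sum_image (fun a _ b _ h => hE h)]
        _ ≤ ∑ e : Fin (d + 1) ↪ Fin M, ⨅ i, x (e i) :=
            Finset.sum_le_sum_of_subset_of_nonneg (Finset.subset_univ _) fun e _ _ => hpos e
    have h4 : ∑ j ∈ T, x j + ∑ j ∈ Tᶜ, x j = ∑ j, x j := Finset.sum_add_sum_compl T x
    linarith

end Pool.Agent.TH954.Y.CombAux

namespace Pool.Agent.TH954.Y

theorem comb : T_comb := fun M d x G hG h0 h1 => CombAux.comb_main M d x G hG h0 h1

end Pool.Agent.TH954.Y
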