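import Pool.Agent.TH954.Y.Defs

/-!
# A lower bound for the number of points of bounded height: target
-/

set_option autoImplicit false

open MvPolynomial Pool.Agent.TH954.X Pool.Agent.TH954.X.We Pool.Agent.TH954.V

namespace Pool.Agent.TH954.Y

/-- **Target `low`.** A lower bound for the number of points of bounded height in a subgroup. -/
def T_low : Prop := ∀ (K : Type) [Field K] [NumberField K] [DecidableEq K] (a b : K),
  4 * a ^ 3 + 27 * b ^ 2 ≠ 0 → ∀ Γ : AddSubgroup (curve a b).toAffine.Point,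
  ∃ c : ℝ, 0 < c ∧ ∀ T : ℝ, 1 ≤ T → c * T ^ ((Module.finrank ℤ Γ : ℝ) / 2) ≤
    ({P | P ∈ Γ ∧ Height.logHeight (coords P) ≤ T}.ncard : ℝ)

end Pool.Agent.TH954.Y
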