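import Pool.Agent.TH954.Y.Pack
import Pool.Agent.TH954.Y.Defs2

/-!
# A lower bound for the number of points of bounded height in a subgroup
-/

set_option autoImplicit false
set_option linter.unusedSectionVars false

open MvPolynomial WeierstrassCurve Height Pool.Agent.TH942

namespace Pool.Agent.TH954.Y.LowAux

open Pool.Agent.TH954.V

/-- a subgroup of rank `r` contains a free group of rank `r`, on which the height is at most a
quadratic form -/
theorem quad_low {K : Type} [Field K] [NumberField K] [DecidableEq K] {a b : K}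
    (hD : 4 * a ^ 3 + 27 * b ^ 2 ≠ 0) (Γ : AddSubgroup (SPt a b)) :
    ∃ (r : ℕ), Module.finrank ℤ Γ = r ∧
      ∃ (s : (Fin r → ℤ) → Γ) (c2 C : ℝ), Function.Injective s ∧ 0 ≤ c2 ∧ 0 ≤ C ∧
      ∀ c : Fin r → ℤ, logHeight (crd (s c).1) ≤ c2 * ∑ i, (c i : ℝ) ^ 2 + C := by
  classical
  obtain ⟨q0, Cq, hCq, hq1, hq2', hq3'⟩ := canonical hD
  obtain ⟨C1, hC1, hC1'⟩ := ht_crd a b
  obtain ⟨r, g, hg⟩ := exists_basis (fg_of_inj Γ.subtype Γ.subtype_injective (sfg hD))
  have hr : Module.finrank ℤ Γ = r := by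
    rw [card_basis hg, Fintype.card_fin]
  refine ⟨r, hr, ?_⟩
  set q : Γ → ℝ := fun P => q0 P.1 with hq
  have hq3 : ∀ P Q : Γ, q (P + Q) + q (P - Q) = 2 * (q P + q Q) := fun P Q => hq3' P.1 Q.1
  have hginj : Function.Injective (fun c : Fin r → ℤ => ∑ i, c i • g i) := by
    intro c d hcd
    have h1 : TH942.crd hg (∑ i, c i • g i) = c := crd_eq hg (by
      rw [sub_self]; exact IsOfFinAddOrder.zero)
    have h2 : TH942.crd hg (∑ i, d i • g i) = d := crd_eq hg (by
      rw [sub_self]; exact IsOfFinAddOrder.zero)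
    simp only at hcd
    rw [← h1, ← h2, hcd]
  have hqP : ∀ c : Fin r → ℤ, q (∑ i, c i • g i) = ∑ i, ∑ j, (c i : ℝ) * (c j : ℝ) *
      gram q g i j := by
    intro c
    have h1 := q_comb q hq3 g 0 IsOfFinAddOrder.zero c
    rw [add_zero] at h1
    exact h1
  set c2 : ℝ := ∑ i, ∑ j, |gram q g i j| with hc2
  have hc20 : 0 ≤ c2 := Finset.sum_nonneg (fun _ _ => Finset.sum_nonneg (fun _ _ => abs_nonneg _))
  refine ⟨fun c => ∑ i, c i • g i, 3 / 2 * c2, 3 / 2 * Cq + C1, hginj, by positivity,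
    by positivity, ?_⟩
  intro c
  have h1 : q (∑ i, c i • g i) ≤ c2 * ∑ i, (c i : ℝ) ^ 2 := by
    rw [hqP c, hc2, Finset.sum_mul]
    refine Finset.sum_le_sum (fun i _ => ?_)
    rw [Finset.sum_mul]
    refine Finset.sum_le_sum (fun j _ => ?_)
    have h2 : ∀ i, (c i : ℝ) ^ 2 ≤ ∑ i, (c i : ℝ) ^ 2 := fun i =>
      Finset.single_le_sum (f := fun i => (c i : ℝ) ^ 2)
        (fun i _ => sq_nonneg _) (Finset.mem_univ i)
    have h3 : |(c i : ℝ) * (c j : ℝ)| ≤ ∑ i, (c i : ℝ) ^ 2 := by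
      rw [abs_mul]
      have h4 := two_mul_le_add_sq |(c i : ℝ)| |(c j : ℝ)|
      rw [sq_abs, sq_abs] at h4
      have := h2 i
      have := h2 j
      linarith
    calc _ ≤ |(c i : ℝ) * (c j : ℝ) * gram q g i j| := le_abs_self _
      _ = |(c i : ℝ) * (c j : ℝ)| * |gram q g i j| := abs_mul _ _
      _ ≤ (∑ i, (c i : ℝ) ^ 2) * |gram q g i j| :=
          mul_le_mul_of_nonneg_right h3 (abs_nonneg _)
      _ = _ := mul_comm _ _
  have h3 := abs_le.1 (hq1 (∑ i, c i • g i : Γ).1)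
  have h4 := hC1' (∑ i, c i • g i : Γ).1
  change _ ≤ 3 / 2 * c2 * ∑ i, (c i : ℝ) ^ 2 + _
  simp only [hq] at h1
  nlinarith

/-- counting -/
theorem count_low {A : Type} [AddCommGroup A] (Γ : AddSubgroup A) (h : A → ℝ) (r : ℕ)
    (s : (Fin r → ℤ) → Γ) (hs : Function.Injective s) (c2 C : ℝ) (hc2 : 0 ≤ c2) (hC : 0 ≤ C)
    (h2 : ∀ c : Fin r → ℤ, h (s c).1 ≤ c2 * ∑ i, (c i : ℝ) ^ 2 + C)
    (h0 : h 0 ≤ 1) (hfin : ∀ T : ℝ, {P | P ∈ Γ ∧ h P ≤ T}.Finite) :
    ∃ c : ℝ, 0 < c ∧ ∀ T : ℝ, 1 ≤ T →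
      c * T ^ ((r : ℝ) / 2) ≤ ({P | P ∈ Γ ∧ h P ≤ T}.ncard : ℝ) := by
  classical
  -- `M` with `c2 r / M² ≤ 1/2`, and `T₀ = 2 C`
  set M : ℝ := √(2 * c2 * r + 1) with hM
  have hM0 : 0 < M := Real.sqrt_pos.2 (by positivity)
  have hM2 : M ^ 2 = 2 * c2 * r + 1 := Real.sq_sqrt (by positivity)
  set T₀ : ℝ := 2 * C + 1 with hT₀
  have hT₀1 : 1 ≤ T₀ := by linarith
  refine ⟨min ((1 / M) ^ r) (1 / √T₀ ^ r), lt_min (by positivity) (by positivity), ?_⟩
  intro T hT
  have hT0 : (0 : ℝ) ≤ T := by linarith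
  have hpow : T ^ ((r : ℝ) / 2) = √T ^ r := by
    rw [Real.sqrt_eq_rpow, ← Real.rpow_natCast, ← Real.rpow_mul hT0]
    congr 1
    ring
  rw [hpow]
  by_cases hTT : T₀ ≤ T
  · -- the box
    set B : ℕ := ⌊√T / M⌋₊ with hB
    have hBle : (B : ℝ) ≤ √T / M := Nat.floor_le (by positivity)
    have hBlt : √T / M < B + 1 := Nat.lt_floor_add_one _
    set F : Finset (Fin r → ℤ) := Fintype.piFinset (fun _ : Fin r => Finset.Icc (-(B : ℤ)) B)
      with hF
    have hcard : F.card = (2 * B + 1) ^ r := by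
      rw [hF, Fintype.card_piFinset]
      simp only [Int.card_Icc, Finset.prod_const, Finset.card_univ, Fintype.card_fin]
      congr 1
      omega
    have hsub : ((F.image (fun c => (s c).1) : Finset A) : Set A) ⊆ {P | P ∈ Γ ∧ h P ≤ T} := by
      intro P hP
      rw [Finset.mem_coe, Finset.mem_image] at hP
      obtain ⟨c, hc, rfl⟩ := hP
      refine ⟨(s c).2, (h2 c).trans ?_⟩
      rw [hF, Fintype.mem_piFinset] at hc
      have h3 : ∀ i, (c i : ℝ) ^ 2 ≤ (√T / M) ^ 2 := by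
        intro i
        have h4 := Finset.mem_Icc.1 (hc i)
        have h5 : |(c i : ℝ)| ≤ √T / M := by
          rw [abs_le]
          constructor
          · have : (-(B : ℤ) : ℝ) ≤ c i := by exact_mod_cast h4.1
            push_cast at this
            linarith
          · have : (c i : ℝ) ≤ ((B : ℤ) : ℝ) := by exact_mod_cast h4.2
            push_cast at this
            linarith
        rw [← sq_abs]
        exact pow_le_pow_left₀ (abs_nonneg _) h5 2
      have h6 : ∑ i, (c i : ℝ) ^ 2 ≤ r * (√T / M) ^ 2 := by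
        calc ∑ i, (c i : ℝ) ^ 2 ≤ ∑ _i : Fin r, (√T / M) ^ 2 :=
              Finset.sum_le_sum fun i _ => h3 i
          _ = r * (√T / M) ^ 2 := by
              rw [Finset.sum_const, Finset.card_univ, Fintype.card_fin, nsmul_eq_mul]
      have h7 : (√T / M) ^ 2 = T / M ^ 2 := by rw [div_pow, Real.sq_sqrt hT0]
      rw [h7] at h6
      have h8 : c2 * (r * (T / M ^ 2)) ≤ T / 2 := by
        rw [hM2]
        rw [show c2 * (r * (T / (2 * c2 * r + 1))) = (c2 * r * T) / (2 * c2 * r + 1) by ring]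
        rw [div_le_div_iff₀ (by positivity) (by norm_num)]
        nlinarith
      have h9 := mul_le_mul_of_nonneg_left h6 hc2
      linarith
    have hinj : Function.Injective (fun c => (s c).1) := fun c d hcd => hs (Subtype.ext hcd)
    have hn : ((2 * B + 1) ^ r : ℕ) ≤ {P | P ∈ Γ ∧ h P ≤ T}.ncard := by
      rw [← hcard, ← Finset.card_image_of_injective F hinj, ← Set.ncard_coe_finset]
      exact Set.ncard_le_ncard hsub (hfin T)
    calc min ((1 / M) ^ r) (1 / √T₀ ^ r) * √T ^ r ≤ (1 / M) ^ r * √T ^ r :=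
          mul_le_mul_of_nonneg_right (min_le_left _ _) (by positivity)
      _ = (√T / M) ^ r := by rw [← mul_pow]; ring
      _ ≤ (2 * B + 1) ^ r := by
          refine pow_le_pow_left₀ (by positivity) ?_ r
          have : (0 : ℝ) ≤ B := Nat.cast_nonneg _
          linarith
      _ = (((2 * B + 1) ^ r : ℕ) : ℝ) := by push_cast; ring
      _ ≤ _ := by exact_mod_cast hn
  · rw [not_le] at hTT
    have h1 : (1 : ℝ) ≤ ({P | P ∈ Γ ∧ h P ≤ T}.ncard : ℝ) := by
      have : 0 < {P | P ∈ Γ ∧ h P ≤ T}.ncard := by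
        rw [Set.ncard_pos (hfin T)]
        exact ⟨0, Γ.zero_mem, h0.trans hT⟩
      exact_mod_cast this
    have h3 : √T ^ r ≤ √T₀ ^ r :=
      pow_le_pow_left₀ (Real.sqrt_nonneg _) (Real.sqrt_le_sqrt hTT.le) r
    have h4 : 0 < √T₀ ^ r := by positivity
    calc min ((1 / M) ^ r) (1 / √T₀ ^ r) * √T ^ r ≤ 1 / √T₀ ^ r * √T₀ ^ r := by
          refine mul_le_mul (min_le_right _ _) h3 (by positivity) (by positivity)
      _ = 1 := by field_simp
      _ ≤ _ := h1

end Pool.Agent.TH954.Y.LowAux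

namespace Pool.Agent.TH954.Y

open Pool.Agent.TH954.X.We

theorem low : T_low := by
  intro K _ _ _ a b hD Γ
  obtain ⟨r, hr, s, c2, C, hs, hc2, hC, h2⟩ := LowAux.quad_low (K := K) (a := a) (b := b) hD Γ
  have h2' : ∀ c : Fin r → ℤ, Height.logHeight (coords (s c).1) ≤
      c2 * ∑ i, (c i : ℝ) ^ 2 + C := fun c => by
    rw [pack_ht]
    exact h2 c
  have hfin : ∀ T : ℝ, {P | P ∈ Γ ∧ Height.logHeight (coords P) ≤ T}.Finite := by
    intro T
    have h3 : {P : Pool.Agent.TH942.SPt a b | Pool.Agent.TH942.sht P ≤ T}.Finite :=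
      Pool.Agent.TH942.sfinite_ht T
    refine h3.subset ?_
    intro P hP
    have h4 := Pool.Agent.TH954.V.sht_le (K := K) (a := a) (b := b) P
    have h5 := hP.2
    have h6 : Height.logHeight (coords P) = Height.logHeight (Pool.Agent.TH954.crd P) :=
      pack_ht (K := K) (W := curve a b) P
    exact h4.trans (h6 ▸ h5)
  have h0 : Height.logHeight (coords (0 : (curve a b).toAffine.Point)) ≤ 1 := by
    have h3 : Height.logHeight (![0, 0, 1] : Fin 3 → K) = 0 := by
      rw [Height.logHeight_cons_zero, Height.logHeight_cons_zero]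
      exact Height.logHeight_eq_zero_of_subsingleton _
    change Height.logHeight (![0, 0, 1] : Fin 3 → K) ≤ 1
    rw [h3]
    exact zero_le_one
  obtain ⟨c, hc, hc'⟩ := LowAux.count_low Γ (fun P => Height.logHeight (coords P)) r s hs c2 C hc2
    hC h2' h0 hfin
  refine ⟨c, hc, fun T hT => ?_⟩
  have h7 := hc' T hT
  rw [← hr] at h7
  exact h7

end Pool.Agent.TH954.Y
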