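import Pool.Agent.TH954.Y.Defs

/-!
# The closure of the image in a product of curves of a closed subset: `T_red`
-/

set_option autoImplicit false
set_option linter.unusedSectionVars false

open MvPolynomial Pool.Agent.TH954.X Pool.Agent.TH954.X.We Pool.Agent.TH954.V

namespace Pool.Agent.TH954.Y.RedL

/-- specialisation decreases the transcendence degree -/
theorem trdeg_spec {K : Type} [Field K] {ι : Type} {F F' : Type} [Field F] [Algebra K F]
    [Field F'] [Algebra K F'] (z : ι → F) (y : ι → F') (E' : IntermediateField K F')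
    (hy : ∀ i, y i ∈ E') (h : ∀ P : MvPolynomial ι K, aeval y P = 0 → aeval z P = 0) :
    Algebra.trdeg K (IntermediateField.adjoin K (Set.range z)) ≤ Algebra.trdeg K E' := by
  classical
  set E := IntermediateField.adjoin K (Set.range z) with hE
  let z' : ι → E := fun i => ⟨z i, IntermediateField.subset_adjoin K _ ⟨i, rfl⟩⟩
  have htop : IntermediateField.adjoin K (Set.range z') = ⊤ := by
    apply IntermediateField.map_injective E.val
    rw [IntermediateField.adjoin_map]
    have h1 : E.val '' Set.range z' = Set.range z := by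
      rw [← Set.range_comp]; rfl
    rw [h1]
    have h2 : IntermediateField.map E.val ⊤ = E := by
      rw [← AlgHom.fieldRange_eq_map, IntermediateField.fieldRange_val]
    rw [h2]
  have halg : Algebra.IsAlgebraic (Algebra.adjoin K (Set.range z')) E := by
    rw [← IntermediateField.isAlgebraic_adjoin_iff_top, htop, Algebra.isAlgebraic_iff_isIntegral]
    exact Algebra.isIntegral_of_surjective IntermediateField.topEquiv.surjective
  obtain ⟨t, hts, ht⟩ := exists_isTranscendenceBasis_subset (R := K) (Set.range z')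
  have hpre : ∀ x : t, ∃ i, z' i = x := fun x => hts x.2
  choose g hg using hpre
  rw [← ht.cardinalMk_eq_trdeg]
  let y' : t → E' := fun x => ⟨y (g x), hy (g x)⟩
  have hind : AlgebraicIndependent K y' := by
    rw [algebraicIndependent_iff]
    intro P hP
    -- the relation for `y`
    have h1 : aeval y (rename g P) = 0 := by
      rw [aeval_rename]
      have h2 : (aeval (y ∘ g) : MvPolynomial t K →ₐ[K] F') = E'.val.comp (aeval y') := by
        apply MvPolynomial.algHom_ext
        intro i
        rw [AlgHom.comp_apply, aeval_X, aeval_X]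
        rfl
      rw [h2, AlgHom.comp_apply, hP, map_zero]
    have h3 := h _ h1
    rw [aeval_rename] at h3
    have h4 : (aeval (z ∘ g) : MvPolynomial t K →ₐ[K] F) =
        E.val.comp (aeval (fun x : t => (x : E))) := by
      apply MvPolynomial.algHom_ext
      intro i
      rw [AlgHom.comp_apply, aeval_X, aeval_X, ← hg i]
      rfl
    rw [h4, AlgHom.comp_apply, map_eq_zero] at h3
    exact (algebraicIndependent_iff.1 ht.1) P h3
  exact hind.cardinalMk_le_trdeg

section homog

variable {K : Type} [Field K] {k n : ℕ}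

/-- the exponents which make all degrees equal to `D` -/
noncomputable def ext (c : Fin k → Fin n) (D : ℕ) (m : Fin k × Fin n →₀ ℕ) : Fin k × Fin n →₀ ℕ :=
  Finsupp.equivFunOnFinite.symm (fun p => if p.2 = c p.1 then D - ∑ e, m (p.1, e) else 0)

lemma ext_apply (c : Fin k → Fin n) (D : ℕ) (m : Fin k × Fin n →₀ ℕ) (p : Fin k × Fin n) :
    ext c D m p = if p.2 = c p.1 then D - ∑ e, m (p.1, e) else 0 := rfl

/-- homogenisation group by group -/
noncomputable def hmg (c : Fin k → Fin n) (D : ℕ) (P : MvPolynomial (Fin k × Fin n) K) :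
    MvPolynomial (Fin k × Fin n) K :=
  ∑ m ∈ P.support, monomial (m + ext c D m) (coeff m P)

lemma MH_hmg (c : Fin k → Fin n) (D : ℕ) (P : MvPolynomial (Fin k × Fin n) K)
    (hD : P.totalDegree ≤ D) : MH (fun _ => D) (hmg c D P) := by
  classical
  unfold hmg
  refine MH_sum _ _ _ fun m hm => ?_
  intro m' hm' j
  have h1 : m' = m + ext c D m := by
    have := support_monomial_subset hm'
    rwa [Finset.mem_singleton] at this
  rw [h1]
  have h2 : ∑ e, m (j, e) ≤ D := by
    refine le_trans ?_ ((le_totalDegree hm).trans hD)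
    rw [Finsupp.sum_fintype _ _ (fun _ => rfl), Fintype.sum_prod_type]
    exact Finset.single_le_sum (f := fun j => ∑ e, m (j, e)) (fun _ _ => Nat.zero_le _)
      (Finset.mem_univ j)
  simp only [Finsupp.coe_add, Pi.add_apply, Finset.sum_add_distrib, ext_apply]
  rw [Finset.sum_ite_eq' Finset.univ (c j), if_pos (Finset.mem_univ _)]
  omega

lemma ev_hmg {F : Type} [Field F] [Algebra K F] (c : Fin k → Fin n) (D : ℕ)
    (P : MvPolynomial (Fin k × Fin n) K) (y : Fin k → Fin n → F) (hy : ∀ j, y j (c j) = 1) :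
    ev (hmg c D P) y = ev P y := by
  unfold hmg
  have h1 : ev (∑ m ∈ P.support, monomial (m + ext c D m) (coeff m P)) y =
      ∑ m ∈ P.support, ev (monomial (m + ext c D m) (coeff m P)) y := by
    simp only [ev, map_sum]
  rw [h1, ev_expand P]
  refine Finset.sum_congr rfl fun m _ => ?_
  unfold ev
  rw [aeval_monomial, Finsupp.prod_fintype _ _ (fun p => pow_zero _)]
  congr 1
  refine Finset.prod_congr rfl fun p _ => ?_
  rw [Finsupp.coe_add, Pi.add_apply, ext_apply]
  by_cases hp : p.2 = c p.1
  · rw [hp, hy, one_pow, one_pow]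
  · rw [if_neg hp, add_zero]

end homog

lemma MH_var {K : Type} [Field K] {ι : Type} [DecidableEq ι] {n : ℕ} (j : ι) (c : Fin n) :
    MH (fun i => if i = j then 1 else 0) (X (j, c) : MvPolynomial (ι × Fin n) K) := by
  classical
  intro m hm i
  rw [support_X, Finset.mem_singleton] at hm
  subst hm
  change _ = if i = j then 1 else 0
  by_cases hij : i = j
  · subst hij
    rw [if_pos rfl, Finset.sum_eq_single c]
    · simp
    · intro b _ hb
      rw [Finsupp.single_apply, if_neg]
      intro h
      exact hb (Prod.mk.inj h).2.symm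
    · intro h
      exact absurd (Finset.mem_univ _) h
  · rw [if_neg hij]
    refine Finset.sum_eq_zero fun b _ => ?_
    rw [Finsupp.single_apply, if_neg]
    intro h
    exact hij (Prod.mk.inj h).1.symm

lemma MH_sub {K : Type} [Field K] {ι : Type} {n : ℕ} {d : ι → ℕ}
    {f g : MvPolynomial (ι × Fin n) K} (hf : MH d f) (hg : MH d g) : MH d (f - g) := by
  classical
  intro m hm i
  rcases Finset.mem_union.1 (support_sub _ f g hm) with h | h
  · exact hf m h i
  · exact hg m h i

lemma MH_add {K : Type} [Field K] {ι : Type} {n : ℕ} {d : ι → ℕ}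
    {f g : MvPolynomial (ι × Fin n) K} (hf : MH d f) (hg : MH d g) : MH d (f + g) := by
  classical
  intro m hm i
  rcases Finset.mem_union.1 (support_add hm) with h | h
  · exact hf m h i
  · exact hg m h i

/-- if every form vanishing at `u'` vanishes at `u` then the transcendence degree of `u` is at most
the one of `u'` -/
theorem trdeg_le {K : Type} [Field K] {k : ℕ} {F F' : Type} [Field F] [Algebra K F]
    [Field F'] [Algebra K F'] (u : Fin k → Fin 3 → F) (u' : Fin k → Fin 3 → F')
    (hu : ∀ j, Normed (u j))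
    (h : ∀ q : MvPolynomial (Fin k × Fin 3) K, (∃ σ, MH σ q) → ev q u' = 0 → ev q u = 0) :
    Algebra.trdeg K (IntermediateField.adjoin K (Set.range (fun p : Fin k × Fin 3 => u p.1 p.2))) ≤
      Algebra.trdeg K (IntermediateField.adjoin K
        (Set.range (fun p : Fin k × Fin 3 => u' p.1 p.2))) := by
  classical
  choose c hc _ using hu
  have hX : ∀ j, u' j (c j) ≠ 0 := by
    intro j h0
    have h1 := h (X (j, c j)) ⟨_, MH_var j (c j)⟩ (by
      unfold ev
      rw [aeval_X]
      exact h0)
    unfold ev at h1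
    rw [aeval_X] at h1
    change u j (c j) = 0 at h1
    rw [hc j] at h1
    exact one_ne_zero h1
  refine trdeg_spec (fun p : Fin k × Fin 3 => u p.1 p.2)
    (fun p : Fin k × Fin 3 => u' p.1 p.2 / u' p.1 (c p.1)) _ (fun p => ?_) (fun P hP => ?_)
  · exact div_mem (IntermediateField.subset_adjoin K _ ⟨p, rfl⟩)
      (IntermediateField.subset_adjoin K _ ⟨(p.1, c p.1), rfl⟩)
  · have hMH := MH_hmg c P.totalDegree P le_rfl
    have h1 : u' = fun j => u' j (c j) • (fun e => u' j e / u' j (c j)) := by
      funext j e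
      rw [Pi.smul_apply, smul_eq_mul, mul_div_cancel₀ _ (hX j)]
    have h2 : ev (hmg c P.totalDegree P) u' = 0 := by
      rw [h1, ev_smul hMH (fun j => u' j (c j)) (fun j e => u' j e / u' j (c j)),
        ev_hmg c _ P _ (fun j => div_self (hX j))]
      have h3 : ev P (fun j e => u' j e / u' j (c j)) = 0 := hP
      rw [h3, mul_zero]
    have h4 := h _ ⟨_, hMH⟩ h2
    rw [ev_hmg c _ P _ hc] at h4
    exact h4

/-- finitely many forms vanishing at the points `v i`, whose common zeros are specialisations of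
one of these points -/
theorem exists_forms {K : Type} [Field K] {k t : ℕ} (F : Fin t → Type) (_ : ∀ i, Field (F i))
    (_ : ∀ i, Algebra K (F i)) (v : ∀ i, Fin k → Fin 3 → F i) :
    ∃ (s : ℕ) (h : Fin s → MvPolynomial (Fin k × Fin 3) K) (η : Fin s → Fin k → ℕ),
      (∀ l, MH (η l) (h l)) ∧ (∀ l i, ev (h l) (v i) = 0) ∧
      ∀ (G : Type) [Field G] [Algebra K G] (u : Fin k → Fin 3 → G), (∀ l, ev (h l) u = 0) →
        ∃ i, ∀ q : MvPolynomial (Fin k × Fin 3) K, (∃ σ, MH σ q) → ev q (v i) = 0 →
          ev q u = 0 := by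
  classical
  set S : Set (MvPolynomial (Fin k × Fin 3) K) :=
    {q | (∃ σ, MH σ q) ∧ ∀ i, ev q (v i) = 0} with hS
  have hfg : (Submodule.span (MvPolynomial (Fin k × Fin 3) K) S).FG :=
    IsNoetherian.noetherian _
  obtain ⟨T, hTS, hT⟩ := (Submodule.fg_span_iff_fg_span_finset_subset S).1 hfg
  have hmem : ∀ l : Fin T.card, (T.equivFin.symm l).1 ∈ S := fun l => hTS (T.equivFin.symm l).2
  choose η hη using fun l => (hmem l).1
  refine ⟨T.card, fun l => (T.equivFin.symm l).1, η, hη, fun l i => (hmem l).2 i, ?_⟩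
  intro G _ _ u hu
  by_contra hcon
  push Not at hcon
  choose q hq hq0 hq1 using hcon
  choose σ hσ using hq
  have h1 : (∏ i, q i) ∈ S := by
    refine ⟨⟨_, MH_prod Finset.univ σ q fun i _ => hσ i⟩, fun i => ?_⟩
    have h2 : ev (∏ i, q i) (v i) = ∏ i', ev (q i') (v i) := by
      simp only [ev, map_prod]
    rw [h2]
    exact Finset.prod_eq_zero (Finset.mem_univ i) (hq0 i)
  have h2 : (∏ i, q i) ∈ Submodule.span (MvPolynomial (Fin k × Fin 3) K) (T : Set _) := by
    rw [← hT]
    exact Submodule.subset_span h1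
  have h3 : Submodule.span (MvPolynomial (Fin k × Fin 3) K) (T : Set _) ≤
      RingHom.ker (aeval (fun p : Fin k × Fin 3 => u p.1 p.2) :
        MvPolynomial (Fin k × Fin 3) K →ₐ[K] G) := by
    rw [Submodule.span_le]
    intro x hx
    have h4 := hu (T.equivFin ⟨x, hx⟩)
    dsimp only at h4
    rw [Equiv.symm_apply_apply] at h4
    exact h4
  have h4 : aeval (fun p : Fin k × Fin 3 => u p.1 p.2) (∏ i, q i) = 0 := h3 h2
  rw [map_prod] at h4
  exact Finset.prod_ne_zero_iff.2 (fun i _ => hq1 i) h4

lemma kap_mono {K : Type} [Field K] {A B : Finset K} (h : A ⊆ B) {M M' : ℕ} (hM : M ≤ M')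
    (w : AbsoluteValue K ℝ) : kap A M 1 w ≤ kap B M' 1 w := by
  unfold kap
  rw [pow_one, pow_one]
  have h1 := cM_mono h w
  have h2 : 0 ≤ cM A w := zero_le_one.trans (one_le_cM A w)
  split_ifs
  · rw [one_mul, one_mul]
    exact h1
  · have h3 : (M : ℝ) ≤ M' := by exact_mod_cast hM
    exact mul_le_mul h3 h1 h2 (Nat.cast_nonneg _)

section sys

variable {K : Type} [Field K] {k n : ℕ}

/-- the equation of the curve in the group `some j` -/
noncomputable def ceq (hn : 3 ≤ n) (a b : Fin k → K) (j : Fin k) :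
    MvPolynomial (Option (Fin k) × Fin n) K :=
  X (some j, Fin.castLE hn 2) ^ 2 * X (some j, Fin.castLE hn 0) -
    (X (some j, Fin.castLE hn 1) ^ 3 +
      C (a j) * X (some j, Fin.castLE hn 1) * X (some j, Fin.castLE hn 0) ^ 2 +
      C (b j) * X (some j, Fin.castLE hn 0) ^ 3)

lemma MH_ceq (hn : 3 ≤ n) (a b : Fin k → K) (j : Fin k) :
    MH (fun i => 3 * (if i = some j then 1 else 0)) (ceq hn a b j) := by
  have hX := fun c : Fin 3 => MH_var (K := K) (some j) (Fin.castLE hn c)
  unfold ceq
  refine MH_sub ?_ (MH_add (MH_add ?_ ?_) ?_)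
  · have h := MH_mul (MH_pow (hX 2) 2) (hX 0)
    have e : (fun i : Option (Fin k) => 2 * (if i = some j then 1 else 0) +
        (if i = some j then 1 else 0)) = fun i => 3 * (if i = some j then 1 else 0) := by
      funext i; ring
    rw [e] at h
    exact h
  · exact MH_pow (hX 1) 3
  · have h := MH_mul (MH_mul (MH_C (a j)) (hX 1)) (MH_pow (hX 0) 2)
    have e : (fun i : Option (Fin k) => 0 + (if i = some j then 1 else 0) +
        2 * (if i = some j then 1 else 0)) = fun i => 3 * (if i = some j then 1 else 0) := by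
      funext i; ring
    rw [e] at h
    exact h
  · have h := MH_mul (MH_C (b j)) (MH_pow (hX 0) 3)
    have e : (fun i : Option (Fin k) => 0 + 3 * (if i = some j then 1 else 0)) =
        fun i => 3 * (if i = some j then 1 else 0) := by
      funext i; ring
    rw [e] at h
    exact h

lemma ev_ceq {F : Type} [Field F] [Algebra K F] (hn : 3 ≤ n) (a b : Fin k → K) (j : Fin k)
    (y : Option (Fin k) → Fin n → F) :
    ev (ceq hn a b j) y = aeval (fun c => y (some j) (Fin.castLE hn c)) (eqn (a j) (b j) 0) := by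
  unfold ev ceq eqn
  simp only [map_sub, map_add, map_mul, map_pow, aeval_X, aeval_C]

lemma pad_cast {F : Type} [Field F] (hn : 3 ≤ n) (v : Fin 3 → F) (c : Fin 3) :
    pad n v (Fin.castLE hn c) = v c := by
  unfold pad
  rw [dif_pos (show (Fin.castLE hn c).1 < 3 from c.2)]
  rfl

/-- the forms in the groups `some j` -/
noncomputable def up (hn : 3 ≤ n) (h : MvPolynomial (Fin k × Fin 3) K) :
    MvPolynomial (Option (Fin k) × Fin n) K :=
  cmp h (fun j e => X (some j, Fin.castLE hn e))

lemma MH_up (hn : 3 ≤ n) {h : MvPolynomial (Fin k × Fin 3) K} {η : Fin k → ℕ} (hh : MH η h) :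
    MH (fun o => Option.elim o 0 η) (up hn h) := by
  have h1 := MH_cmp hh (fun j e => (X (some j, Fin.castLE hn e) :
    MvPolynomial (Option (Fin k) × Fin n) K)) (fun j i => if i = some j then 1 else 0)
    (fun j e => MH_var (some j) (Fin.castLE hn e))
  have e : (fun o : Option (Fin k) => ∑ l, η l * (if o = some l then 1 else 0)) =
      fun o => Option.elim o 0 η := by
    funext o
    cases o with
    | none => simp
    | some j => simp
  rw [e] at h1
  exact h1

lemma ev_up {F : Type} [Field F] [Algebra K F] (hn : 3 ≤ n) (h : MvPolynomial (Fin k × Fin 3) K)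
    (y : Option (Fin k) → Fin n → F) :
    ev (up hn h) y = ev h (fun j c => y (some j) (Fin.castLE hn c)) := by
  unfold up
  rw [ev_cmp]
  congr 1
  funext j c
  unfold ev
  rw [aeval_X]

lemma sup_pad (hn : 3 ≤ n) (w : AbsoluteValue K ℝ) (v : Fin 3 → K) :
    ⨆ c, w (pad n v c) = ⨆ c, w (v c) := by
  have : Nonempty (Fin n) := ⟨⟨0, by omega⟩⟩
  apply le_antisymm
  · refine ciSup_le fun c => ?_
    by_cases hc : c.1 < 3
    · have e : pad n v c = v ⟨c.1, hc⟩ := dif_pos hc
      rw [e]
      exact le_supW w v _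
    · have e : pad n v c = 0 := dif_neg hc
      rw [e, map_zero]
      exact Real.iSup_nonneg fun c => w.nonneg _
  · refine ciSup_le fun c => ?_
    rw [← pad_cast hn v c]
    exact le_supW w _ _

lemma nvW_up (hn : 3 ≤ n) (w : AbsoluteValue K ℝ) (η : Fin k → ℕ)
    (h : MvPolynomial (Fin k × Fin 3) K) (t : Fin n → K) (u : Fin k → Fin 3 → K) :
    nvW w (fun o => Option.elim o 0 η) (up hn h) (ful t u) = nvW w η h u := by
  unfold nvW
  rw [ev_up, Fintype.prod_option]
  have e1 : (fun (j : Fin k) (c : Fin 3) => ful t u (some j) (Fin.castLE hn c)) = u := by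
    funext j c
    exact pad_cast hn (u j) c
  have e2 : ∀ j : Fin k, (⨆ c, w (ful t u (some j) c)) = ⨆ c, w (u j c) := fun j =>
    sup_pad hn w (u j)
  rw [e1]
  simp only [Option.elim_none, Option.elim_some, pow_zero, one_mul, e2]

/-- the point `y` of the product of projective spaces is of the form `ful t u` -/
lemma ful_eq {F : Type} [Field F] (hn : 3 ≤ n) (y : Option (Fin k) → Fin n → F)
    (h : ∀ j (c : Fin n), 3 ≤ c.1 → y (some j) c = 0) :
    ful (y none) (fun j c => y (some j) (Fin.castLE hn c)) = y := by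
  funext o c
  cases o with
  | none => rfl
  | some j =>
    change pad n (fun c => y (some j) (Fin.castLE hn c)) c = y (some j) c
    unfold pad
    by_cases hc : c.1 < 3
    · rw [dif_pos hc]
      congr 1
    · rw [dif_neg hc, h j c (not_lt.1 hc)]

lemma normed_cast {F : Type} [Field F] (hn : 3 ≤ n) (y : Fin n → F)
    (h : ∀ c : Fin n, 3 ≤ c.1 → y c = 0) (hy : Normed y) :
    Normed (fun c : Fin 3 => y (Fin.castLE hn c)) := by
  obtain ⟨i, hi, hlt⟩ := hy
  have hi3 : i.1 < 3 := by
    by_contra h3
    rw [h i (not_lt.1 h3)] at hi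
    exact zero_ne_one hi
  refine ⟨⟨i.1, hi3⟩, ?_, fun j hj => hlt _ ?_⟩
  · have e : Fin.castLE hn ⟨i.1, hi3⟩ = i := Fin.ext rfl
    dsimp only
    rw [e, hi]
  · rw [Fin.lt_def] at hj ⊢
    exact hj

lemma pad_ne {F : Type} [Field F] (hn : 3 ≤ n) {v : Fin 3 → F} (hv : Normed v) : pad n v ≠ 0 := by
  intro h
  apply hv.ne_zero
  funext c
  rw [← pad_cast hn v c, h]
  rfl

end sys

end Pool.Agent.TH954.Y.RedL

namespace Pool.Agent.TH954.Y

open RedL

theorem red : T_red := by
  classical
  intro K _ _ k n hn a b E1 E2 _ _ g hg f δ hf c hcod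
  -- the system
  set wq : (E1 ⊕ Fin k) ⊕ (Fin k × Fin n) → MvPolynomial (Option (Fin k) × Fin n) K :=
    Sum.elim (Sum.elim g (fun j => ceq hn a b j))
      (fun p => if 3 ≤ p.2.1 then X (some p.1, p.2) else 0) with hwq
  have hwq1 : ∀ i, ∃ d, MH d (wq i) := by
    rintro ((i | j) | p)
    · exact hg i
    · exact ⟨_, MH_ceq hn a b j⟩
    · change ∃ d, MH d (if 3 ≤ p.2.1 then X (some p.1, p.2) else 0)
      split_ifs
      · exact ⟨_, MH_var (some p.1) p.2⟩
      · refine ⟨0, fun m hm => ?_⟩
        simp at hm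
  choose ρ hρ using hwq1
  set e2 := Fintype.equivFin E2 with he2
  obtain ⟨N, hN, t, F, iF, iA, y, hy1, hy2, hy3, hy4⟩ := nullW K wq (fun i => ⟨ρ i, hρ i⟩)
    (fun l => f (e2.symm l)) (fun l => ⟨δ (e2.symm l), hf _⟩)
  -- the points
  have hz : ∀ i j (e : Fin n), 3 ≤ e.1 → y i (some j) e = 0 := by
    intro i j e he
    have h1 := hy2 i (Sum.inr (j, e))
    change ev (if 3 ≤ e.1 then X (some j, e) else 0) (y i) = 0 at h1
    rw [if_pos he] at h1
    unfold ev at h1
    rw [aeval_X] at h1
    exact h1
  set v : ∀ i, Fin k → Fin 3 → F i := fun i j e => y i (some j) (Fin.castLE hn e) with hv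
  have hful : ∀ i, ful (y i none) (v i) = y i := fun i => ful_eq hn (y i) (hz i)
  have hB : ∀ i, OnB a b (v i) := by
    intro i j
    refine ⟨normed_cast hn _ (hz i j) (hy1 i (some j)), ?_⟩
    have h1 := hy2 i (Sum.inl (Sum.inr j))
    change ev (ceq hn a b j) (y i) = 0 at h1
    rw [ev_ceq] at h1
    exact h1
  have htr : ∀ i, Algebra.trdeg K (IntermediateField.adjoin K
      (Set.range (fun p : Fin k × Fin 3 => v i p.1 p.2))) + (c : Cardinal) ≤ (k : Cardinal) := by
    intro i
    refine hcod (F i) (y i none) (v i) (hy1 i none).ne_zero (hB i) (fun l => ?_) (fun l => ?_)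
    · rw [hful i]
      exact hy2 i (Sum.inl (Sum.inl l))
    · rw [hful i]
      have h1 := hy3 i (e2 l)
      rw [Equiv.symm_apply_apply] at h1
      exact h1
  obtain ⟨s, h, η, hη, h0, hsp⟩ := exists_forms F iF iA v
  refine ⟨s, h, η, hη, ?_, ?_⟩
  · intro G _ _ u hu hhu
    obtain ⟨i, hi⟩ := hsp G u hhu
    exact (add_le_add_left (trdeg_le u (v i) (fun j => (hu j).1) hi) _).trans (htr i)
  · have hup : ∀ l i, ev (up hn (h l)) (y i) = 0 := by
      intro l i
      rw [ev_up]
      exact h0 l i
    have key := fun l => locW_null wq ρ hρ (fun l => f (e2.symm l)) (fun l => δ (e2.symm l))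
      (fun l => hf _) (up hn (h l)) _ (MH_up hn (hη l)) N
      (hy4 (up hn (h l)) ⟨_, MH_up hn (hη l)⟩ (hup l))
    choose A M hM hAM using key
    refine ⟨N, (∑ l, M l) + 1, Finset.univ.biUnion A, Nat.succ_pos _, fun w t u ht hu hgu => ?_⟩
    have hsup0 : 0 ≤ ⨆ i, nvW w (δ i) (f i) (ful t u) :=
      Real.iSup_nonneg fun i => nvW_nonneg _ _ _ _
    have hkap0 : 0 ≤ kap (Finset.univ.biUnion A) ((∑ l, M l) + 1) 1 w :=
      zero_le_one.trans (one_le_kap _ (Nat.succ_pos _) _ _)
    rcases Nat.eq_zero_or_pos s with hs | hs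
    · subst hs
      rw [Real.iSup_of_isEmpty, zero_pow hN.ne']
      exact mul_nonneg hkap0 hsup0
    · have : Nonempty (Fin s) := ⟨⟨0, hs⟩⟩
      obtain ⟨l, hl⟩ := exists_eq_ciSup_of_finite (f := fun l => nvW w (η l) (h l) u)
      rw [← hl]
      have h1 := hAM l K w (ful t u) ?_ ?_
      · rw [nvW_up] at h1
        have h2 : (⨆ i, nvW w (δ (e2.symm i)) (f (e2.symm i)) (ful t u)) =
            ⨆ i, nvW w (δ i) (f i) (ful t u) :=
          Equiv.iSup_comp (g := fun i => nvW w (δ i) (f i) (ful t u)) e2.symm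
        rw [h2] at h1
        refine h1.trans (mul_le_mul_of_nonneg_right (kap_mono ?_ ?_ w) hsup0)
        · exact Finset.subset_biUnion_of_mem A (Finset.mem_univ l)
        · exact (Finset.single_le_sum (f := M) (fun _ _ => Nat.zero_le _)
            (Finset.mem_univ l)).trans (Nat.le_succ _)
      · rintro (_ | j)
        · exact ht
        · exact pad_ne hn (hu j).1
      · rintro ((i | j) | p)
        · exact hgu i
        · change ev (ceq hn a b j) (ful t u) = 0
          rw [ev_ceq]
          have e1 : (fun c => ful t u (some j) (Fin.castLE hn c)) = u j := by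
            funext c
            exact pad_cast hn (u j) c
          rw [e1]
          exact (hu j).2
        · change ev (if 3 ≤ p.2.1 then X (some p.1, p.2) else 0) (ful t u) = 0
          by_cases hp : 3 ≤ p.2.1
          · rw [if_pos hp]
            unfold ev
            rw [aeval_X]
            change pad n (u p.1) p.2 = 0
            exact dif_neg (not_lt.2 hp)
          · rw [if_neg hp]
            unfold ev
            rw [map_zero]

end Pool.Agent.TH954.Y
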