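import Pool.Agent.TH954.Y.Defs

/-!
# A closed subset of codimension two does not dominate the product of the other curves
-/

set_option autoImplicit false

open MvPolynomial Pool.Agent.TH954.X Pool.Agent.TH954.X.We Pool.Agent.TH954.V

namespace Pool.Agent.TH954.Y.Gf

section mh

variable {K : Type} [Field K] {ι : Type} {n : ℕ}

lemma mhX [DecidableEq ι] (i : ι) (c : Fin n) :
    MH (fun j => if j = i then 1 else 0) (X (i, c) : MvPolynomial (ι × Fin n) K) := by
  intro m hm j
  rw [support_X, Finset.mem_singleton] at hm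
  subst hm
  by_cases hj : j = i
  · subst hj
    beta_reduce
    rw [if_pos rfl, Finset.sum_eq_single c]
    · simp
    · intro d _ hd
      rw [Finsupp.single_apply, if_neg]
      intro h
      exact hd (congrArg Prod.snd h).symm
    · simp
  · beta_reduce
    rw [if_neg hj]
    refine Finset.sum_eq_zero (fun d _ => ?_)
    rw [Finsupp.single_apply, if_neg]
    intro h
    exact hj (congrArg Prod.fst h).symm

end mh

section curve

variable {K F : Type} [Field K] [Field F] [Algebra K F]

lemma eqn_eq (a b : K) (v : Fin 3 → F) :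
    aeval v (eqn a b 0) = v 2 ^ 2 * v 0 - (v 1 ^ 3 + algebraMap K F a * v 1 * v 0 ^ 2 +
      algebraMap K F b * v 0 ^ 3) := by
  simp [eqn]

/-- a point of the curve is `(0, 0, 1)` or `(1, x, y)` -/
lemma onC_cases {a b : K} {v : Fin 3 → F} (h : OnC a b v) :
    (v 0 = 0 ∧ v 1 = 0 ∧ v 2 = 1) ∨ (v 0 = 1 ∧
      v 2 ^ 2 = v 1 ^ 3 + algebraMap K F a * v 1 + algebraMap K F b) := by
  obtain ⟨⟨i, hi, hi'⟩, h⟩ := h
  rw [eqn_eq] at h
  by_cases h0 : v 0 = 0
  · left
    rw [h0] at h
    have h1 : v 1 ^ 3 = 0 := by linear_combination -h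
    have h1 : v 1 = 0 := by simpa using h1
    refine ⟨h0, h1, ?_⟩
    fin_cases i
    · exact absurd (h0.symm.trans hi) zero_ne_one
    · exact absurd (h1.symm.trans hi) zero_ne_one
    · exact hi
  · right
    have hi0 : i = 0 := by
      by_contra hne
      exact h0 (hi' 0 (Fin.pos_of_ne_zero hne))
    subst hi0
    refine ⟨hi, ?_⟩
    rw [hi] at h
    linear_combination h

/-- the coordinates of a point of the product are algebraic over the coordinates `x` -/
lemma isAlg {k : ℕ} {a b : Fin k → K} {u : Fin k → Fin 3 → F} (hu : OnB a b u) :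
    Algebra.IsAlgebraic (Algebra.adjoin K (Set.range (fun j : Fin k =>
      (⟨u j 1, IntermediateField.subset_adjoin K _ ⟨(j, 1), rfl⟩⟩ :
        IntermediateField.adjoin K (Set.range (fun p : Fin k × Fin 3 => u p.1 p.2))))))
      (IntermediateField.adjoin K (Set.range (fun p : Fin k × Fin 3 => u p.1 p.2))) := by
  set L := IntermediateField.adjoin K (Set.range (fun p : Fin k × Fin 3 => u p.1 p.2)) with hL
  set x : Fin k → L := fun j => ⟨u j 1, IntermediateField.subset_adjoin K _ ⟨(j, 1), rfl⟩⟩ with hx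
  set R := Algebra.adjoin K (Set.range x) with hR
  have hK : ∀ y : K, IsAlgebraic R (algebraMap K L y) := by
    intro y
    have : algebraMap K L y = algebraMap R L (algebraMap K R y) := rfl
    rw [this]
    exact isAlgebraic_algebraMap _
  have hxa : ∀ j, IsAlgebraic R (x j) := by
    intro j
    exact isAlgebraic_algebraMap (⟨x j, Algebra.subset_adjoin ⟨j, rfl⟩⟩ : R)
  refine ⟨fun z => ?_⟩
  obtain ⟨z, hz⟩ := z
  refine IntermediateField.adjoin_induction K (p := fun z hz => IsAlgebraic R (⟨z, hz⟩ : L))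
    ?_ ?_ ?_ ?_ ?_ hz
  · rintro _ ⟨⟨j, c⟩, rfl⟩
    rcases onC_cases (hu j) with ⟨h0, h1, h2⟩ | ⟨h0, h2⟩
    · have key : ∀ (y : F) (hy : y ∈ L), (y = 0 ∨ y = 1) → IsAlgebraic R (⟨y, hy⟩ : L) := by
        rintro y hy (rfl | rfl)
        · exact isAlgebraic_zero
        · exact isAlgebraic_one
      fin_cases c
      · exact key _ _ (Or.inl h0)
      · exact key _ _ (Or.inl h1)
      · exact key _ _ (Or.inr h2)
    · have key : ∀ (y : F) (hy : y ∈ L), y = 1 → IsAlgebraic R (⟨y, hy⟩ : L) := by
        rintro y hy rfl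
        exact isAlgebraic_one
      fin_cases c
      · exact key _ _ h0
      · exact hxa j
      · have h3 : (⟨u j 2, IntermediateField.subset_adjoin K _ ⟨(j, 2), rfl⟩⟩ : L) ^ 2 =
            x j ^ 3 + algebraMap K L (a j) * x j + algebraMap K L (b j) := by
          apply Subtype.ext
          simpa using h2
        refine IsAlgebraic.of_pow (n := 2) (by norm_num) ?_
        change IsAlgebraic R ((⟨u j 2, IntermediateField.subset_adjoin K _ ⟨(j, 2), rfl⟩⟩ : L) ^ 2)
        rw [h3]
        exact (((hxa j).pow 3).add ((hK _).mul (hxa j))).add (hK _)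
  · intro y
    exact hK y
  · intro y z hy hz h1 h2
    exact h1.add h2
  · intro y hy h1
    exact IsAlgebraic.inv_iff.2 h1
  · intro y z hy hz h1 h2
    exact h1.mul h2

/-- if the coordinates `x` are dependent, the transcendence degree is smaller than `k` -/
lemma trdeg_le {k : ℕ} {a b : Fin k → K} {u : Fin k → Fin 3 → F} (hu : OnB a b u)
    (hd : ¬ AlgebraicIndependent K (fun j => u j 1)) :
    Algebra.trdeg K (IntermediateField.adjoin K
      (Set.range (fun p : Fin k × Fin 3 => u p.1 p.2))) + ((1 : ℕ) : Cardinal) ≤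
      (k : Cardinal) := by
  set L := IntermediateField.adjoin K (Set.range (fun p : Fin k × Fin 3 => u p.1 p.2)) with hL
  set x : Fin k → L := fun j => ⟨u j 1, IntermediateField.subset_adjoin K _ ⟨(j, 1), rfl⟩⟩ with hx
  have halg : Algebra.IsAlgebraic (Algebra.adjoin K (Set.range x)) L := isAlg hu
  have h1 : Algebra.trdeg K L < (k : Cardinal) := by
    by_contra hcon
    rw [not_lt] at hcon
    have h2 : Cardinal.mk (Fin k) ≤ Algebra.trdeg K L := by simpa using hcon
    have h3 := Algebra.IsAlgebraic.isTranscendenceBasis_of_le_trdeg_of_finite K x h2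
    exact hd (h3.1.map' (f := L.val) L.val.injective)
  obtain ⟨m, hm⟩ := Cardinal.lt_aleph0.1 (h1.trans (Cardinal.natCast_lt_aleph0))
  rw [hm] at h1 ⊢
  have h2 : m < k := by exact_mod_cast h1
  have h3 : m + 1 ≤ k := h2
  exact_mod_cast h3

/-- a large codimension gives dependent coordinates `x` -/
lemma dep {k : ℕ} {u : Fin (k + 1) → Fin 3 → F}
    (h : Algebra.trdeg K (IntermediateField.adjoin K
      (Set.range (fun p : Fin (k + 1) × Fin 3 => u p.1 p.2))) + ((2 : ℕ) : Cardinal) ≤
      ((k + 1 : ℕ) : Cardinal)) :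
    ¬ AlgebraicIndependent K (fun j : Fin k => u (Fin.castSucc j) 1) := by
  intro hi
  set L := IntermediateField.adjoin K
    (Set.range (fun p : Fin (k + 1) × Fin 3 => u p.1 p.2)) with hL
  set x : Fin k → L := fun j => ⟨u (Fin.castSucc j) 1,
    IntermediateField.subset_adjoin K _ ⟨(Fin.castSucc j, 1), rfl⟩⟩ with hx
  have h1 : AlgebraicIndependent K x := AlgebraicIndependent.of_comp L.val hi
  have h2 := h1.cardinalMk_le_trdeg
  rw [Cardinal.mk_fin] at h2
  have h3 : (k : Cardinal) + ((2 : ℕ) : Cardinal) ≤ ((k + 1 : ℕ) : Cardinal) :=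
    (add_le_add_left h2 _).trans h
  have h4 : k + 2 ≤ k + 1 := by exact_mod_cast h3
  omega

end curve

section homog

variable {K : Type} [Field K] {k : ℕ}

/-- the homogenisation in groups of a polynomial in the coordinates `x` -/
noncomputable def hom (G : MvPolynomial (Fin k) K) (D : ℕ) : MvPolynomial (Fin k × Fin 3) K :=
  ∑ m ∈ G.support, C (coeff m G) * ∏ j, (X (j, 1) ^ m j * X (j, 0) ^ (D - m j))

lemma mh_hom (G : MvPolynomial (Fin k) K) (D : ℕ) (hD : ∀ m ∈ G.support, ∀ j, m j ≤ D) :
    MH (fun _ => D) (hom G D) := by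
  unfold hom
  refine MH_sum _ _ _ (fun m hm => ?_)
  have h1 := MH_prod Finset.univ
    (fun (j j' : Fin k) => m j * (if j' = j then 1 else 0) + (D - m j) * (if j' = j then 1 else 0))
    (fun j => (X (j, 1) ^ m j * X (j, 0) ^ (D - m j) : MvPolynomial (Fin k × Fin 3) K))
    (fun j _ => MH_mul (MH_pow (mhX (K := K) (n := 3) j 1) (m j))
        (MH_pow (mhX (K := K) (n := 3) j 0) (D - m j)))
  have h3 := MH_mul (MH_C (ι := Fin k) (n := 3) (coeff m G)) h1
  have h4 : (fun j' : Fin k => 0 + ∑ j, (m j * (if j' = j then 1 else 0) +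
      (D - m j) * (if j' = j then 1 else 0))) = fun _ => D := by
    funext j'
    rw [zero_add, Finset.sum_eq_single j']
    · have := hD m hm j'
      simp only [if_true, mul_one]
      omega
    · intro j _ hj
      rw [if_neg (Ne.symm hj)]
      simp
    · simp
  rw [h4] at h3
  exact h3

lemma ev_hom {F : Type} [Field F] [Algebra K F] (G : MvPolynomial (Fin k) K) (D : ℕ)
    (u : Fin k → Fin 3 → F) (hu : ∀ j, u j 0 = 1) :
    ev (hom G D) u = aeval (fun j => u j 1) G := by
  unfold hom ev
  rw [map_sum, aeval_def (fun j => u j 1), eval₂_eq']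
  refine Finset.sum_congr rfl (fun m _ => ?_)
  simp only [map_mul, map_prod, map_pow, aeval_C, aeval_X, hu, one_pow, mul_one]

end homog

/-- a form vanishing at a point with dependent coordinates `x`, whose zeros all have dependent
coordinates `x` -/
lemma exists_form {K : Type} [Field K] {k : ℕ} (a b : Fin k → K) {F : Type} [Field F] [Algebra K F]
    (u : Fin k → Fin 3 → F) (hu : OnB a b u)
    (hd : ¬ AlgebraicIndependent K (fun j => u j 1)) :
    ∃ (g : MvPolynomial (Fin k × Fin 3) K) (τ : Fin k → ℕ), MH τ g ∧ ev g u = 0 ∧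
      ∀ (F' : Type) [Field F'] [Algebra K F'] (u' : Fin k → Fin 3 → F'), OnB a b u' →
        ev g u' = 0 → ¬ AlgebraicIndependent K (fun j => u' j 1) := by
  have hz : ∀ (F' : Type) [Field F'] [Algebra K F'] (u' : Fin k → Fin 3 → F'), OnB a b u' →
      ∀ j, u' j 0 = 0 → ¬ AlgebraicIndependent K (fun j => u' j 1) := by
    intro F' _ _ u' hu' j hj hind
    rcases onC_cases (hu' j) with ⟨-, h1, -⟩ | ⟨h1, -⟩
    · exact hind.ne_zero j h1
    · rw [hj] at h1
      exact zero_ne_one h1
  by_cases h0 : ∃ j, u j 0 = 0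
  · obtain ⟨j, hj⟩ := h0
    refine ⟨X (j, 0), _, mhX j 0, ?_, ?_⟩
    · simp [ev, hj]
    · intro F' _ _ u' hu' h
      refine hz F' u' hu' j ?_
      simpa [ev] using h
  · push Not at h0
    have h1 : ∀ j, u j 0 = 1 := by
      intro j
      rcases onC_cases (hu j) with ⟨h, -⟩ | ⟨h, -⟩
      · exact absurd h (h0 j)
      · exact h
    rw [algebraicIndependent_iff] at hd
    push Not at hd
    obtain ⟨G, hG, hG0⟩ := hd
    refine ⟨hom G G.totalDegree, _, mh_hom G _ (fun m hm j => ?_), ?_, ?_⟩
    · refine le_trans ?_ (le_totalDegree hm)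
      by_cases hj : m j = 0
      · rw [hj]; exact Nat.zero_le _
      · rw [Finsupp.sum]
        exact Finset.single_le_sum (f := fun i => m i) (fun _ _ => Nat.zero_le _)
          (Finsupp.mem_support_iff.2 hj)
    · rw [ev_hom _ _ _ h1]
      exact hG
    · intro F' _ _ u' hu' h
      by_cases h0' : ∃ j, u' j 0 = 0
      · obtain ⟨j, hj⟩ := h0'
        exact hz F' u' hu' j hj
      · push Not at h0'
        have h1' : ∀ j, u' j 0 = 1 := by
          intro j
          rcases onC_cases (hu' j) with ⟨h, -⟩ | ⟨h, -⟩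
          · exact absurd h (h0' j)
          · exact h
        rw [ev_hom _ _ _ h1'] at h
        intro hind
        rw [algebraicIndependent_iff] at hind
        exact hG0 (hind G h)

/-- the equations of the curves, as forms in the groups of variables -/
noncomputable def wq {K : Type} [Field K] {k : ℕ} (a b : Fin k → K) (i : Fin k) :
    MvPolynomial (Fin k × Fin 3) K :=
  X (i, 2) ^ 2 * X (i, 0) - (X (i, 1) ^ 3 + C (a i) * X (i, 1) * X (i, 0) ^ 2 +
    C (b i) * X (i, 0) ^ 3)

lemma ev_wq {K : Type} [Field K] {k : ℕ} (a b : Fin k → K) (i : Fin k) {F : Type} [Field F]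
    [Algebra K F] (u : Fin k → Fin 3 → F) : ev (wq a b i) u = aeval (u i) (eqn (a i) (b i) 0) := by
  rw [eqn_eq]
  simp [ev, wq]

lemma mh_wq {K : Type} [Field K] {k : ℕ} (a b : Fin k → K) (i : Fin k) :
    MH (fun j => if j = i then 3 else 0) (wq a b i) := by
  have hcast : ∀ {d e : Fin k → ℕ} {g : MvPolynomial (Fin k × Fin 3) K}, MH d g → d = e → MH e g :=
    fun h1 h2 => h2 ▸ h1
  have hX : ∀ c, MH (fun j => if j = i then 1 else 0)
      (X (i, c) : MvPolynomial (Fin k × Fin 3) K) := fun c => mhX (K := K) (n := 3) i c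
  have hadd : ∀ {d : Fin k → ℕ} {f g : MvPolynomial (Fin k × Fin 3) K}, MH d f → MH d g →
      MH d (f + g) := by
    intro d f g hf hg m hm j
    rcases Finset.mem_union.1 (support_add hm) with h | h
    · exact hf m h j
    · exact hg m h j
  have hneg : ∀ {d : Fin k → ℕ} {f : MvPolynomial (Fin k × Fin 3) K}, MH d f → MH d (-f) := by
    intro d f hf m hm j
    rw [support_neg] at hm
    exact hf m hm j
  unfold wq
  rw [sub_eq_add_neg]
  refine hadd ?_ (hneg (hadd (hadd ?_ ?_) ?_))
  · exact hcast (MH_mul (MH_pow (hX 2) 2) (hX 0)) (by funext j; split_ifs <;> rfl)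
  · exact hcast (MH_pow (hX 1) 3) (by funext j; split_ifs <;> rfl)
  · exact hcast (MH_mul (MH_mul (MH_C _) (hX 1)) (MH_pow (hX 0) 2))
      (by funext j; split_ifs <;> rfl)
  · exact hcast (MH_mul (MH_C _) (MH_pow (hX 0) 3)) (by funext j; split_ifs <;> rfl)

end Pool.Agent.TH954.Y.Gf

namespace Pool.Agent.TH954.Y

open Gf

theorem gform : T_gform := by
  classical
  intro K _ _ k a b _ E _ f δ hf hcod
  -- reindexing
  obtain ⟨e⟩ : Nonempty (E ≃ Fin (Fintype.card E)) := ⟨Fintype.equivFin E⟩
  obtain ⟨N, hN, t, F, hF1, hF2, η, hη, hηw, hηf, hnull⟩ := nullW K (ι := Fin (k + 1))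
    (wq a b) (fun i => ⟨_, mh_wq a b i⟩) (fun l => f (e.symm l)) (fun l => ⟨_, hf _⟩)
  have hB : ∀ i, OnB a b (η i) := by
    intro i j
    refine ⟨hη i j, ?_⟩
    rw [← ev_wq]
    exact hηw i j
  have hfz : ∀ i l, ev (f l) (η i) = 0 := by
    intro i l
    have := hηf i (e l)
    simpa using this
  have hform : ∀ i : Fin t, ∃ (g : MvPolynomial (Fin k × Fin 3) K) (τ : Fin k → ℕ), MH τ g ∧
      ev g (fun j => η i (Fin.castSucc j)) = 0 ∧
      ∀ (F' : Type) [Field F'] [Algebra K F'] (u' : Fin k → Fin 3 → F'),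
        OnB (fun i => a (Fin.castSucc i)) (fun i => b (Fin.castSucc i)) u' →
        ev g u' = 0 → ¬ AlgebraicIndependent K (fun j => u' j 1) := by
    intro i
    refine exists_form _ _ _ (fun j => hB i (Fin.castSucc j)) ?_
    exact dep (hcod (F i) (η i) (hB i) (hfz i))
  choose g τ hg hg0 hgd using hform
  refine ⟨∏ i, g i, _, MH_prod Finset.univ τ g (fun i _ => hg i), ?_, ?_⟩
  · intro F' _ _ u' hu' hzero
    have h1 : ∏ i, ev (g i) u' = 0 := by
      have := hzero ()
      unfold ev at this ⊢
      rwa [map_prod] at this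
    obtain ⟨i, -, hi⟩ := Finset.prod_eq_zero_iff.1 h1
    exact trdeg_le hu' (hgd i F' u' hu' hi)
  · set G : MvPolynomial (Fin k × Fin 3) K := ∏ i, g i with hG
    set τ' : Fin k → ℕ := fun j => ∑ i ∈ Finset.univ, τ i j with hτ'
    have hGm : MH τ' G := MH_prod Finset.univ τ g (fun i _ => hg i)
    have hXm : ∀ (l : Fin k) (c : Fin 3), MH (fun j : Fin (k + 1) => if j = Fin.castSucc l then 1 else 0)
        (X (Fin.castSucc l, c) : MvPolynomial (Fin (k + 1) × Fin 3) K) := by
      intro l c
      exact mhX (K := K) (n := 3) (Fin.castSucc l) c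
    set S : MvPolynomial (Fin (k + 1) × Fin 3) K := cmp G (fun l c => X (Fin.castSucc l, c)) with hS
    have hSm := MH_cmp hGm (fun l c => (X (Fin.castSucc l, c) :
      MvPolynomial (Fin (k + 1) × Fin 3) K)) (fun l j => if j = Fin.castSucc l then 1 else 0) hXm
    rw [← hS] at hSm
    set σ : Fin (k + 1) → ℕ := fun j => ∑ l, τ' l * (if j = Fin.castSucc l then 1 else 0) with hσ
    have hevS : ∀ {F' : Type} [Field F'] [Algebra K F'] (w : Fin (k + 1) → Fin 3 → F'),
        ev S w = ev G (fun l => w (Fin.castSucc l)) := by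
      intro F' _ _ w
      rw [hS, ev_cmp]
      congr 1
      funext l c
      simp [ev]
    have hSz : ∀ i, ev S (η i) = 0 := by
      intro i
      rw [hevS, hG]
      unfold ev
      rw [map_prod]
      exact Finset.prod_eq_zero (Finset.mem_univ i) (hg0 i)
    have hmem := hnull S ⟨σ, hSm⟩ hSz
    obtain ⟨A, M, hM, hloc⟩ := locW_null (wq a b) (fun i j => if j = i then 3 else 0)
      (mh_wq a b) (fun l => f (e.symm l)) (fun l => δ (e.symm l)) (fun l => hf _) S σ hSm N hmem
    refine ⟨N, M, A, hM, fun w u v hu hv => ?_⟩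
    have h1 := hloc K w (snoc u v) (fun j => ?_) (fun i => ?_)
    · have h2 : nvW w σ S (snoc u v) = nvW w τ' G u := by
        unfold nvW
        rw [hevS, Fin.prod_univ_castSucc]
        have h3 : σ (Fin.last k) = 0 := by
          rw [hσ]
          refine Finset.sum_eq_zero (fun l _ => ?_)
          rw [if_neg (Fin.castSucc_ne_last l).symm, mul_zero]
        have h4 : ∀ l, σ (Fin.castSucc l) = τ' l := by
          intro l
          rw [hσ]
          beta_reduce
          rw [Finset.sum_eq_single l]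
          · simp
          · intro l' _ hl'
            rw [if_neg, mul_zero]
            intro h
            exact hl' (Fin.castSucc_injective _ h).symm
          · simp
        rw [h3, pow_zero, mul_one]
        have h5 : ∀ l, snoc u v (Fin.castSucc l) = u l := by
          intro l
          simp [snoc]
        simp only [h4, h5]
      rw [h2] at h1
      have h6 : (⨆ i, nvW w (δ i) (f i) (snoc u v)) =
          ⨆ l, nvW w (δ (e.symm l)) (f (e.symm l)) (snoc u v) :=
        (Equiv.iSup_comp (g := fun i => nvW w (δ i) (f i) (snoc u v)) e.symm).symm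
      rw [h6]
      exact h1
    · refine Fin.lastCases ?_ (fun l => ?_) j
      · simp only [snoc, Fin.snoc_last]
        exact hv.1.ne_zero
      · simp only [snoc, Fin.snoc_castSucc]
        exact (hu l).1.ne_zero
    · rw [ev_wq]
      refine Fin.lastCases ?_ (fun l => ?_) i
      · simp only [snoc, Fin.snoc_last]
        exact hv.2
      · simp only [snoc, Fin.snoc_castSucc]
        exact (hu l).2

end Pool.Agent.TH954.Y
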