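import Pool.Agent.TH954.Y.Defs
import Pool.Agent.TH954.X2.Inst

/-!
# Forms defining the diagonal of `E × E` and the height of `P - Q`  (job for helper954)
-/

set_option autoImplicit false

open MvPolynomial Pool.Agent.TH954.X Pool.Agent.TH954.X.We Pool.Agent.TH954.V

namespace Pool.Agent.TH954.Y

namespace Om

lemma ev_ren {K : Type} [Field K] {ι : Type} {n : ℕ} {F : Type} [Field F] [Algebra K F] (j : ι)
    (f : MvPolynomial (Fin n) K) (u : ι → Fin n → F) :
    ev (rename (fun c => (j, c)) f) u = aeval (u j) f := by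
  unfold ev
  rw [aeval_rename]
  rfl

lemma MH_ren {K : Type} [Field K] {ι : Type} [DecidableEq ι] {n : ℕ} {f : MvPolynomial (Fin n) K} {D : ℕ}
    (hf : f.IsHomogeneous D) (i : ι) :
    MH (fun j => if j = i then D else 0) (rename (fun c : Fin n => (i, c)) f) := by
  classical
  intro m hm j
  have hinj : Function.Injective
      (fun c : Fin n => (i, c)) := fun a b h => (Prod.ext_iff.mp h).2
  rw [support_rename_of_injective hinj] at hm
  obtain ⟨m', hm', rfl⟩ := Finset.mem_image.mp hm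
  change _ = if j = i then D else 0
  split_ifs with h
  · subst h
    have h1 : ∀ c, (Finsupp.mapDomain (fun c => (j, c)) m')
        (j, c) = m' c := fun c =>
      Finsupp.mapDomain_apply hinj m' c
    simp_rw [h1]
    have h2 := hf (mem_support_iff.mp hm')
    rw [← h2, Finsupp.weight_apply, Finsupp.sum_fintype _ _ (by simp)]
    simp
  · refine Finset.sum_eq_zero (fun c _ => ?_)
    refine Finsupp.mapDomain_of_notMem_range _ _ ?_
    rintro ⟨c', hc'⟩
    exact h (Prod.ext_iff.mp hc').1.symm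

lemma eqn_hom {K : Type} [Field K] (a b : K) (i : Fin 1) : (eqn a b i).IsHomogeneous 3 := by
  unfold eqn
  refine IsHomogeneous.sub ?_ (IsHomogeneous.add ?_ ?_)
  · exact ((isHomogeneous_X _ _).pow 2).mul (isHomogeneous_X _ _)
  · refine IsHomogeneous.add ?_ ?_
    · simpa using (isHomogeneous_X K (1 : Fin 3)).pow 3
    · simpa using ((isHomogeneous_C (Fin 3) a).mul (isHomogeneous_X K (1 : Fin 3))).mul
        ((isHomogeneous_X K (0 : Fin 3)).pow 2)
  · simpa using (isHomogeneous_C (Fin 3) b).mul ((isHomogeneous_X K (0 : Fin 3)).pow 3)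

section

variable {K : Type} [Field K] [CharZero K] {a b : K}

/-- a normalised vector on the curve is the vector of coordinates of a point -/
lemma exists_pt (hD : 4 * a ^ 3 + 27 * b ^ 2 ≠ 0) {F : Type} [Field F] [Algebra K F]
    {v : Fin 3 → F} (hv : OnC a b v) :
    ∃ P : (curve (algebraMap K F a) (algebraMap K F b)).toAffine.Point, coords P = v := by
  obtain ⟨P, hP⟩ := (toPt_bij a b hD (F := F)).2 ⟨v, hv.1, fun i => by
    rw [Subsingleton.elim i 0]
    exact hv.2⟩
  exact ⟨P, congrArg Subtype.val hP⟩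

/-- the local inequality for the forms without common zero -/
theorem loc (hD : 4 * a ^ 3 + 27 * b ^ 2 ≠ 0) (Λ : Fin 3 → Fin 3 → MvPolynomial (Fin 2 × Fin 3) K)
    (hΛ : ∀ i j, MH (fun _ => 2) (Λ i j))
    (hs : ∀ (F : Type) [Field F] [DecidableEq F] [Algebra K F]
      (P Q : (curve (algebraMap K F a) (algebraMap K F b)).toAffine.Point),
      ∃ s : F, s ≠ 0 ∧ ∀ i j,
        ev (Λ i j) ![coords P, coords Q] = s * (coords (P + Q) i * coords (P - Q) j)) :
    ∃ (A : Finset K) (M : ℕ), 1 ≤ M ∧ ∀ (w : AbsoluteValue K ℝ)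
      (u : Fin 2 → Fin 3 → K), (∀ j, u j ≠ 0) → (∀ j, aeval (u j) (eqn a b 0) = 0) →
      1 ≤ kap A M 1 w * ⨆ i : Fin (Fintype.card (Fin 3 × Fin 3)),
        nvW w (fun _ => 2) (Λ ((Fintype.equivFin (Fin 3 × Fin 3)).symm i).1
          ((Fintype.equivFin (Fin 3 × Fin 3)).symm i).2) u := by
  classical
  set e' := Fintype.equivFin (Fin 3 × Fin 3) with he'
  set wq : Fin 2 → MvPolynomial (Fin 2 × Fin 3) K := fun e =>
    rename (fun c => (e, c)) (eqn a b 0) with hwq
  have hwqM : ∀ e, MH (fun j => if j = e then 3 else 0) (wq e) := fun e =>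
    MH_ren (eqn_hom a b 0) e
  obtain ⟨N, hN, t', F, iF, iA, η, hη0, hη1, hη2, hη3⟩ := nullW K wq (fun i => ⟨_, hwqM i⟩)
    (fun i => Λ (e'.symm i).1 (e'.symm i).2) (fun i => ⟨_, hΛ _ _⟩)
  have hempty : Fin t' → False := by
    intro i
    have h0 : ∀ j, OnC a b (η i j) := fun j => by
      refine ⟨hη0 i j, ?_⟩
      have := hη1 i j
      rw [hwq] at this
      simp only at this
      rw [ev_ren] at this
      exact this
    obtain ⟨P, hP⟩ := exists_pt hD (h0 0)
    obtain ⟨Q, hQ⟩ := exists_pt hD (h0 1)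
    obtain ⟨s, hs0, hs1⟩ := hs (F i) P Q
    obtain ⟨c, hc, -⟩ := coords_normed (P + Q)
    obtain ⟨d, hd, -⟩ := coords_normed (P - Q)
    have h1 := hs1 c d
    rw [hc, hd, mul_one, mul_one, hP, hQ] at h1
    have h2 : (![η i 0, η i 1] : Fin 2 → Fin 3 → F i) = η i := by
      funext j
      fin_cases j <;> rfl
    rw [h2] at h1
    apply hs0
    rw [← h1]
    have := hη2 i (e' (c, d))
    simpa using this
  have h1 := hη3 1 ⟨_, MH_one⟩ (fun i => (hempty i).elim)
  obtain ⟨A, M, hM1, hA⟩ := locW_null wq _ hwqM (fun i => Λ (e'.symm i).1 (e'.symm i).2)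
    (fun _ _ => 2) (fun i => hΛ _ _) 1 (fun _ => 0) MH_one N h1
  refine ⟨A, M, hM1, fun w u hu hu' => ?_⟩
  have h2 := hA K w u hu (fun j => by
    rw [hwq]
    simp only
    rw [ev_ren]
    exact hu' j)
  have h3 : nvW w (fun _ => 0) (1 : MvPolynomial (Fin 2 × Fin 3) K) u = 1 := by
    simp [nvW, ev]
  rw [h3, one_pow] at h2
  exact h2

end

lemma coords_ne {F : Type} [Field F] {W : WeierstrassCurve F} (P : W.toAffine.Point) :
    coords P ≠ 0 := (coords_normed P).ne_zero

lemma coords_zero_eq_one {F : Type} [Field F] {W : WeierstrassCurve F} {P : W.toAffine.Point}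
    (hP : P ≠ 0) : coords P 0 = 1 := by
  rcases P with _ | ⟨x, y, h⟩
  · exact absurd rfl hP
  · rfl

end Om

open Om in
theorem om : T_om := by
  intro K _ _ _ a b hD
  classical
  obtain ⟨Λ, hΛ, hs⟩ := lam K a b hD
  obtain ⟨A, M, hM, hloc⟩ := loc hD Λ hΛ hs
  obtain ⟨C, hC0, hC⟩ := tot_kap A hM 1
  refine ⟨fun s => Λ s.1 (Fin.castSucc s.2), fun s => hΛ _ _, ?_, ?_⟩
  · -- vanishing on the diagonal
    intro F _ _ v hv s
    obtain ⟨P, rfl⟩ := exists_pt hD hv
    obtain ⟨r, -, hr⟩ := hs F P P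
    rw [hr, sub_self]
    have : coords (0 : (curve (algebraMap K F a) (algebraMap K F b)).toAffine.Point)
        (Fin.castSucc s.2) = 0 := by
      obtain ⟨i, j⟩ := s
      fin_cases j <;> rfl
    rw [this, mul_zero, mul_zero]
  · obtain ⟨hFC, hTC⟩ := hC K
    refine ⟨C * Module.finrank ℚ K, fun P Q hPQ => ?_⟩
    obtain ⟨s, hs0, hs1⟩ := hs K P Q
    have hPQ' : P - Q ≠ 0 := sub_ne_zero.mpr hPQ
    set c : Fin 3 → K := coords (P + Q) with hc
    set d : Fin 3 → K := coords (P - Q) with hd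
    have hd0 : d 0 = 1 := coords_zero_eq_one hPQ'
    have hcne : c ≠ 0 := coords_ne _
    have hdne : d ≠ 0 := coords_ne _
    have hev : ∀ i j, ev (Λ i j) ![coords P, coords Q] = s * (c i * d j) := hs1
    have hu : ∀ j : Fin 2, (![coords P, coords Q] : Fin 2 → Fin 3 → K) j ≠ 0 := by
      intro j
      fin_cases j
      · exact coords_ne P
      · exact coords_ne Q
    have hu' : ∀ j : Fin 2, aeval ((![coords P, coords Q] : Fin 2 → Fin 3 → K) j)
        (eqn a b 0) = 0 := by
      intro j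
      fin_cases j
      · exact coords_eqn a b P 0
      · exact coords_eqn a b Q 0
    -- the suprema
    have hDpos : ∀ w : AbsoluteValue K ℝ,
        0 < ∏ j, (⨆ e, w ((![coords P, coords Q] : Fin 2 → Fin 3 → K) j e)) ^ 2 := fun w =>
      Finset.prod_pos (fun j _ => pow_pos (sup_posW w (hu j)) _)
    have hnv : ∀ (w : AbsoluteValue K ℝ) (i j : Fin 3),
        nvW w (fun _ => 2) (Λ i j) ![coords P, coords Q] =
          w s * (w (c i) * w (d j)) /
            ∏ j, (⨆ e, w ((![coords P, coords Q] : Fin 2 → Fin 3 → K) j e)) ^ 2 := by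
      intro w i j
      unfold nvW
      rw [hev, w.map_mul, w.map_mul]
    have hkey : ∀ w : AbsoluteValue K ℝ, 1 ≤ kap A M 1 w * ((⨆ e, w (d e)) *
        ⨆ s : Fin 3 × Fin 2, nvW w (fun _ => 2) (Λ s.1 (Fin.castSucc s.2))
          ![coords P, coords Q]) := by
      intro w
      refine (hloc w _ hu hu').trans ?_
      refine mul_le_mul_of_nonneg_left ?_ (zero_le_one.trans (one_le_kap A hM 1 w))
      have hne : Nonempty (Fin (Fintype.card (Fin 3 × Fin 3))) :=
        ⟨Fintype.equivFin (Fin 3 × Fin 3) (0, 0)⟩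
      refine ciSup_le (fun i => ?_)
      generalize (Fintype.equivFin (Fin 3 × Fin 3)).symm i = p
      have h1 : nvW w (fun _ => 2) (Λ p.1 0) ![coords P, coords Q] ≤
          ⨆ s : Fin 3 × Fin 2, nvW w (fun _ => 2) (Λ s.1 (Fin.castSucc s.2))
            ![coords P, coords Q] :=
        le_ciSup (f := fun s : Fin 3 × Fin 2 => nvW w (fun _ => 2) (Λ s.1 (Fin.castSucc s.2))
            ![coords P, coords Q]) (Set.finite_range _).bddAbove (p.1, 0)
      refine le_trans ?_ (mul_le_mul_of_nonneg_left h1 (sup_posW w hdne).le)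
      rw [hnv, hnv, hd0, w.map_one, mul_one, ← mul_div_assoc]
      refine div_le_div_of_nonneg_right ?_ (hDpos w).le
      have h2 : w (d p.2) ≤ ⨆ e, w (d e) := le_supW w d p.2
      calc w s * (w (c p.1) * w (d p.2)) = w (d p.2) * (w s * w (c p.1)) := by ring
        _ ≤ (⨆ e, w (d e)) * (w s * w (c p.1)) :=
          mul_le_mul_of_nonneg_right h2 (mul_nonneg (w.nonneg _) (w.nonneg _))
    set Ω : AbsoluteValue K ℝ → ℝ := fun w =>
      ⨆ s : Fin 3 × Fin 2, nvW w (fun _ => 2) (Λ s.1 (Fin.castSucc s.2))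
        ![coords P, coords Q] with hΩ
    have hkpos : ∀ w : AbsoluteValue K ℝ, 0 < kap A M 1 w := fun w =>
      zero_lt_one.trans_le (one_le_kap A hM 1 w)
    have hdpos : ∀ w : AbsoluteValue K ℝ, 0 < ⨆ e, w (d e) := fun w => sup_posW w hdne
    have hd1 : ∀ w : AbsoluteValue K ℝ, 1 ≤ ⨆ e, w (d e) := fun w => by
      have := le_supW w d 0
      rwa [hd0, w.map_one] at this
    have hΩpos : ∀ w : AbsoluteValue K ℝ, 0 < Ω w := by
      intro w
      by_contra hcon
      have h1 : kap A M 1 w * ((⨆ e, w (d e)) * Ω w) ≤ 0 :=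
        mul_nonpos_of_nonneg_of_nonpos (hkpos w).le
          (mul_nonpos_of_nonneg_of_nonpos (hdpos w).le (not_lt.mp hcon))
      linarith [hkey w]
    have hle : ∀ w : AbsoluteValue K ℝ, max 0 (-Real.log (Ω w)) ≤
        Real.log (kap A M 1 w) + Real.log (⨆ e, w (d e)) := by
      intro w
      have h0 : 0 ≤ Real.log (kap A M 1 w) := Real.log_nonneg (one_le_kap A hM 1 w)
      have h1 : 0 ≤ Real.log (⨆ e, w (d e)) := Real.log_nonneg (hd1 w)
      refine max_le (add_nonneg h0 h1) ?_
      have h2 := Real.log_le_log one_pos (hkey w)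
      rw [Real.log_one, Real.log_mul (hkpos w).ne' (mul_pos (hdpos w) (hΩpos w)).ne',
        Real.log_mul (hdpos w).ne' (hΩpos w).ne'] at h2
      linarith
    have Fd : FS (fun w : AbsoluteValue K ℝ => Real.log (⨆ e, w (d e))) := FS_sup' hdne
    have Fh : FS (fun w : AbsoluteValue K ℝ =>
        Real.log (kap A M 1 w) + Real.log (⨆ e, w (d e))) := FS_add hFC Fd
    have Fg : FS (fun w : AbsoluteValue K ℝ => max 0 (-Real.log (Ω w))) := by
      refine Fh.subset (fun v hv => ?_)
      intro hcon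
      apply hv
      change max 0 (-Real.log (Ω (av v))) = 0
      have h1 := hle (av v)
      have h2 : Real.log (kap A M 1 (av v)) + Real.log (⨆ e, (av v) (d e)) = 0 := hcon
      rw [h2] at h1
      exact le_antisymm h1 (le_max_left _ _)
    refine ⟨?_, Fg, ?_⟩
    · obtain ⟨i, hi⟩ := Function.ne_iff.mp hcne
      refine ⟨(i, 0), ?_⟩
      change ev (Λ i 0) ![coords P, coords Q] ≠ 0
      rw [hev, hd0, mul_one]
      exact mul_ne_zero hs0 (by simpa using hi)
    · have h1 := tot_le Fg Fh (fun w => hle (ai w)) (fun v => hle (av v))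
      rw [tot_add hFC Fd, tot_sup' hdne] at h1
      refine h1.trans ?_
      linarith

end Pool.Agent.TH954.Y
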