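import Pool.Agent.TH954.Y.Defs
import Pool.Agent.TH954.V.Quad

/-!
# Counting points of bounded height in a subgroup, and covering by small balls
-/

set_option autoImplicit false

namespace Pool.Agent.TH954.Y.PackAux

variable {A : Type} [AddCommGroup A]

/-- clamped colour of an integer -/
def clr (L : ℕ) (z : ℤ) : Fin (2 * L + 1) :=
  ⟨min (z + L).toNat (2 * L), by omega⟩

lemma clr_inj {L : ℕ} {z w : ℤ} (hz : -(L : ℤ) ≤ z) (hz' : z ≤ L) (hw : -(L : ℤ) ≤ w)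
    (hw' : w ≤ L) (h : clr L z = clr L w) : z = w := by
  have h1 := congrArg Fin.val h
  simp only [clr] at h1
  omega

lemma coord_le {r : ℕ} (c1 C T : ℝ) (hc1 : 0 < c1) (hC : 0 ≤ C) (hT : 1 ≤ T) (n : Fin r → ℤ)
    (h : c1 * ∑ i, (n i : ℝ) ^ 2 ≤ T + C) (i : Fin r) :
    |(n i : ℝ)| ≤ √((1 + C) / c1) * √T := by
  have h1 : (n i : ℝ) ^ 2 ≤ ∑ i, (n i : ℝ) ^ 2 :=
    Finset.single_le_sum (f := fun i => (n i : ℝ) ^ 2) (fun i _ => sq_nonneg _)
      (Finset.mem_univ i)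
  have h2 : (n i : ℝ) ^ 2 ≤ (1 + C) / c1 * T := by
    rw [div_mul_eq_mul_div, le_div_iff₀ hc1]
    have : C ≤ C * T := by nlinarith
    nlinarith
  rw [← Real.sqrt_mul (by positivity), ← Real.sqrt_sq_eq_abs]
  exact Real.sqrt_le_sqrt h2

theorem count (Γ : AddSubgroup A) (h : A → ℝ) (r : ℕ) (cd : Γ →+ (Fin r → ℤ)) (c1 c2 C : ℝ)
    (hc1 : 0 < c1) (hC : 0 ≤ C)
    (h1 : ∀ P : Γ, c1 * ∑ i, (cd P i : ℝ) ^ 2 ≤ h P.1 + C)
    (h2 : ∀ P : Γ, h P.1 ≤ c2 * ∑ i, (cd P i : ℝ) ^ 2 + C)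
    (hfin : ∀ T : ℝ, {P | P ∈ Γ ∧ h P ≤ T}.Finite) :
    ∃ C' : ℝ, ∀ T : ℝ, 1 ≤ T → ({P | P ∈ Γ ∧ h P ≤ T}.ncard : ℝ) ≤ C' * T ^ ((r : ℝ) / 2) := by
  classical
  set t : ℕ := {P | P ∈ Γ ∧ h P ≤ C}.ncard with ht
  set s : ℝ := √((1 + C) / c1) with hs
  have hs0 : 0 ≤ s := Real.sqrt_nonneg _
  refine ⟨t * (2 * s + 1) ^ r, fun T hT => ?_⟩
  set F : Finset A := (hfin T).toFinset with hF
  have hFm : ∀ P, P ∈ F ↔ P ∈ Γ ∧ h P ≤ T := fun P => by rw [hF, Set.Finite.mem_toFinset]; rfl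
  have hsT : 1 ≤ √T := by rw [show (1 : ℝ) = √1 by simp]; exact Real.sqrt_le_sqrt hT
  set B : ℕ := ⌊s * √T⌋₊ with hB
  -- the coordinates
  let c : A → (Fin r → ℤ) := fun P => if hP : P ∈ Γ then cd ⟨P, hP⟩ else 0
  have hc : ∀ P (hP : P ∈ Γ), c P = cd ⟨P, hP⟩ := fun P hP => by simp only [c, dif_pos hP]
  have hbox : ∀ P ∈ F, c P ∈ Fintype.piFinset (fun _ : Fin r => Finset.Icc (-(B : ℤ)) B) := by
    intro P hP
    obtain ⟨hPG, hPT⟩ := (hFm P).1 hP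
    rw [Fintype.mem_piFinset]
    intro i
    have h3 := coord_le c1 C T hc1 hC hT (cd ⟨P, hPG⟩) (by
      have := h1 ⟨P, hPG⟩
      simp only at this
      linarith) i
    rw [hc P hPG]
    have h4 : (((cd ⟨P, hPG⟩ i).natAbs : ℕ) : ℝ) ≤ s * √T := by
      rw [Nat.cast_natAbs, Int.cast_abs]
      exact h3
    have h5 := Nat.le_floor h4
    rw [← hB] at h5
    rw [Finset.mem_Icc]
    omega
  have hcard : F.card ≤ t * (Fintype.piFinset
      (fun _ : Fin r => Finset.Icc (-(B : ℤ)) B)).card := by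
    refine Finset.card_le_mul_card_image_of_maps_to hbox t ?_
    intro n _
    rcases (F.filter (fun P => c P = n)).eq_empty_or_nonempty with he | ⟨P0, hP0⟩
    · rw [he]; simp
    · rw [Finset.mem_filter] at hP0
      obtain ⟨hP0F, hP0n⟩ := hP0
      obtain ⟨hP0G, -⟩ := (hFm P0).1 hP0F
      have hsub : ((F.filter (fun P => c P = n)).image (fun P => P - P0) : Set A) ⊆
          {P | P ∈ Γ ∧ h P ≤ C} := by
        intro Q hQ
        rw [Finset.mem_coe, Finset.mem_image] at hQ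
        obtain ⟨P, hP, rfl⟩ := hQ
        rw [Finset.mem_filter] at hP
        obtain ⟨hPG, -⟩ := (hFm P).1 hP.1
        have hQG : P - P0 ∈ Γ := Γ.sub_mem hPG hP0G
        refine ⟨hQG, ?_⟩
        have e : cd ⟨P - P0, hQG⟩ = 0 := by
          have : (⟨P - P0, hQG⟩ : Γ) = ⟨P, hPG⟩ - ⟨P0, hP0G⟩ := rfl
          rw [this, map_sub, ← hc P hPG, ← hc P0 hP0G, hP.2, hP0n, sub_self]
        have h3 := h2 ⟨P - P0, hQG⟩
        rw [e] at h3
        simpa using h3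
      calc (F.filter (fun P => c P = n)).card
          = ((F.filter (fun P => c P = n)).image (fun P => P - P0)).card :=
            (Finset.card_image_of_injective _ (sub_left_injective)).symm
        _ = ((F.filter (fun P => c P = n)).image (fun P => P - P0) : Set A).ncard := by
            rw [Set.ncard_coe_finset]
        _ ≤ t := Set.ncard_le_ncard hsub (hfin C)
  have hboxc : (Fintype.piFinset (fun _ : Fin r => Finset.Icc (-(B : ℤ)) B)).card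
      = (2 * B + 1) ^ r := by
    rw [Fintype.card_piFinset]
    simp only [Int.card_Icc, Finset.prod_const, Finset.card_univ, Fintype.card_fin]
    congr 1
    omega
  have hn : ({P | P ∈ Γ ∧ h P ≤ T}.ncard : ℝ) = F.card := by
    rw [hF, Set.ncard_eq_toFinset_card _ (hfin T)]
  rw [hn]
  have hB' : (B : ℝ) ≤ s * √T := Nat.floor_le (by positivity)
  have hT0 : (0 : ℝ) ≤ T := by linarith
  have hpow : T ^ ((r : ℝ) / 2) = √T ^ r := by
    rw [Real.sqrt_eq_rpow, ← Real.rpow_natCast, ← Real.rpow_mul hT0]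
    congr 1
    ring
  rw [hpow]
  calc (F.card : ℝ) ≤ ((t * (2 * B + 1) ^ r : ℕ) : ℝ) := by
        rw [← hboxc]
        exact_mod_cast hcard
    _ = t * (2 * B + 1) ^ r := by push_cast; ring
    _ ≤ t * ((2 * s + 1) * √T) ^ r := by
        refine mul_le_mul_of_nonneg_left (pow_le_pow_left₀ (by positivity) ?_ r)
          (Nat.cast_nonneg t)
        nlinarith
    _ = t * (2 * s + 1) ^ r * √T ^ r := by rw [mul_pow]; ring

theorem cover (Γ : AddSubgroup A) (h : A → ℝ) (r : ℕ) (cd : Γ →+ (Fin r → ℤ)) (c1 c2 C : ℝ)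
    (hc1 : 0 < c1) (hc2 : 0 ≤ c2) (hC : 0 ≤ C)
    (h1 : ∀ P : Γ, c1 * ∑ i, (cd P i : ℝ) ^ 2 ≤ h P.1 + C)
    (h2 : ∀ P : Γ, h P.1 ≤ c2 * ∑ i, (cd P i : ℝ) ^ 2 + C) :
    ∀ ρ : ℝ, 0 < ρ → ∃ N : ℕ, ∀ T : ℝ, 1 ≤ T →
      ∃ col : A → Fin N, ∀ P ∈ Γ, ∀ Q ∈ Γ, h P ≤ T → h Q ≤ T → col P = col Q →
        h (P - Q) ≤ ρ * T + C := by
  classical
  intro ρ hρ
  set s : ℝ := √((1 + C) / c1) with hs
  have hs0 : 0 ≤ s := Real.sqrt_nonneg _
  set δ : ℝ := √(ρ / (c2 * r + 1)) with hδ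
  have hδ0 : 0 < δ := Real.sqrt_pos.2 (by positivity)
  have hδ2 : c2 * r * δ ^ 2 ≤ ρ := by
    rw [hδ, Real.sq_sqrt (by positivity), mul_div_assoc', div_le_iff₀ (by positivity)]
    nlinarith
  set L : ℕ := ⌈s / δ⌉₊ with hL
  refine ⟨Fintype.card (Fin r → Fin (2 * L + 1)), fun T hT => ?_⟩
  have hsT : 1 ≤ √T := by rw [show (1 : ℝ) = √1 by simp]; exact Real.sqrt_le_sqrt hT
  have hsT0 : 0 < √T := by linarith
  have hT0 : (0 : ℝ) ≤ T := by linarith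
  let c : A → (Fin r → ℤ) := fun P => if hP : P ∈ Γ then cd ⟨P, hP⟩ else 0
  have hc : ∀ P (hP : P ∈ Γ), c P = cd ⟨P, hP⟩ := fun P hP => by simp only [c, dif_pos hP]
  let e := Fintype.equivFin (Fin r → Fin (2 * L + 1))
  refine ⟨fun P => e (fun i => clr L ⌊(c P i : ℝ) / (δ * √T)⌋), ?_⟩
  intro P hP Q hQ hPT hQT hcol
  have hb : ∀ R (hR : R ∈ Γ), h R ≤ T → ∀ i,
      -(L : ℤ) ≤ ⌊(c R i : ℝ) / (δ * √T)⌋ ∧ ⌊(c R i : ℝ) / (δ * √T)⌋ ≤ L := by
    intro R hR hRT i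
    have h3 := coord_le c1 C T hc1 hC hT (cd ⟨R, hR⟩) (by
      have := h1 ⟨R, hR⟩
      simp only at this
      linarith) i
    rw [← hc R hR, ← hs] at h3
    have h4 : |(c R i : ℝ) / (δ * √T)| ≤ L := by
      rw [abs_div, abs_of_pos (mul_pos hδ0 hsT0), div_le_iff₀ (mul_pos hδ0 hsT0)]
      have h5 : s / δ ≤ L := Nat.le_ceil _
      rw [div_le_iff₀ hδ0] at h5
      calc |(c R i : ℝ)| ≤ s * √T := h3
        _ ≤ (L * δ) * √T := mul_le_mul_of_nonneg_right h5 hsT0.le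
        _ = L * (δ * √T) := by ring
    rw [abs_le] at h4
    constructor
    · rw [Int.le_floor]
      push_cast
      exact h4.1
    · have h6 : ((⌊(c R i : ℝ) / (δ * √T)⌋ : ℤ) : ℝ) ≤ ((L : ℤ) : ℝ) :=
        (Int.floor_le _).trans (by exact_mod_cast h4.2)
      exact_mod_cast h6
  have hfl : ∀ i, ⌊(c P i : ℝ) / (δ * √T)⌋ = ⌊(c Q i : ℝ) / (δ * √T)⌋ := by
    intro i
    have h3 := congrFun (e.injective hcol) i
    exact clr_inj (hb P hP hPT i).1 (hb P hP hPT i).2 (hb Q hQ hQT i).1 (hb Q hQ hQT i).2 h3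
  have hdiff : ∀ i, ((c P i : ℝ) - c Q i) ^ 2 ≤ δ ^ 2 * T := by
    intro i
    have h3 : |(c P i : ℝ) / (δ * √T) - (c Q i : ℝ) / (δ * √T)| < 1 :=
      Int.abs_sub_lt_one_of_floor_eq_floor (hfl i)
    rw [← sub_div, abs_div, abs_of_pos (mul_pos hδ0 hsT0), div_lt_one (mul_pos hδ0 hsT0)] at h3
    have h4 : ((c P i : ℝ) - c Q i) ^ 2 ≤ (δ * √T) ^ 2 := sq_le_sq' (by
      have := (abs_lt.1 h3).1
      linarith) (by
      have := (abs_lt.1 h3).2
      linarith)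
    rwa [mul_pow, Real.sq_sqrt hT0] at h4
  have hPQ : P - Q ∈ Γ := Γ.sub_mem hP hQ
  have h5 := h2 ⟨P - Q, hPQ⟩
  have e1 : cd ⟨P - Q, hPQ⟩ = c P - c Q := by
    have : (⟨P - Q, hPQ⟩ : Γ) = ⟨P, hP⟩ - ⟨Q, hQ⟩ := rfl
    rw [this, map_sub, ← hc P hP, ← hc Q hQ]
  rw [e1] at h5
  have h6 : ∑ i, (((c P - c Q) i : ℤ) : ℝ) ^ 2 ≤ r * (δ ^ 2 * T) := by
    calc ∑ i, (((c P - c Q) i : ℤ) : ℝ) ^ 2 ≤ ∑ _i : Fin r, δ ^ 2 * T := by
          refine Finset.sum_le_sum fun i _ => ?_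
          rw [Pi.sub_apply, Int.cast_sub]
          exact hdiff i
      _ = r * (δ ^ 2 * T) := by
          rw [Finset.sum_const, Finset.card_univ, Fintype.card_fin, nsmul_eq_mul]
  calc h (P - Q) ≤ c2 * ∑ i, (((c P - c Q) i : ℤ) : ℝ) ^ 2 + C := h5
    _ ≤ c2 * (r * (δ ^ 2 * T)) + C := by
        have := mul_le_mul_of_nonneg_left h6 hc2
        linarith
    _ = (c2 * r * δ ^ 2) * T + C := by ring
    _ ≤ ρ * T + C := by
        have := mul_le_mul_of_nonneg_right hδ2 hT0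
        linarith

end Pool.Agent.TH954.Y.PackAux

namespace Pool.Agent.TH954.Y

open Pool.Agent.TH954.X.We

lemma pack_ht {K : Type} [Field K] [NumberField K] {W : WeierstrassCurve K}
    (P : W.toAffine.Point) :
    Height.logHeight (coords P) = Height.logHeight (Pool.Agent.TH954.crd P) := by
  rw [← Height.logHeight_comp_equiv (finRotate 3).symm (Pool.Agent.TH954.crd P)]
  congr 1
  funext i
  rcases P with _ | ⟨x, y, hP⟩
  · fin_cases i <;> rfl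
  · fin_cases i <;> rfl

theorem pack : T_pack := by
  intro K _ _ _ a b hD Γ
  obtain ⟨r, hr, cd, c1, c2, C, hc1, hc2, hC, h1, h2⟩ :=
    Pool.Agent.TH954.V.quad_setup (K := K) (a := a) (b := b) hD Γ
  have h1' : ∀ P : Γ, c1 * ∑ i, (cd P i : ℝ) ^ 2 ≤
      Height.logHeight (coords P.1) + C := fun P => by
    rw [pack_ht]
    exact h1 P
  have h2' : ∀ P : Γ, Height.logHeight (coords P.1) ≤ c2 * ∑ i, (cd P i : ℝ) ^ 2 + C :=
    fun P => by
      rw [pack_ht]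
      exact h2 P
  have hfin : ∀ T : ℝ, {P | P ∈ Γ ∧ Height.logHeight (coords P) ≤ T}.Finite := by
    intro T
    have h3 : {P : Pool.Agent.TH942.SPt a b | Pool.Agent.TH942.sht P ≤ T}.Finite :=
      Pool.Agent.TH942.sfinite_ht T
    refine h3.subset ?_
    intro P hP
    have h4 := Pool.Agent.TH954.V.sht_le (K := K) (a := a) (b := b) P
    have h5 := hP.2
    rw [pack_ht] at h5
    exact h4.trans h5
  obtain ⟨C', hC'⟩ := PackAux.count Γ (fun P => Height.logHeight (coords P)) r cd c1 c2 C hc1 hC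
    h1' h2' hfin
  refine ⟨⟨C', fun T hT => ⟨hfin T, ?_⟩⟩, C, ?_⟩
  · have h6 := hC' T hT
    rw [← hr] at h6
    exact h6
  · exact PackAux.cover Γ (fun P => Height.logHeight (coords P)) r cd c1 c2 C hc1 hc2 hC h1' h2'

end Pool.Agent.TH954.Y
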