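import Pool.Agent.TH954.Y.Defs

/-!
# The local inequality for `d + 1` points of one fibre (job T_tuple, helper416 for helper954)
-/

set_option autoImplicit false
set_option linter.unusedSectionVars false

open MvPolynomial Pool.Agent.TH954.X Pool.Agent.TH954.X.We Pool.Agent.TH954.V

namespace Pool.Agent.TH954.Y

namespace Tup

section gen

variable {K : Type} [Field K] {ι κ : Type} [Fintype ι] [Fintype κ] {n : ℕ}

open Classical in
lemma MH_X (i : ι) (c : Fin n) :
    MH (fun j => if i = j then 1 else 0) (X (i, c) : MvPolynomial (ι × Fin n) K) := by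
  intro m hm j
  rw [support_X, Finset.mem_singleton] at hm
  subst hm
  by_cases hj : i = j
  · subst hj
    beta_reduce
    rw [if_pos rfl, Finset.sum_eq_single c]
    · simp
    · intro d _ hd
      rw [Finsupp.single_apply, if_neg]
      intro h
      exact hd (Prod.ext_iff.1 h).2.symm
    · simp
  · beta_reduce
    rw [if_neg hj]
    refine Finset.sum_eq_zero (fun d _ => ?_)
    rw [Finsupp.single_apply, if_neg]
    intro h
    exact hj (Prod.ext_iff.1 h).1

/-- substitution of groups -/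
noncomputable def pull (φ : κ → ι) (g : MvPolynomial (κ × Fin n) K) :
    MvPolynomial (ι × Fin n) K :=
  cmp g (fun l c => X (φ l, c))

open Classical in
/-- the degrees after a substitution of groups -/
noncomputable def pdeg (φ : κ → ι) (d : κ → ℕ) : ι → ℕ :=
  fun j => ∑ l, d l * if φ l = j then 1 else 0

lemma MH_pull (φ : κ → ι) {d : κ → ℕ} {g : MvPolynomial (κ × Fin n) K} (hg : MH d g) :
    MH (pdeg φ d) (pull φ g) := by
  classical
  unfold pull pdeg
  convert MH_cmp hg (fun l c => X (φ l, c)) (fun l j => if φ l = j then 1 else 0)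
    (fun l c => by convert MH_X (K := K) (φ l) c)

variable {F : Type} [Field F] [Algebra K F]

lemma ev_pull (φ : κ → ι) (g : MvPolynomial (κ × Fin n) K) (u : ι → Fin n → F) :
    ev (pull φ g) u = ev g (fun l => u (φ l)) := by
  unfold pull
  rw [ev_cmp]
  congr 1
  funext l c
  simp [ev]

lemma nvW_pull (w : AbsoluteValue F ℝ) (φ : κ → ι) (d : κ → ℕ)
    (g : MvPolynomial (κ × Fin n) K) (u : ι → Fin n → F) :
    nvW w (pdeg φ d) (pull φ g) u = nvW w d g (fun l => u (φ l)) := by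
  classical
  unfold nvW
  rw [ev_pull]
  congr 1
  unfold pdeg
  simp_rw [← Finset.prod_pow_eq_pow_sum]
  rw [Finset.prod_comm]
  refine Finset.prod_congr rfl fun l _ => ?_
  rw [Finset.prod_eq_single (φ l)]
  · simp
  · intro j _ hj
    rw [if_neg (fun h => hj h.symm), mul_zero, pow_zero]
  · intro h
    exact absurd (Finset.mem_univ _) h

lemma nvW_mul' (w : AbsoluteValue F ℝ) (σ τ : ι → ℕ)
    (f g : MvPolynomial (ι × Fin n) K) (u : ι → Fin n → F) :
    nvW w (fun j => σ j + τ j) (f * g) u = nvW w σ f u * nvW w τ g u := by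
  unfold nvW
  have h1 : ev (f * g) u = ev f u * ev g u := by simp only [ev, map_mul]
  rw [h1, w.map_mul]
  simp_rw [pow_add]
  rw [Finset.prod_mul_distrib, mul_div_mul_comm]

lemma nvW_prod (w : AbsoluteValue F ℝ) {α : Type} (s : Finset α) (σ : α → ι → ℕ)
    (f : α → MvPolynomial (ι × Fin n) K) (u : ι → Fin n → F) :
    nvW w (fun j => ∑ i ∈ s, σ i j) (∏ i ∈ s, f i) u = ∏ i ∈ s, nvW w (σ i) (f i) u := by
  unfold nvW
  have h1 : ev (∏ i ∈ s, f i) u = ∏ i ∈ s, ev (f i) u := by simp only [ev, map_prod]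
  rw [h1, w.map_prod, Finset.prod_div_distrib]
  congr 1
  simp_rw [← Finset.prod_pow_eq_pow_sum]
  rw [Finset.prod_comm]

lemma kap_mono (A B : Finset K) (h : A ⊆ B) {M M' : ℕ} (hM : M ≤ M') (w : AbsoluteValue F ℝ) :
    kap A M 1 w ≤ kap B M' 1 w := by
  unfold kap
  rw [pow_one, pow_one]
  have h1 := cM_mono h w
  have h0 := zero_le_one.trans (one_le_cM A w)
  split_ifs
  · rwa [one_mul, one_mul]
  · exact mul_le_mul (by exact_mod_cast hM) h1 h0 (Nat.cast_nonneg _)

end gen

section one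

variable {K : Type} [Field K] {k : ℕ}

/-- the forms of the definition of `sec` -/
noncomputable def sc (S : Fin 3 → K) (o : Fin (k + 1)) (c : Fin 3) :
    MvPolynomial (Fin k × Fin 3) K :=
  Fin.lastCases (motive := fun _ => MvPolynomial (Fin k × Fin 3) K) (C (S c))
    (fun i => X (i, c)) o

lemma sec_eq (S : Fin 3 → K) (f : MvPolynomial (Fin (k + 1) × Fin 3) K) :
    sec S f = cmp f (sc S) := rfl

lemma MH_sec (S : Fin 3 → K) {δ : Fin (k + 1) → ℕ} {f : MvPolynomial (Fin (k + 1) × Fin 3) K}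
    (hf : MH δ f) : MH (fun i => δ (Fin.castSucc i)) (sec S f) := by
  classical
  rw [sec_eq]
  have h1 := MH_cmp hf (sc S)
    (fun o j => Fin.lastCases (motive := fun _ => ℕ) 0 (fun i => if i = j then 1 else 0) o)
    (by
      intro o c
      induction o using Fin.lastCases with
      | last =>
        simp only [sc, Fin.lastCases_last]
        exact MH_C _
      | cast i =>
        simp only [sc, Fin.lastCases_castSucc]
        convert MH_X (K := K) i c)
  convert h1 using 1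
  funext j
  rw [Fin.sum_univ_castSucc]
  simp

variable {F : Type} [Field F] [Algebra K F]

lemma ev_sec (S : Fin 3 → K) (f : MvPolynomial (Fin (k + 1) × Fin 3) K)
    (u : Fin k → Fin 3 → F) :
    ev (sec S f) u = ev f (snoc u (fun c => algebraMap K F (S c))) := by
  rw [sec_eq, ev_cmp]
  congr 1
  funext o c
  induction o using Fin.lastCases with
  | last => simp [sc, ev, snoc]
  | cast i => simp [sc, ev, snoc]

/-- the restriction to a fibre -/
noncomputable def fib (u : Fin k → Fin 3 → F) (f : MvPolynomial (Fin (k + 1) × Fin 3) K) :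
    MvPolynomial (Fin 3) F :=
  aeval (R := K) (fun p : Fin (k + 1) × Fin 3 =>
    Fin.lastCases (motive := fun _ => MvPolynomial (Fin 3) F) (X p.2)
      (fun i => C (u i p.2)) p.1) f

lemma aeval_fib (u : Fin k → Fin 3 → F) (f : MvPolynomial (Fin (k + 1) × Fin 3) K)
    (v : Fin 3 → F) : aeval v (fib u f) = ev f (snoc u v) := by
  unfold fib ev
  have h : ((aeval v : MvPolynomial (Fin 3) F →ₐ[F] F).restrictScalars K).comp
      (aeval (R := K) (fun p : Fin (k + 1) × Fin 3 =>
        Fin.lastCases (motive := fun _ => MvPolynomial (Fin 3) F) (X p.2)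
          (fun i => C (u i p.2)) p.1)) =
      aeval (R := K) (fun p : Fin (k + 1) × Fin 3 => snoc u v p.1 p.2) := by
    apply algHom_ext
    rintro ⟨o, c⟩
    induction o using Fin.lastCases with
    | last => simp [snoc]
    | cast i => simp [snoc]
  exact congrArg (fun φ => φ f) h

lemma fib_hom (u : Fin k → Fin 3 → F) {δ : Fin (k + 1) → ℕ}
    {f : MvPolynomial (Fin (k + 1) × Fin 3) K} (hf : MH δ f) :
    (fib u f).IsHomogeneous (δ (Fin.last k)) := by
  unfold fib
  rw [aeval_def, eval₂_eq']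
  refine IsHomogeneous.sum _ _ _ fun m hm => ?_
  have h1 : (∏ p : Fin (k + 1) × Fin 3, (Fin.lastCases
      (motive := fun _ => MvPolynomial (Fin 3) F) (X p.2)
      (fun i => C (u i p.2)) p.1) ^ m p).IsHomogeneous
      (∑ p : Fin (k + 1) × Fin 3, (Fin.lastCases (motive := fun _ => ℕ) 1 (fun _ => 0) p.1)
        * m p) := by
    refine IsHomogeneous.prod _ _ _ fun p _ => ?_
    refine IsHomogeneous.pow ?_ _
    obtain ⟨o, c⟩ := p
    induction o using Fin.lastCases with
    | last =>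
      simp only [Fin.lastCases_last]
      exact isHomogeneous_X _ _
    | cast i =>
      simp only [Fin.lastCases_castSucc]
      exact isHomogeneous_C _ _
  have h2 := (isHomogeneous_C (Fin 3) (algebraMap K F (coeff m f))).mul h1
  have h3 : 0 + ∑ p : Fin (k + 1) × Fin 3, (Fin.lastCases (motive := fun _ => ℕ) 1
      (fun _ => 0) p.1) * m p = δ (Fin.last k) := by
    rw [zero_add, Fintype.sum_prod_type, Fin.sum_univ_castSucc]
    simp only [Fin.lastCases_castSucc, Fin.lastCases_last, zero_mul, one_mul,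
      Finset.sum_const_zero, zero_add]
    exact hf m hm (Fin.last k)
  rw [h3] at h2
  exact h2

lemma eqn_map (a b : K) (v : Fin 3 → F) :
    aeval v (eqn (algebraMap K F a) (algebraMap K F b) 0) = aeval v (eqn a b 0) := by
  simp [eqn]

/-- a form with many zeros on the fibre -/
lemma van (hz : T_zeros) [CharZero K] {a b : K} (hab : 4 * a ^ 3 + 27 * b ^ 2 ≠ 0)
    {f : MvPolynomial (Fin (k + 1) × Fin 3) K} {δ : Fin (k + 1) → ℕ} (hf : MH δ f)
    {S : Fin 3 → K} (hS : OnC a b S) (hS0 : S 0 ≠ 0) {d : ℕ}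
    (hd : 6 * δ (Fin.last k) + 1 < d + 1) (u : Fin k → Fin 3 → F)
    (Q : Fin (d + 1) → Fin 3 → F) (hQ : ∀ j, OnC a b (Q j)) (hinj : Function.Injective Q)
    (h0 : ∀ j, ev f (snoc u (Q j)) = 0) : ev (sec S f) u = 0 := by
  classical
  have hc : CharZero F := charZero_of_injective_algebraMap (algebraMap K F).injective
  rw [ev_sec, ← aeval_fib]
  refine hz F (algebraMap K F a) (algebraMap K F b) ?_ (δ (Fin.last k)) (fib u f) (fib_hom u hf)
    (Finset.univ.image Q) ?_ ?_ F _ ?_ ?_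
  · intro h
    apply hab
    apply (algebraMap K F).injective
    rw [map_zero, ← h, map_add, map_mul, map_mul, map_pow, map_pow, map_ofNat, map_ofNat]
  · intro v hv
    obtain ⟨j, -, rfl⟩ := Finset.mem_image.1 hv
    refine ⟨⟨(hQ j).1, ?_⟩, ?_⟩
    · rw [eqn_map]
      exact (hQ j).2
    · rw [aeval_fib]
      exact h0 j
  · rw [Finset.card_image_of_injective _ hinj, Finset.card_univ, Fintype.card_fin]
    exact hd
  · rw [eqn_map]
    have h1 := hS.2
    have h2 : aeval (fun c => algebraMap K F (S c)) (eqn a b 0) =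
        algebraMap K F (aeval S (eqn a b 0)) := by
      simp [eqn]
    rw [h2, h1, map_zero]
  · exact fun h => hS0 ((map_eq_zero (algebraMap K F)).1 h)

end one

/-- the Weierstrass equation in the group `o` -/
noncomputable def W {K : Type} [Field K] {ι : Type} (a b : K) (o : ι) :
    MvPolynomial (ι × Fin 3) K :=
  X (o, 2) ^ 2 * X (o, 0) - (X (o, 1) ^ 3 + C a * X (o, 1) * X (o, 0) ^ 2 + C b * X (o, 0) ^ 3)

lemma ev_W {K F : Type} [Field K] [Field F] [Algebra K F] {ι : Type} (a b : K) (o : ι)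
    (u : ι → Fin 3 → F) : ev (W a b o) u = aeval (u o) (eqn a b 0) := by
  simp [W, ev, eqn]

open Classical in
lemma MH_W {K : Type} [Field K] {ι : Type} [Fintype ι] (a b : K) (o : ι) :
    MH (fun j => if o = j then 3 else 0) (W a b o) := by
  have hX : ∀ c : Fin 3, MH (fun j => if o = j then 1 else 0)
      (X (o, c) : MvPolynomial (ι × Fin 3) K) := fun c => MH_X o c
  have e1 : MH (fun j => if o = j then 3 else 0)
      (X (o, 2) ^ 2 * X (o, 0) : MvPolynomial (ι × Fin 3) K) := by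
    convert MH_mul (MH_pow (hX 2) 2) (hX 0) using 1
    funext j
    split_ifs <;> rfl
  have e2 : MH (fun j => if o = j then 3 else 0)
      (X (o, 1) ^ 3 : MvPolynomial (ι × Fin 3) K) := by
    convert MH_pow (hX 1) 3 using 1
    funext j
    split_ifs <;> rfl
  have e3 : MH (fun j => if o = j then 3 else 0)
      (C a * X (o, 1) * X (o, 0) ^ 2 : MvPolynomial (ι × Fin 3) K) := by
    convert MH_mul (MH_mul (MH_C a) (hX 1)) (MH_pow (hX 0) 2) using 1
    funext j
    split_ifs <;> rfl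
  have e4 : MH (fun j => if o = j then 3 else 0)
      (C b * X (o, 0) ^ 3 : MvPolynomial (ι × Fin 3) K) := by
    convert MH_mul (MH_C b) (MH_pow (hX 0) 3) using 1
    funext j
    split_ifs <;> rfl
  have hadd : ∀ (f g : MvPolynomial (ι × Fin 3) K) (δ : ι → ℕ), MH δ f → MH δ g →
      MH δ (f + g) := by
    intro f g δ hf hg m hm
    rcases Finset.mem_union.1 (support_add hm) with h | h
    · exact hf m h
    · exact hg m h
  have hneg : ∀ (f : MvPolynomial (ι × Fin 3) K) (δ : ι → ℕ), MH δ f → MH δ (-f) := by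
    intro f δ hf m hm
    rw [support_neg] at hm
    exact hf m hm
  unfold W
  rw [sub_eq_add_neg]
  exact hadd _ _ _ e1 (hneg _ _ (hadd _ _ _ (hadd _ _ _ e2 e3) e4))

end Tup

open Tup

theorem tuple_of (hz : T_zeros) : T_tuple := by
  intro K _ _ k a b hab E _ f δ hf L S hS d hd Ξ _ Ω hΩ hΩ0
  classical
  -- the equations
  let aa : Fin k ⊕ Fin (d + 1) → K :=
    Sum.elim (fun i => a (Fin.castSucc i)) (fun _ => a (Fin.last k))
  let bb : Fin k ⊕ Fin (d + 1) → K :=
    Sum.elim (fun i => b (Fin.castSucc i)) (fun _ => b (Fin.last k))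
  let wq : Fin k ⊕ Fin (d + 1) → MvPolynomial ((Fin k ⊕ Fin (d + 1)) × Fin 3) K :=
    fun o => W (aa o) (bb o) o
  let ρ : Fin k ⊕ Fin (d + 1) → Fin k ⊕ Fin (d + 1) → ℕ := fun o j => if o = j then 3 else 0
  have hw : ∀ o, MH (ρ o) (wq o) := fun o => by
    convert MH_W (K := K) (aa o) (bb o) o
  -- the forms
  let φ : Fin (d + 1) → Fin (k + 1) → Fin k ⊕ Fin (d + 1) := fun j l =>
    Fin.lastCases (motive := fun _ => Fin k ⊕ Fin (d + 1)) (Sum.inr j) (fun i => Sum.inl i) l
  have hφ : ∀ (F : Type) (U : Fin k ⊕ Fin (d + 1) → Fin 3 → F) (j : Fin (d + 1)),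
      (fun l => U (φ j l)) = snoc (fun i => U (Sum.inl i)) (U (Sum.inr j)) := by
    intro F U j
    funext l
    induction l using Fin.lastCases with
    | last => simp [φ, snoc]
    | cast i => simp [φ, snoc]
  let e := (Fintype.equivFin (Fin (d + 1) × E)).symm
  let ff : Fin (Fintype.card (Fin (d + 1) × E)) →
      MvPolynomial ((Fin k ⊕ Fin (d + 1)) × Fin 3) K := fun i => pull (φ (e i).1) (f (e i).2)
  let dd : Fin (Fintype.card (Fin (d + 1) × E)) → Fin k ⊕ Fin (d + 1) → ℕ :=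
    fun i => pdeg (φ (e i).1) (δ (e i).2)
  have hff : ∀ i, MH (dd i) (ff i) := fun i => MH_pull _ (hf _)
  obtain ⟨N, hN, t, F, iF, iA, η, hη0, hη1, hη2, hη3⟩ := nullW K wq (fun o => ⟨ρ o, hw o⟩) ff
    (fun i => ⟨dd i, hff i⟩)
  -- the auxiliary forms
  set PP : Finset (Fin (d + 1) × Fin (d + 1)) :=
    Finset.univ.filter (fun p : Fin (d + 1) × Fin (d + 1) => p.1 < p.2) with hPP
  let ψ : Fin (d + 1) × Fin (d + 1) → Fin 2 → Fin k ⊕ Fin (d + 1) :=
    fun r => ![Sum.inr r.1, Sum.inr r.2]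
  have hψ : ∀ (F : Type) (U : Fin k ⊕ Fin (d + 1) → Fin 3 → F)
      (r : Fin (d + 1) × Fin (d + 1)),
      (fun l => U (ψ r l)) = ![U (Sum.inr r.1), U (Sum.inr r.2)] := by
    intro F U r
    funext l
    fin_cases l <;> rfl
  let G : Fin L × E → (Fin (d + 1) × Fin (d + 1) → Ξ) →
      MvPolynomial ((Fin k ⊕ Fin (d + 1)) × Fin 3) K := fun p s =>
    pull (Sum.inl : Fin k → Fin k ⊕ Fin (d + 1)) (sec (S p.1) (f p.2)) *
      ∏ r ∈ PP, pull (ψ r) (Ω (s r))
  let σ : Fin L × E → Fin k ⊕ Fin (d + 1) → ℕ := fun p j =>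
    pdeg (Sum.inl : Fin k → Fin k ⊕ Fin (d + 1)) (fun i => δ p.2 (Fin.castSucc i)) j +
      ∑ r ∈ PP, pdeg (ψ r) (fun _ => 2) j
  have hG : ∀ p s, MH (σ p) (G p s) := fun p s =>
    MH_mul (MH_pull _ (MH_sec _ (hf _))) (MH_prod _ _ _ (fun r _ => MH_pull _ (hΩ _)))
  have hevG : ∀ (F : Type) [Field F] [Algebra K F] (U : Fin k ⊕ Fin (d + 1) → Fin 3 → F)
      (p : Fin L × E) (s : Fin (d + 1) × Fin (d + 1) → Ξ),
      ev (G p s) U = ev (sec (S p.1) (f p.2)) (fun i => U (Sum.inl i)) *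
        ∏ r ∈ PP, ev (Ω (s r)) ![U (Sum.inr r.1), U (Sum.inr r.2)] := by
    intro F _ _ U p s
    have h1 : ev (G p s) U = ev (pull (Sum.inl : Fin k → Fin k ⊕ Fin (d + 1))
        (sec (S p.1) (f p.2))) U * ∏ r ∈ PP, ev (pull (ψ r) (Ω (s r))) U := by
      simp only [G, ev, map_mul, map_prod]
    rw [h1, ev_pull]
    congr 1
    refine Finset.prod_congr rfl fun r _ => ?_
    rw [ev_pull, hψ]
  have hvan : ∀ p s i, ev (G p s) (η i) = 0 := by
    intro p s i
    rw [hevG]
    have hQ : ∀ j, OnC (a (Fin.last k)) (b (Fin.last k)) (η i (Sum.inr j)) := by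
      intro j
      refine ⟨hη0 i (Sum.inr j), ?_⟩
      have := hη1 i (Sum.inr j)
      rwa [ev_W] at this
    by_cases hinj : Function.Injective (fun j => η i (Sum.inr j))
    · rw [van hz (hab _) (hf p.2) (hS p.1).1 (hS p.1).2 (hd p.2) (fun j => η i (Sum.inl j))
        (fun j => η i (Sum.inr j)) hQ hinj, zero_mul]
      intro j
      have h1 := hη2 i (e.symm (j, p.2))
      have h2 : ff (e.symm (j, p.2)) = pull (φ j) (f p.2) := by
        simp only [ff, Equiv.apply_symm_apply]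
      rw [h2, ev_pull, hφ] at h1
      exact h1
    · have h3 : ∃ r ∈ PP, η i (Sum.inr r.1) = η i (Sum.inr r.2) := by
        unfold Function.Injective at hinj
        push Not at hinj
        obtain ⟨x, y, hxy, hne⟩ := hinj
        rcases lt_or_gt_of_ne hne with h | h
        · exact ⟨(x, y), Finset.mem_filter.2 ⟨Finset.mem_univ _, h⟩, hxy⟩
        · exact ⟨(y, x), Finset.mem_filter.2 ⟨Finset.mem_univ _, h⟩, hxy.symm⟩
      obtain ⟨r, hr, hr2⟩ := h3
      rw [Finset.prod_eq_zero hr, mul_zero]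
      rw [← hr2]
      exact hΩ0 _ _ (hQ r.1) _
  have hkey : ∀ (p : Fin L × E) (s : Fin (d + 1) × Fin (d + 1) → Ξ),
      ∃ (A : Finset K) (M : ℕ), 1 ≤ M ∧ ∀ (L : Type) [Field L] [Algebra K L]
      (w : AbsoluteValue L ℝ) (u : Fin k ⊕ Fin (d + 1) → Fin 3 → L), (∀ j, u j ≠ 0) →
      (∀ i, ev (wq i) u = 0) →
      nvW w (σ p) (G p s) u ^ N ≤ kap A M 1 w * ⨆ i, nvW w (dd i) (ff i) u := fun p s =>
    locW_null wq ρ hw ff dd hff (G p s) (σ p) (hG p s) N
      (hη3 (G p s) ⟨_, hG p s⟩ (hvan p s))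
  choose A M hM hA using hkey
  refine ⟨N, (∑ p, ∑ s, M p s) + 1,
    Finset.univ.biUnion (fun p => Finset.univ.biUnion (fun s => A p s)),
    Nat.le_add_left 1 _, fun w u Q hu hQ => ?_⟩
  set B := Finset.univ.biUnion (fun p => Finset.univ.biUnion (fun s => A p s)) with hB
  have hrhs : 0 ≤ kap B ((∑ p, ∑ s, M p s) + 1) 1 w *
      ⨆ p : Fin (d + 1) × E, nvW w (δ p.2) (f p.2) (snoc u (Q p.1)) :=
    mul_nonneg (zero_le_one.trans (one_le_kap _ (Nat.le_add_left 1 _) _ _))
      (Real.iSup_nonneg fun _ => nvW_nonneg _ _ _ _)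
  by_cases hne : Nonempty (Fin L × E)
  swap
  · rw [not_nonempty_iff] at hne
    rw [Real.iSup_of_isEmpty, zero_pow hN.ne', zero_mul]
    exact hrhs
  by_cases hΞ : Nonempty Ξ
  swap
  · rw [not_nonempty_iff] at hΞ
    have h0 : ∏ p ∈ PP, ⨆ s, nvW w (fun _ => 2) (Ω s) ![Q p.1, Q p.2] = 0 := by
      have hd1 : (0 : Fin (d + 1)) < Fin.last d := by
        have := hd hne.some.2
        rw [Fin.lt_def]
        simp only [Fin.val_zero, Fin.val_last]
        omega
      refine Finset.prod_eq_zero (i := ((0 : Fin (d + 1)), Fin.last d))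
        (Finset.mem_filter.2 ⟨Finset.mem_univ _, hd1⟩) ?_
      exact Real.iSup_of_isEmpty _
    rw [h0, zero_pow hN.ne', mul_zero]
    exact hrhs
  obtain ⟨p, hp⟩ := Finite.exists_max (fun p : Fin L × E =>
    nvW w (fun i => δ p.2 (Fin.castSucc i)) (sec (S p.1) (f p.2)) u)
  have hp' : (⨆ p : Fin L × E, nvW w (fun i => δ p.2 (Fin.castSucc i))
      (sec (S p.1) (f p.2)) u) =
      nvW w (fun i => δ p.2 (Fin.castSucc i)) (sec (S p.1) (f p.2)) u :=
    le_antisymm (ciSup_le hp) (le_ciSup (f := fun p : Fin L × E =>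
      nvW w (fun i => δ p.2 (Fin.castSucc i)) (sec (S p.1) (f p.2)) u)
      (Set.finite_range _).bddAbove p)
  have hs : ∀ r : Fin (d + 1) × Fin (d + 1), ∃ s : Ξ,
      (⨆ s, nvW w (fun _ => 2) (Ω s) ![Q r.1, Q r.2]) =
        nvW w (fun _ => 2) (Ω s) ![Q r.1, Q r.2] := by
    intro r
    obtain ⟨s, hs⟩ := Finite.exists_max (fun s : Ξ => nvW w (fun _ => 2) (Ω s) ![Q r.1, Q r.2])
    exact ⟨s, le_antisymm (ciSup_le hs) (le_ciSup (f := fun s : Ξ =>
      nvW w (fun _ => 2) (Ω s) ![Q r.1, Q r.2]) (Set.finite_range _).bddAbove s)⟩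
  choose s hs using hs
  rw [hp', Finset.prod_congr rfl (fun r _ => hs r), ← mul_pow]
  -- the point
  let U : Fin k ⊕ Fin (d + 1) → Fin 3 → K := Sum.elim u Q
  have hU0 : ∀ j, U j ≠ 0 := by
    rintro (i | j)
    · exact (hu i).1.ne_zero
    · exact (hQ j).1.ne_zero
  have hU1 : ∀ o, ev (wq o) U = 0 := by
    rintro (i | j)
    · change ev (W _ _ _) U = 0
      rw [ev_W]
      exact (hu i).2
    · change ev (W _ _ _) U = 0
      rw [ev_W]
      exact (hQ j).2
  have h1 := hA p s K w U hU0 hU1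
  have h2 : nvW w (σ p) (G p s) U =
      nvW w (fun i => δ p.2 (Fin.castSucc i)) (sec (S p.1) (f p.2)) u *
        ∏ r ∈ PP, nvW w (fun _ => 2) (Ω (s r)) ![Q r.1, Q r.2] := by
    change nvW w (fun j => pdeg (Sum.inl : Fin k → Fin k ⊕ Fin (d + 1))
        (fun i => δ p.2 (Fin.castSucc i)) j +
      ∑ r ∈ PP, pdeg (ψ r) (fun _ => 2) j) (pull (Sum.inl : Fin k → Fin k ⊕ Fin (d + 1))
        (sec (S p.1) (f p.2)) * ∏ r ∈ PP, pull (ψ r) (Ω (s r))) U = _
    rw [nvW_mul' w (pdeg (Sum.inl : Fin k → Fin k ⊕ Fin (d + 1))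
        (fun i => δ p.2 (Fin.castSucc i))) (fun j => ∑ r ∈ PP, pdeg (ψ r) (fun _ => 2) j),
      nvW_prod w PP (fun r => pdeg (ψ r) (fun _ => 2)), nvW_pull]
    congr 1
    refine Finset.prod_congr rfl fun r _ => ?_
    rw [nvW_pull, hψ]
    rfl
  rw [h2] at h1
  refine h1.trans ?_
  have h3 : (⨆ i, nvW w (dd i) (ff i) U) ≤
      ⨆ p : Fin (d + 1) × E, nvW w (δ p.2) (f p.2) (snoc u (Q p.1)) := by
    have hne2 : Nonempty (Fin (Fintype.card (Fin (d + 1) × E))) :=
      ⟨e.symm (0, hne.some.2)⟩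
    refine ciSup_le fun i => ?_
    have h4 : nvW w (dd i) (ff i) U = nvW w (δ (e i).2) (f (e i).2) (snoc u (Q (e i).1)) := by
      simp only [dd, ff]
      rw [nvW_pull, hφ]
      rfl
    rw [h4]
    exact le_ciSup (f := fun p : Fin (d + 1) × E => nvW w (δ p.2) (f p.2) (snoc u (Q p.1)))
      (Set.finite_range _).bddAbove (e i)
  have h5 : kap (A p s) (M p s) 1 w ≤ kap B ((∑ p, ∑ s, M p s) + 1) 1 w := by
    refine kap_mono _ _ ?_ ?_ w
    · intro x hx
      rw [hB, Finset.mem_biUnion]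
      exact ⟨p, Finset.mem_univ _, Finset.mem_biUnion.2 ⟨s, Finset.mem_univ _, hx⟩⟩
    · have h6 : M p s ≤ ∑ s, M p s := Finset.single_le_sum (f := fun s => M p s)
        (fun _ _ => Nat.zero_le _) (Finset.mem_univ s)
      have h7 : (∑ s, M p s) ≤ ∑ p, ∑ s, M p s :=
        Finset.single_le_sum (f := fun p => ∑ s, M p s)
        (fun _ _ => Nat.zero_le _) (Finset.mem_univ p)
      omega
  exact mul_le_mul h5 h3 (Real.iSup_nonneg fun _ => nvW_nonneg _ _ _ _)
    (zero_le_one.trans (one_le_kap _ (Nat.le_add_left 1 _) _ _))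

end Pool.Agent.TH954.Y
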