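import Pool.Agent.TH954.Y.Defs

/-!
# The codimension of the set of base points whose whole fibre lies in `f = 0`
-/

set_option autoImplicit false

open MvPolynomial Pool.Agent.TH954.X Pool.Agent.TH954.X.We Pool.Agent.TH954.V

namespace Pool.Agent.TH954.Y

namespace ZdimAux

lemma snoc_last {F : Type} {k : ℕ} (u : Fin k → Fin 3 → F) (v : Fin 3 → F) :
    snoc u v (Fin.last k) = v := by
  simp [snoc]

lemma snoc_castSucc {F : Type} {k : ℕ} (u : Fin k → Fin 3 → F) (v : Fin 3 → F)
    (i : Fin k) : snoc u v (Fin.castSucc i) = u i := by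
  simp [snoc]

/-- values of the substitution -/
theorem ev_sec {K F : Type} [Field K] [Field F] [Algebra K F] {k : ℕ} (S : Fin 3 → K)
    (f : MvPolynomial (Fin (k + 1) × Fin 3) K) (u : Fin k → Fin 3 → F) :
    ev (sec S f) u = ev f (snoc u (fun c => algebraMap K F (S c))) := by
  have h : (aeval (fun p : Fin k × Fin 3 => u p.1 p.2) : MvPolynomial (Fin k × Fin 3) K →ₐ[K] F).comp
      (sec S) = aeval (fun p : Fin (k + 1) × Fin 3 =>
        snoc u (fun c => algebraMap K F (S c)) p.1 p.2) := by
    apply algHom_ext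
    rintro ⟨j, c⟩
    refine Fin.lastCases ?_ (fun i => ?_) j
    · simp [sec, snoc]
    · simp [sec, snoc]
  exact DFunLike.congr_fun h f

/-- substitution of vectors over an extension field for all groups of variables but the last -/
noncomputable def sub {K F : Type} [Field K] [Field F] [Algebra K F] {k : ℕ}
    (u : Fin k → Fin 3 → F) :
    MvPolynomial (Fin (k + 1) × Fin 3) K →ₐ[K] MvPolynomial (Fin 3) F :=
  aeval (fun p => Fin.lastCases (motive := fun _ => MvPolynomial (Fin 3) F)
    (X p.2) (fun i => C (u i p.2)) p.1)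

lemma aeval_sub {K F F' : Type} [Field K] [Field F] [Field F'] [Algebra K F] [Algebra K F']
    [Algebra F F'] [IsScalarTower K F F'] {k : ℕ} (u : Fin k → Fin 3 → F) (v : Fin 3 → F')
    (f : MvPolynomial (Fin (k + 1) × Fin 3) K) :
    aeval v (sub u f) = ev f (snoc (fun i c => algebraMap F F' (u i c)) v) := by
  have h : ((aeval v : MvPolynomial (Fin 3) F →ₐ[F] F').restrictScalars K).comp (sub u) =
      aeval (fun p : Fin (k + 1) × Fin 3 => snoc (fun i c => algebraMap F F' (u i c)) v p.1 p.2) := by
    apply algHom_ext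
    rintro ⟨j, c⟩
    refine Fin.lastCases ?_ (fun i => ?_) j
    · simp [sub, snoc]
    · simp [sub, snoc]
  exact DFunLike.congr_fun h f

lemma sub_hom {K F : Type} [Field K] [Field F] [Algebra K F] {k : ℕ} (u : Fin k → Fin 3 → F)
    {f : MvPolynomial (Fin (k + 1) × Fin 3) K} {δ : Fin (k + 1) → ℕ} (hf : MH δ f) :
    (sub u f).IsHomogeneous (δ (Fin.last k)) := by
  rw [sub, aeval_def, eval₂_eq']
  refine IsHomogeneous.sum _ _ _ (fun m hm => ?_)
  rw [Fintype.prod_prod_type, Fin.prod_univ_castSucc]
  have h1 := hf m hm (Fin.last k)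
  have h2 : ((algebraMap K (MvPolynomial (Fin 3) F)) (coeff m f) *
      ((∏ i : Fin k, ∏ c : Fin 3, (Fin.lastCases (motive := fun _ => MvPolynomial (Fin 3) F)
        (X c) (fun i => C (u i c)) (Fin.castSucc i)) ^ m (Fin.castSucc i, c)) *
        ∏ c : Fin 3, (Fin.lastCases (motive := fun _ => MvPolynomial (Fin 3) F)
        (X c) (fun i => C (u i c)) (Fin.last k)) ^ m (Fin.last k, c))) =
      C (algebraMap K F (coeff m f) * ∏ i : Fin k, ∏ c : Fin 3, u i c ^ m (Fin.castSucc i, c)) *
        ∏ c : Fin 3, (X c : MvPolynomial (Fin 3) F) ^ m (Fin.last k, c) := by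
    simp only [Fin.lastCases_castSucc, Fin.lastCases_last, map_mul, map_prod, map_pow,
      IsScalarTower.algebraMap_apply K F (MvPolynomial (Fin 3) F), algebraMap_eq]
    ring
  rw [h2]
  have h3 : (∏ c : Fin 3, (X c : MvPolynomial (Fin 3) F) ^ m (Fin.last k, c)).IsHomogeneous
      (∑ c, m (Fin.last k, c)) :=
    IsHomogeneous.prod _ _ _ (fun c _ => isHomogeneous_X_pow c _)
  rw [h1] at h3
  have h4 := (isHomogeneous_C (Fin 3) (algebraMap K F (coeff m f) *
    ∏ i : Fin k, ∏ c : Fin 3, u i c ^ m (Fin.castSucc i, c))).mul h3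
  rwa [zero_add] at h4

/-- a point `(1, x, y)` of the curve with `x` transcendental -/
lemma exists_pt {F : Type} [Field F] (a b : F) :
    ∃ (F' : Type) (_ : Field F') (_ : Algebra F F') (x y : F'), Transcendental F x ∧
      y ^ 2 = x ^ 3 + algebraMap F F' a * x + algebraMap F F' b := by
  obtain ⟨y, hy⟩ := IsAlgClosed.exists_pow_nat_eq
    ((algebraMap (RatFunc F) (AlgebraicClosure (RatFunc F)) RatFunc.X) ^ 3 +
      algebraMap F (AlgebraicClosure (RatFunc F)) a *
        algebraMap (RatFunc F) (AlgebraicClosure (RatFunc F)) RatFunc.X +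
      algebraMap F (AlgebraicClosure (RatFunc F)) b) (n := 2) (by norm_num)
  refine ⟨AlgebraicClosure (RatFunc F), inferInstance, inferInstance,
    algebraMap (RatFunc F) (AlgebraicClosure (RatFunc F)) RatFunc.X, y, ?_, hy⟩
  have h1 : Transcendental F (RatFunc.X : RatFunc F) := RatFunc.transcendental_X
  exact (transcendental_algebraMap_iff
    (FaithfulSMul.algebraMap_injective (RatFunc F) (AlgebraicClosure (RatFunc F)))).2 h1

/-- the transcendence degree grows by at least one -/
lemma trdeg_succ {K F F' : Type} [Field K] [Field F] [Field F'] [Algebra K F] [Algebra K F']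
    [Algebra F F'] [IsScalarTower K F F'] (A : Set F) (B : Set F') (x : F')
    (hx : Transcendental F x) (hxB : x ∈ B) (hAB : ∀ z ∈ A, algebraMap F F' z ∈ B) :
    Algebra.trdeg K (IntermediateField.adjoin K A) + 1 ≤
      Algebra.trdeg K (IntermediateField.adjoin K B) := by
  obtain ⟨ι, s, hs⟩ := exists_isTranscendenceBasis' K (IntermediateField.adjoin K A)
  rw [← hs.cardinalMk_eq_trdeg]
  have hs1 : AlgebraicIndependent K (fun i => (s i : F)) :=
    hs.1.map' (f := (IntermediateField.adjoin K A).val) (IntermediateField.adjoin K A).val.injective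
  have hy : AlgebraicIndependent F (fun _ : Unit => x) :=
    algebraicIndependent_unique_type_iff.2 hx
  have h1 := hs1.sumElim_comp hy
  have hmem : ∀ z ∈ IntermediateField.adjoin K A,
      algebraMap F F' z ∈ IntermediateField.adjoin K B := by
    intro z hz
    have h2 : IntermediateField.adjoin K A ≤
        (IntermediateField.adjoin K B).comap (IsScalarTower.toAlgHom K F F') := by
      rw [IntermediateField.adjoin_le_iff]
      intro w hw
      exact IntermediateField.subset_adjoin K B (hAB w hw)
    exact h2 hz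
  have hw : ∀ o : Unit ⊕ ι, Sum.elim (fun _ : Unit => x)
      ((algebraMap F F') ∘ fun i => (s i : F)) o ∈ IntermediateField.adjoin K B := by
    rintro (_ | i)
    · exact IntermediateField.subset_adjoin K B hxB
    · exact hmem _ (s i).2
  have h3 : AlgebraicIndependent K (fun o : Unit ⊕ ι =>
      (⟨_, hw o⟩ : IntermediateField.adjoin K B)) :=
    AlgebraicIndependent.of_comp (IntermediateField.adjoin K B).val h1
  have h4 := h3.cardinalMk_le_trdeg
  rw [Cardinal.mk_sum] at h4
  simpa [add_comm] using h4

end ZdimAux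

open ZdimAux

theorem zdim_of (hz : T_zeros) : T_zdim := by
  classical
  intro K _ _ k a b hab E _ f δ hf c hcod L S hS hSc hL F _ _ u hu hzero
  have : CharZero F := charZero_of_injective_algebraMap (algebraMap K F).injective
  obtain ⟨F', _, _, x, y, hx, hy⟩ := exists_pt (algebraMap K F (a (Fin.last k)))
    (algebraMap K F (b (Fin.last k)))
  let _ : Algebra K F' := ((algebraMap F F').comp (algebraMap K F)).toAlgebra
  have htow : IsScalarTower K F F' := IsScalarTower.of_algebraMap_eq (fun _ => rfl)
  set u' : Fin k → Fin 3 → F' := fun i c => algebraMap F F' (u i c) with hu'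
  have hB : OnB a b (snoc u' ![1, x, y]) := by
    intro i
    refine Fin.lastCases ?_ (fun i => ?_) i
    · rw [snoc_last]
      refine ⟨⟨0, rfl, fun j hj => absurd hj (Fin.not_lt_zero j)⟩, ?_⟩
      simp only [eqn, map_sub, map_mul, map_add, map_pow, aeval_X, aeval_C, Matrix.cons_val_zero,
        Matrix.cons_val_one, Matrix.cons_val]
      rw [IsScalarTower.algebraMap_apply K F F', IsScalarTower.algebraMap_apply K F F', hy]
      ring
    · rw [snoc_castSucc]
      obtain ⟨⟨j, hj1, hj2⟩, h2⟩ := hu i
      refine ⟨⟨j, by simp [hu', hj1], fun l hl => by simp [hu', hj2 l hl]⟩, ?_⟩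
      have h3 := congrArg (algebraMap F F') h2
      rw [map_zero] at h3
      rw [← h3, ← aeval_algebraMap_apply]
      rfl
  have hev : ∀ i, ev (f i) (snoc u' ![1, x, y]) = 0 := by
    intro i
    rw [hu', ← aeval_sub u ![1, x, y] (f i)]
    refine hz F (algebraMap K F (a (Fin.last k))) (algebraMap K F (b (Fin.last k))) ?_
      (δ i (Fin.last k)) (sub u (f i)) (sub_hom u (hf i))
      (Finset.univ.image (fun l : Fin L => fun c => algebraMap K F (S l c))) ?_ ?_ F' ![1, x, y] ?_ ?_
    · intro h
      apply hab (Fin.last k)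
      apply (algebraMap K F).injective
      rw [map_zero, ← h, map_add, map_mul, map_mul, map_pow, map_pow, map_ofNat, map_ofNat]
    · intro v hv
      obtain ⟨l, -, rfl⟩ := Finset.mem_image.1 hv
      obtain ⟨⟨j, hj1, hj2⟩, h2⟩ := hSc l
      refine ⟨⟨⟨j, by simp [hj1], fun m hm => by simp [hj2 m hm]⟩, ?_⟩, ?_⟩
      · have h3 := congrArg (algebraMap K F) h2
        rw [map_zero] at h3
        rw [← h3]
        simp [eqn]
      · rw [aeval_sub u _ (f i)]
        have h3 := hzero (l, i)
        rw [ev_sec] at h3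
        exact h3
    · rw [Finset.card_image_of_injective, Finset.card_univ, Fintype.card_fin]
      · exact hL i
      · intro l l' hll
        apply hS
        funext c
        exact (algebraMap K F).injective (congrFun hll c)
    · simp only [eqn, map_sub, map_mul, map_add, map_pow, aeval_X, aeval_C, Matrix.cons_val_zero,
        Matrix.cons_val_one, Matrix.cons_val]
      rw [hy]
      ring
    · simp
  have h1 := hcod F' (snoc u' ![1, x, y]) hB hev
  have h2 := trdeg_succ (K := K) (Set.range (fun p : Fin k × Fin 3 => u p.1 p.2))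
    (Set.range (fun p : Fin (k + 1) × Fin 3 => snoc u' ![1, x, y] p.1 p.2)) x hx
    ⟨(Fin.last k, 1), by simp [snoc]⟩ (by
      rintro _ ⟨p, rfl⟩
      exact ⟨(Fin.castSucc p.1, p.2), by simp [hu', snoc]⟩)
  have h3 : Algebra.trdeg K (IntermediateField.adjoin K
      (Set.range (fun p : Fin k × Fin 3 => u p.1 p.2))) + (c : Cardinal) + 1 ≤
      (k : Cardinal) + 1 := by
    calc _ = Algebra.trdeg K (IntermediateField.adjoin K
      (Set.range (fun p : Fin k × Fin 3 => u p.1 p.2))) + 1 + (c : Cardinal) := by
          rw [add_right_comm]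
      _ ≤ _ := (add_le_add_left h2 (c : Cardinal)).trans (by simpa using h1)
  exact Cardinal.add_one_le_add_one_iff.1 h3

end Pool.Agent.TH954.Y
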