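import Pool.Agent.TH954.Y.Defs

/-!
# Forms with many zeros on a plane cubic `y² = x³ + a x + b`

A form of degree `D` with more than `6 D + 1` zeros on the curve vanishes at all its affine points:
on the curve the form is `p(x) + y q(x)`, and the norm `p² - (x³ + a x + b) q²` has degree at most
`3 D`.
-/

set_option autoImplicit false

open MvPolynomial Pool.Agent.TH954.X Pool.Agent.TH954.X.We

namespace Pool.Agent.TH954.Y.Zeros

/-- the cubic polynomial `X³ + a X + b` -/
noncomputable def cub {F : Type} [Field F] (a b : F) : Polynomial F :=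
  Polynomial.X ^ 3 + Polynomial.C a * Polynomial.X + Polynomial.C b

theorem cub_natDegree {F : Type} [Field F] (a b : F) : (cub a b).natDegree = 3 := by
  unfold cub
  compute_degree!

theorem cub_ne {F : Type} [Field F] (a b : F) : cub a b ≠ 0 := by
  intro h
  have := cub_natDegree a b
  rw [h] at this
  simp at this

theorem cub_aeval {F : Type} [Field F] (a b : F) {F' : Type} [Field F'] [Algebra F F'] (x : F') :
    Polynomial.aeval x (cub a b) = x ^ 3 + algebraMap F F' a * x + algebraMap F F' b := by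
  simp [cub]

/-- `g` is `p(x) + y q(x)` on the affine curve, with the bounds for the degrees of `p` and `q` -/
def Rep {F : Type} [Field F] (a b : F) (D : ℕ) (g : MvPolynomial (Fin 3) F) : Prop :=
  ∃ p q : Polynomial F, (∀ n, 3 * D < 2 * n → p.coeff n = 0) ∧
    (∀ n, 3 * D < 2 * n + 3 → q.coeff n = 0) ∧
    ∀ (F' : Type) [Field F'] [Algebra F F'] (x y : F'),
      y ^ 2 = x ^ 3 + algebraMap F F' a * x + algebraMap F F' b →
      aeval (![1, x, y] : Fin 3 → F') g = Polynomial.aeval x p + y * Polynomial.aeval x q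

theorem rep_zero {F : Type} [Field F] (a b : F) (D : ℕ) : Rep a b D 0 :=
  ⟨0, 0, fun _ _ => by simp, fun _ _ => by simp, fun F' _ _ x y _ => by simp⟩

theorem rep_add {F : Type} [Field F] {a b : F} {D : ℕ} {g h : MvPolynomial (Fin 3) F}
    (hg : Rep a b D g) (hh : Rep a b D h) : Rep a b D (g + h) := by
  obtain ⟨p, q, hp, hq, hpq⟩ := hg
  obtain ⟨p', q', hp', hq', hpq'⟩ := hh
  refine ⟨p + p', q + q', fun n hn => by simp [hp n hn, hp' n hn],
    fun n hn => by simp [hq n hn, hq' n hn], fun F' _ _ x y hxy => ?_⟩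
  rw [map_add, hpq F' x y hxy, hpq' F' x y hxy, map_add, map_add]
  ring

theorem coeff_van {F : Type} [Field F] (a b c0 : F) (i t n : ℕ) (hn : i + 3 * t < n) :
    (Polynomial.C c0 * Polynomial.X ^ i * cub a b ^ t).coeff n = 0 := by
  apply Polynomial.coeff_eq_zero_of_natDegree_lt
  refine lt_of_le_of_lt ?_ hn
  refine (Polynomial.natDegree_mul_le).trans ?_
  refine add_le_add ?_ ?_
  · exact Polynomial.natDegree_C_mul_X_pow_le c0 i
  · refine (Polynomial.natDegree_pow_le).trans ?_
    rw [cub_natDegree]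
    omega

theorem rep_monomial {F : Type} [Field F] (a b : F) {D : ℕ} (e : Fin 3 →₀ ℕ) (c0 : F)
    (he : e 1 + e 2 ≤ D) : Rep a b D (monomial e c0) := by
  have key : ∀ (F' : Type) [Field F'] [Algebra F F'] (x y : F'),
      aeval (![1, x, y] : Fin 3 → F') (monomial e c0) =
        algebraMap F F' c0 * x ^ (e 1) * y ^ (e 2) := by
    intro F' _ _ x y
    rw [aeval_monomial, Finsupp.prod_fintype _ _ (fun i => pow_zero _), Fin.prod_univ_three]
    simp [mul_assoc]
  rcases Nat.even_or_odd' (e 2) with ⟨t, ht | ht⟩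
  · refine ⟨Polynomial.C c0 * Polynomial.X ^ (e 1) * cub a b ^ t, 0, fun n hn => ?_,
      fun n _ => by simp, fun F' _ _ x y hxy => ?_⟩
    · exact coeff_van a b c0 _ _ n (by omega)
    · rw [key F' x y, ht, pow_mul, hxy]
      simp [cub_aeval]
  · refine ⟨0, Polynomial.C c0 * Polynomial.X ^ (e 1) * cub a b ^ t, fun n _ => by simp,
      fun n hn => ?_, fun F' _ _ x y hxy => ?_⟩
    · exact coeff_van a b c0 _ _ n (by omega)
    · rw [key F' x y, ht, pow_succ, pow_mul, hxy]
      simp [cub_aeval]
      ring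

theorem rep {F : Type} [Field F] (a b : F) {D : ℕ} (g : MvPolynomial (Fin 3) F)
    (hg : g.IsHomogeneous D) : Rep a b D g := by
  rw [g.as_sum]
  refine Finset.sum_induction _ (Rep a b D) (fun _ _ => rep_add) (rep_zero a b D) ?_
  intro e he
  apply rep_monomial
  have h1 := hg (mem_support_iff.mp he)
  rw [Finsupp.weight_apply, Finsupp.sum_fintype _ _ (fun i => by simp), Fin.sum_univ_three] at h1
  simp at h1
  omega

/-- the norm `p² - c q²` -/
noncomputable def nrm {F : Type} [Field F] (a b : F) (p q : Polynomial F) : Polynomial F :=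
  p ^ 2 - cub a b * q ^ 2

theorem nrm_ne {F : Type} [Field F] (a b : F) (p q : Polynomial F) (h : nrm a b p q = 0) :
    p = 0 ∧ q = 0 := by
  have h1 : p ^ 2 = cub a b * q ^ 2 := sub_eq_zero.mp h
  by_cases hq : q = 0
  · rw [hq] at h1
    simp at h1
    exact ⟨h1, hq⟩
  · exfalso
    have h2 := congrArg Polynomial.natDegree h1
    rw [Polynomial.natDegree_pow, Polynomial.natDegree_mul (cub_ne a b) (pow_ne_zero _ hq),
      Polynomial.natDegree_pow, cub_natDegree] at h2
    omega

theorem nrm_natDegree {F : Type} [Field F] (a b : F) (D : ℕ) (p q : Polynomial F)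
    (hp : ∀ n, 3 * D < 2 * n → p.coeff n = 0) (hq : ∀ n, 3 * D < 2 * n + 3 → q.coeff n = 0) :
    (nrm a b p q).natDegree ≤ 3 * D := by
  unfold nrm
  refine (Polynomial.natDegree_sub_le _ _).trans (max_le ?_ ?_)
  · rw [Polynomial.natDegree_pow]
    by_contra hc
    have h1 := hp p.natDegree (by omega)
    rw [Polynomial.coeff_natDegree, Polynomial.leadingCoeff_eq_zero] at h1
    rw [h1] at hc
    simp at hc
  · by_cases h0 : q = 0
    · simp [h0]
    · rw [Polynomial.natDegree_mul (cub_ne a b) (pow_ne_zero _ h0), Polynomial.natDegree_pow,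
        cub_natDegree]
      by_contra hc
      have h1 := hq q.natDegree (by omega)
      rw [Polynomial.coeff_natDegree, Polynomial.leadingCoeff_eq_zero] at h1
      exact h0 h1

theorem nrm_root {F : Type} [Field F] (a b : F) (p q : Polynomial F) (x y : F)
    (hxy : y ^ 2 = x ^ 3 + a * x + b) (h : p.eval x + y * q.eval x = 0) :
    (nrm a b p q).eval x = 0 := by
  have h1 : (cub a b).eval x = y ^ 2 := by rw [hxy]; simp [cub]
  unfold nrm
  rw [Polynomial.eval_sub, Polynomial.eval_mul, Polynomial.eval_pow, Polynomial.eval_pow, h1]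
  have h2 : p.eval x ^ 2 - y ^ 2 * q.eval x ^ 2 =
      (p.eval x + y * q.eval x) * (p.eval x - y * q.eval x) := by ring
  rw [h2, h, zero_mul]

theorem eqn_aeval {F : Type} [Field F] (a b : F) {F' : Type} [Field F'] [Algebra F F']
    (v : Fin 3 → F') : aeval v (eqn a b 0) = v 2 ^ 2 * v 0 - (v 1 ^ 3 +
      algebraMap F F' a * v 1 * v 0 ^ 2 + algebraMap F F' b * v 0 ^ 3) := by
  simp [eqn]

/-- a point of the curve is the point at infinity or has first coordinate `1` -/
theorem onC_cases {F : Type} [Field F] (a b : F) (v : Fin 3 → F) (h : OnC a b v) :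
    v = ![0, 0, 1] ∨ (v 0 = 1 ∧ v 2 ^ 2 = v 1 ^ 3 + a * v 1 + b) := by
  obtain ⟨⟨i, hi, hlt⟩, he⟩ := h
  rw [eqn_aeval] at he
  simp only [Algebra.algebraMap_self, RingHom.id_apply] at he
  by_cases h0 : v 0 = 0
  · left
    rw [h0] at he
    have h1 : v 1 = 0 := by
      have : v 1 ^ 3 = 0 := by linear_combination -he
      exact pow_eq_zero_iff (by norm_num) |>.mp this
    have h2 : v 2 = 1 := by
      fin_cases i
      · exact absurd (hi.symm.trans h0) one_ne_zero
      · exact absurd (hi.symm.trans h1) one_ne_zero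
      · exact hi
    funext j
    fin_cases j
    · exact h0
    · exact h1
    · exact h2
  · right
    have h1 : v 0 = 1 := by
      by_cases hi0 : i = 0
      · rw [← hi0]; exact hi
      · exact absurd (hlt 0 (by
          exact Fin.pos_iff_ne_zero.mpr hi0)) h0
    refine ⟨h1, ?_⟩
    rw [h1] at he
    linear_combination he

theorem vec_eq {F : Type} [Field F] (v : Fin 3 → F) (h : v 0 = 1) : v = ![1, v 1, v 2] := by
  funext j
  fin_cases j
  · exact h
  · rfl
  · rfl

theorem card_le {F : Type} [Field F] (a b : F) (D : ℕ) (p q : Polynomial F)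
    (hn : nrm a b p q ≠ 0) (hd : (nrm a b p q).natDegree ≤ 3 * D) (S : Finset (Fin 3 → F))
    (hS : ∀ v ∈ S, OnC a b v ∧ (v 0 = 1 → (nrm a b p q).eval (v 1) = 0)) :
    S.card ≤ 6 * D + 1 := by
  classical
  set T := S.erase ![0, 0, 1] with hT
  have h1 : S.card ≤ T.card + 1 := by
    have := Finset.pred_card_le_card_erase (s := S) (a := (![0, 0, 1] : Fin 3 → F))
    rw [hT]
    omega
  have hTm : ∀ v ∈ T, v 0 = 1 ∧ v 2 ^ 2 = v 1 ^ 3 + a * v 1 + b := by
    intro v hv
    rw [hT, Finset.mem_erase] at hv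
    rcases onC_cases a b v (hS v hv.2).1 with h | h
    · exact absurd h hv.1
    · exact h
  have h2 : (T.image (fun v => v 1)).card ≤ 3 * D := by
    refine le_trans ?_ hd
    refine le_trans (Finset.card_le_card (t := (nrm a b p q).roots.toFinset) ?_)
      ((Multiset.toFinset_card_le _).trans (Polynomial.card_roots' _))
    intro x hx
    rw [Finset.mem_image] at hx
    obtain ⟨v, hv, rfl⟩ := hx
    rw [Multiset.mem_toFinset, Polynomial.mem_roots hn]
    exact (hS v (Finset.mem_of_mem_erase hv)).2 (hTm v hv).1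
  have h3 : T.card ≤ 2 * (T.image (fun v => v 1)).card := by
    refine Finset.card_le_mul_card_image T 2 ?_
    intro x _
    -- the fibre over `x`
    by_contra hc
    have hc' : 2 < (T.filter (fun v => v 1 = x)).card := by
      simpa using hc
    obtain ⟨u, v, w, hu, hv, hw, huv, huw, hvw⟩ := Finset.two_lt_card_iff.mp hc'
    rw [Finset.mem_filter] at hu hv hw
    have eu := hTm u hu.1
    have ev := hTm v hv.1
    have ew := hTm w hw.1
    rw [hu.2] at eu
    rw [hv.2] at ev
    rw [hw.2] at ew
    have step : ∀ s t : Fin 3 → F, s 1 = x → t 1 = x → s 0 = 1 → t 0 = 1 → s ≠ t →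
        s 2 ^ 2 = t 2 ^ 2 → s 2 = - t 2 ∧ s 2 ≠ t 2 := by
      intro s t hs ht hs0 ht0 hst h
      have hne : s 2 ≠ t 2 := by
        intro h'
        apply hst
        rw [vec_eq s hs0, vec_eq t ht0, hs, ht, h']
      refine ⟨?_, hne⟩
      have : (s 2 - t 2) * (s 2 + t 2) = 0 := by linear_combination h
      rcases mul_eq_zero.mp this with h | h
      · exact absurd (sub_eq_zero.mp h) hne
      · linear_combination h
    have a1 := step u v hu.2 hv.2 eu.1 ev.1 huv (eu.2.trans ev.2.symm)
    have a2 := step u w hu.2 hw.2 eu.1 ew.1 huw (eu.2.trans ew.2.symm)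
    have a3 := step v w hv.2 hw.2 ev.1 ew.1 hvw (ev.2.trans ew.2.symm)
    apply a3.2
    have := a1.1.symm.trans a2.1
    linear_combination -this
  omega

theorem scale {F : Type} [Field F] (D : ℕ) (g : MvPolynomial (Fin 3) F) (hg : g.IsHomogeneous D)
    {F' : Type} [Field F'] [Algebra F F'] (t : F') (w : Fin 3 → F') :
    aeval (fun i => t * w i) g = t ^ D * aeval w g := by
  rw [aeval_def, aeval_def]
  rw [eval₂_eq, eval₂_eq, Finset.mul_sum]
  refine Finset.sum_congr rfl fun e he => ?_
  have h1 := hg (mem_support_iff.mp he)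
  rw [Finsupp.weight_apply, Finsupp.sum] at h1
  simp only [mul_pow, Finset.prod_mul_distrib]
  rw [Finset.prod_pow_eq_pow_sum]
  have h2 : ∑ i ∈ e.support, e i = D := by
    rw [← h1]; simp
  rw [h2]
  ring

end Pool.Agent.TH954.Y.Zeros

namespace Pool.Agent.TH954.Y

open Zeros in
/-- **A form of degree `D` with more than `6 D + 1` zeros on the curve vanishes at all its affine
points.** -/
theorem zeros : T_zeros := by
  intro F _ _ a b _ D g hg S hS hcard F' _ _ v hv hv0
  obtain ⟨p, q, hp, hq, hpq⟩ := rep a b g hg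
  have hz : nrm a b p q = 0 := by
    by_contra hn
    have := card_le a b D p q hn (nrm_natDegree a b D p q hp hq) S (fun v hv => by
      refine ⟨(hS v hv).1, fun h0 => ?_⟩
      rcases onC_cases a b v (hS v hv).1 with h | h
      · rw [h] at h0
        simp at h0
      · refine nrm_root a b p q (v 1) (v 2) h.2 ?_
        have h1 := hpq F (v 1) (v 2) (by simpa using h.2)
        rw [← vec_eq v h0, (hS v hv).2] at h1
        simpa using h1.symm)
    omega
  obtain ⟨hp0, hq0⟩ := nrm_ne a b p q hz
  rw [eqn_aeval] at hv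
  have h1 := hpq F' (v 1 / v 0) (v 2 / v 0) (by
    field_simp
    linear_combination hv)
  rw [hp0, hq0] at h1
  simp only [map_zero, mul_zero, add_zero] at h1
  have h2 : v = fun i => v 0 * (![1, v 1 / v 0, v 2 / v 0] : Fin 3 → F') i := by
    funext j
    fin_cases j
    · simp
    · simp only [Matrix.cons_val_one, Matrix.cons_val_zero, Fin.mk_one]
      field_simp
    · show v 2 = v 0 * (v 2 / v 0)
      field_simp
  rw [h2, scale D g hg, h1, mul_zero]

end Pool.Agent.TH954.Y
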