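import Pool.Agent.TH954.X2.WDefs
import Pool.Agent.TH954.X.NullX

/-!
# Local heights on products of elliptic curves for almost all rational points: definitions and targets
-/

set_option autoImplicit false

open MvPolynomial Pool.Agent.TH954.X Pool.Agent.TH954.X.We Pool.Agent.TH954.V

namespace Pool.Agent.TH954.Y

/-- `v` are the normalised coordinates `(z, x, y)` of a point over `F` of the curve
`y² = x³ + a x + b` over `K` -/
def OnC {K : Type} [Field K] (a b : K) {F : Type} [Field F] [Algebra K F] (v : Fin 3 → F) : Prop :=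
  Normed v ∧ aeval v (eqn a b 0) = 0

/-- `u` are the normalised coordinates of a point over `F` of the product of the curves
`y² = x³ + a i x + b i` -/
def OnB {K : Type} [Field K] {k : ℕ} (a b : Fin k → K) {F : Type} [Field F] [Algebra K F]
    (u : Fin k → Fin 3 → F) : Prop :=
  ∀ i, OnC (a i) (b i) (u i)

/-- the closed subset `f = 0` of the product of the curves has codimension at least `c`: the
coordinates of each of its points generate a field of transcendence degree at most `k - c` -/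
def Codim {K : Type} [Field K] {k : ℕ} (a b : Fin k → K) {E : Type}
    (f : E → MvPolynomial (Fin k × Fin 3) K) (c : ℕ) : Prop :=
  ∀ (F : Type) [Field F] [Algebra K F] (u : Fin k → Fin 3 → F), OnB a b u →
    (∀ i, ev (f i) u = 0) →
    Algebra.trdeg K (IntermediateField.adjoin K
      (Set.range (fun p : Fin k × Fin 3 => u p.1 p.2))) + (c : Cardinal) ≤ (k : Cardinal)

/-- substitution of the vector `S` for the last group of variables -/
noncomputable def sec {K : Type} [Field K] {k : ℕ} (S : Fin 3 → K) :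
    MvPolynomial (Fin (k + 1) × Fin 3) K →ₐ[K] MvPolynomial (Fin k × Fin 3) K :=
  aeval (fun p => Fin.lastCases (motive := fun _ => MvPolynomial (Fin k × Fin 3) K)
    (C (S p.2)) (fun i => X (i, p.2)) p.1)

/-- the family `u` with the vector `v` added at the end -/
def snoc {F : Type} {k : ℕ} (u : Fin k → Fin 3 → F) (v : Fin 3 → F) : Fin (k + 1) → Fin 3 → F :=
  Fin.snoc (α := fun _ => Fin 3 → F) u v

/-- the vector `v`, with zeros added -/
def pad {F : Type} [Field F] (n : ℕ) (v : Fin 3 → F) : Fin n → F :=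
  fun c => if h : c.1 < 3 then v ⟨c.1, h⟩ else 0

/-- the coordinates of the point `(t, u)` of the product of a projective space of dimension `n - 1`
and a product of curves -/
def ful {F : Type} [Field F] {k n : ℕ} (t : Fin n → F) (u : Fin k → Fin 3 → F) :
    Option (Fin k) → Fin n → F :=
  fun o => Option.elim o t (fun i => pad n (u i))

/-- **Target `zeros`.** A form of degree `D` with more than `6 D + 1` zeros on an elliptic curve
vanishes at all its affine points. -/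
def T_zeros : Prop := ∀ (F : Type) [Field F] [CharZero F] (a b : F), 4 * a ^ 3 + 27 * b ^ 2 ≠ 0 →
  ∀ (D : ℕ) (g : MvPolynomial (Fin 3) F), g.IsHomogeneous D → ∀ S : Finset (Fin 3 → F),
    (∀ v ∈ S, OnC a b v ∧ aeval v g = 0) → 6 * D + 1 < S.card →
    ∀ (F' : Type) [Field F'] [Algebra F F'] (v : Fin 3 → F'), aeval v (eqn a b 0) = 0 →
      v 0 ≠ 0 → aeval v g = 0

/-- **Target `zdim`.** The points over which the fibre is a whole curve. -/
def T_zdim : Prop := ∀ (K : Type) [Field K] [CharZero K] (k : ℕ) (a b : Fin (k + 1) → K),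
  (∀ i, 4 * a i ^ 3 + 27 * b i ^ 2 ≠ 0) →
  ∀ (E : Type) [Finite E] (f : E → MvPolynomial (Fin (k + 1) × Fin 3) K)
    (δ : E → Fin (k + 1) → ℕ), (∀ i, MH (δ i) (f i)) → ∀ c : ℕ, Codim a b f c →
  ∀ (L : ℕ) (S : Fin L → Fin 3 → K), Function.Injective S →
    (∀ l, OnC (a (Fin.last k)) (b (Fin.last k)) (S l)) →
    (∀ i, 6 * δ i (Fin.last k) + 1 < L) →
    Codim (fun i => a (Fin.castSucc i)) (fun i => b (Fin.castSucc i))
      (fun p : Fin L × E => sec (S p.1) (f p.2)) c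

/-- **Target `tuple`.** If `d + 1` points of a fibre are near `f = 0` at an absolute value, then two
of them are near each other, or the point of the base is near the closed subset of `T_zdim`. The
forms `Ω` vanish on the diagonal. -/
def T_tuple : Prop := ∀ (K : Type) [Field K] [CharZero K] (k : ℕ) (a b : Fin (k + 1) → K),
  (∀ i, 4 * a i ^ 3 + 27 * b i ^ 2 ≠ 0) →
  ∀ (E : Type) [Fintype E] (f : E → MvPolynomial (Fin (k + 1) × Fin 3) K)
    (δ : E → Fin (k + 1) → ℕ), (∀ i, MH (δ i) (f i)) →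
  ∀ (L : ℕ) (S : Fin L → Fin 3 → K),
    (∀ l, OnC (a (Fin.last k)) (b (Fin.last k)) (S l) ∧ S l 0 ≠ 0) →
  ∀ (d : ℕ), (∀ i, 6 * δ i (Fin.last k) + 1 < d + 1) →
  ∀ (Ξ : Type) [Fintype Ξ] (Ω : Ξ → MvPolynomial (Fin 2 × Fin 3) K),
    (∀ s, MH (fun _ => 2) (Ω s)) →
    (∀ (F : Type) [Field F] [Algebra K F] (v : Fin 3 → F),
      OnC (a (Fin.last k)) (b (Fin.last k)) v → ∀ s, ev (Ω s) ![v, v] = 0) →
  ∃ (N M : ℕ) (A : Finset K), 1 ≤ M ∧ ∀ (w : AbsoluteValue K ℝ) (u : Fin k → Fin 3 → K)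
    (Q : Fin (d + 1) → Fin 3 → K),
    OnB (fun i => a (Fin.castSucc i)) (fun i => b (Fin.castSucc i)) u →
    (∀ j, OnC (a (Fin.last k)) (b (Fin.last k)) (Q j)) →
    (⨆ p : Fin L × E, nvW w (fun i => δ p.2 (Fin.castSucc i)) (sec (S p.1) (f p.2)) u) ^ N *
      (∏ p ∈ Finset.univ.filter (fun p : Fin (d + 1) × Fin (d + 1) => p.1 < p.2),
        ⨆ s, nvW w (fun _ => 2) (Ω s) ![Q p.1, Q p.2]) ^ N ≤
      kap A M 1 w * ⨆ p : Fin (d + 1) × E, nvW w (δ p.2) (f p.2) (snoc u (Q p.1))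

/-- **Target `om`.** Forms defining the diagonal of an elliptic curve, and the height of the
difference of two points. -/
def T_om : Prop := ∀ (K : Type) [Field K] [NumberField K] [DecidableEq K] (a b : K),
  4 * a ^ 3 + 27 * b ^ 2 ≠ 0 →
  ∃ Ω : Fin 3 × Fin 2 → MvPolynomial (Fin 2 × Fin 3) K, (∀ s, MH (fun _ => 2) (Ω s)) ∧
    (∀ (F : Type) [Field F] [Algebra K F] (v : Fin 3 → F), OnC a b v →
      ∀ s, ev (Ω s) ![v, v] = 0) ∧
    ∃ C : ℝ, ∀ P Q : (curve a b).toAffine.Point, P ≠ Q →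
      (∃ s, ev (Ω s) ![coords P, coords Q] ≠ 0) ∧
      FS (fun w : AbsoluteValue K ℝ =>
        max 0 (-Real.log (⨆ s, nvW w (fun _ => 2) (Ω s) ![coords P, coords Q]))) ∧
      tot (fun w => max 0 (-Real.log (⨆ s, nvW w (fun _ => 2) (Ω s) ![coords P, coords Q]))) ≤
        Height.logHeight (coords (P - Q)) + C

/-- **Target `pack`.** Points of bounded height in a subgroup: their number, and a covering by
boundedly many sets of small diameter. -/
def T_pack : Prop := ∀ (K : Type) [Field K] [NumberField K] [DecidableEq K] (a b : K),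
  4 * a ^ 3 + 27 * b ^ 2 ≠ 0 → ∀ Γ : AddSubgroup (curve a b).toAffine.Point,
  (∃ C : ℝ, ∀ T : ℝ, 1 ≤ T → {P | P ∈ Γ ∧ Height.logHeight (coords P) ≤ T}.Finite ∧
    ({P | P ∈ Γ ∧ Height.logHeight (coords P) ≤ T}.ncard : ℝ) ≤
      C * T ^ ((Module.finrank ℤ Γ : ℝ) / 2)) ∧
  ∃ C : ℝ, ∀ ρ : ℝ, 0 < ρ → ∃ N : ℕ, ∀ T : ℝ, 1 ≤ T →
    ∃ col : (curve a b).toAffine.Point → Fin N, ∀ P ∈ Γ, ∀ Q ∈ Γ,
      Height.logHeight (coords P) ≤ T → Height.logHeight (coords Q) ≤ T → col P = col Q →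
      Height.logHeight (coords (P - Q)) ≤ ρ * T + C

/-- **Target `gform`.** A closed subset of codimension two does not dominate the product of the other
curves. -/
def T_gform : Prop := ∀ (K : Type) [Field K] [CharZero K] (k : ℕ) (a b : Fin (k + 1) → K),
  (∀ i, 4 * a i ^ 3 + 27 * b i ^ 2 ≠ 0) →
  ∀ (E : Type) [Fintype E] (f : E → MvPolynomial (Fin (k + 1) × Fin 3) K)
    (δ : E → Fin (k + 1) → ℕ), (∀ i, MH (δ i) (f i)) → Codim a b f 2 →
  ∃ (g : MvPolynomial (Fin k × Fin 3) K) (τ : Fin k → ℕ), MH τ g ∧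
    Codim (fun i => a (Fin.castSucc i)) (fun i => b (Fin.castSucc i)) (fun _ : Unit => g) 1 ∧
    ∃ (N M : ℕ) (A : Finset K), 1 ≤ M ∧ ∀ (w : AbsoluteValue K ℝ)
      (u : Fin k → Fin 3 → K) (v : Fin 3 → K),
      OnB (fun i => a (Fin.castSucc i)) (fun i => b (Fin.castSucc i)) u →
      OnC (a (Fin.last k)) (b (Fin.last k)) v →
      nvW w τ g u ^ N ≤ kap A M 1 w * ⨆ i, nvW w (δ i) (f i) (snoc u v)

/-- **Target `comb`.** -/
def T_comb : Prop := ∀ (M d : ℕ) (x : Fin M → ℝ) (G : ℝ), 0 ≤ G → (∀ j, 0 ≤ x j) →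
  (∀ j, x j ≤ G) → ∑ j, x j ≤ d * G + ∑ e : Fin (d + 1) ↪ Fin M, ⨅ i, x (e i)

/-- **Target `red`.** The closure of the image in the product of curves of a closed subset `f = 0` of
`X : g = 0`. -/
def T_red : Prop := ∀ (K : Type) [Field K] [CharZero K] (k n : ℕ), 3 ≤ n →
  ∀ (a b : Fin k → K) (E1 E2 : Type) [Fintype E1] [Fintype E2]
    (g : E1 → MvPolynomial (Option (Fin k) × Fin n) K), (∀ i, ∃ γ, MH γ (g i)) →
  ∀ (f : E2 → MvPolynomial (Option (Fin k) × Fin n) K) (δ : E2 → Option (Fin k) → ℕ),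
    (∀ i, MH (δ i) (f i)) → ∀ c : ℕ,
    (∀ (F : Type) [Field F] [Algebra K F] (t : Fin n → F) (u : Fin k → Fin 3 → F), t ≠ 0 →
      OnB a b u → (∀ i, ev (g i) (ful t u) = 0) → (∀ i, ev (f i) (ful t u) = 0) →
      Algebra.trdeg K (IntermediateField.adjoin K
        (Set.range (fun p : Fin k × Fin 3 => u p.1 p.2))) + (c : Cardinal) ≤ (k : Cardinal)) →
  ∃ (s : ℕ) (h : Fin s → MvPolynomial (Fin k × Fin 3) K) (η : Fin s → Fin k → ℕ),
    (∀ i, MH (η i) (h i)) ∧ Codim a b h c ∧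
    ∃ (N M : ℕ) (A : Finset K), 1 ≤ M ∧ ∀ (w : AbsoluteValue K ℝ) (t : Fin n → K)
      (u : Fin k → Fin 3 → K), t ≠ 0 → OnB a b u → (∀ i, ev (g i) (ful t u) = 0) →
      (⨆ i, nvW w (η i) (h i) u) ^ N ≤ kap A M 1 w * ⨆ i, nvW w (δ i) (f i) (ful t u)

end Pool.Agent.TH954.Y
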