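import Pool.Agent.TH954.Y.ThmA

/-!
# Almost all points: varieties over products of elliptic curves
-/

set_option autoImplicit false
set_option linter.unusedSectionVars false

open MvPolynomial Pool.Agent.TH954.X Pool.Agent.TH954.X.We Pool.Agent.TH954.V NumberField

namespace Pool.Agent.TH954.Y

variable {K : Type} [Field K] [NumberField K]

lemma pad_ne_zero {F : Type} [Field F] {n : ℕ} (hn : 3 ≤ n) {v : Fin 3 → F} (hv : v ≠ 0) :
    pad n v ≠ 0 := by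
  obtain ⟨c, hc⟩ := Function.ne_iff.mp hv
  intro h
  apply hc
  have h1 := congrFun h ⟨c.1, lt_of_lt_of_le c.2 hn⟩
  simpa [pad] using h1

lemma ful_ne_zero {F : Type} [Field F] {k n : ℕ} (hn : 3 ≤ n) {t : Fin n → F} (ht : t ≠ 0)
    {u : Fin k → Fin 3 → F} (hu : ∀ i, u i ≠ 0) (o : Option (Fin k)) : ful t u o ≠ 0 := by
  cases o with
  | none => exact ht
  | some i => exact pad_ne_zero hn (hu i)

/-- local height with respect to the closed subscheme defined by the forms `f` -/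
noncomputable def lamx {ι : Type} [Fintype ι] {n : ℕ} {E : Type} (δ : E → ι → ℕ)
    (f : E → MvPolynomial (ι × Fin n) K) (x : ι → Fin n → K) (w : AbsoluteValue K ℝ) : ℝ :=
  -Real.log (⨆ i, nvW w (δ i) (f i) x)

/-- the sum of the local heights over the places in `S1` and `S2` -/
noncomputable def prox {ι : Type} [Fintype ι] {n : ℕ} {E : Type} (δ : E → ι → ℕ)
    (f : E → MvPolynomial (ι × Fin n) K) (S1 : Finset (InfinitePlace K))
    (S2 : Finset (FinitePlace K)) (x : ι → Fin n → K) : ℝ :=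
  ∑ v ∈ S1, (v.mult : ℝ) * lamx δ f x (ai v) + ∑ v ∈ S2, lamx δ f x (av v)

/-- comparison of local heights -/
lemma lamx_le {ι ι' : Type} [Fintype ι] [Fintype ι'] {n n' : ℕ} {E E' : Type} [Finite E]
    {δ : E → ι → ℕ}
    {f : E → MvPolynomial (ι × Fin n) K} {η : E' → ι' → ℕ}
    {h : E' → MvPolynomial (ι' × Fin n') K} {N M : ℕ} {A : Finset K} (hM : 1 ≤ M)
    {x : ι → Fin n → K} {u : ι' → Fin n' → K} (w : AbsoluteValue K ℝ)
    (hloc : (⨆ i, nvW w (η i) (h i) u) ^ N ≤ kap A M 1 w * ⨆ i, nvW w (δ i) (f i) x)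
    (h0 : 0 < ⨆ i, nvW w (η i) (h i) u) :
    0 < (⨆ i, nvW w (δ i) (f i) x) ∧
      lamx δ f x w ≤ N * lam0 η h u w + Real.log (kap A M 1 w) := by
  have hk : 0 < kap A M 1 w := zero_lt_one.trans_le (one_le_kap A hM 1 w)
  have hp : 0 < (⨆ i, nvW w (δ i) (f i) x) := by
    by_contra hcon
    have h4 := mul_nonpos_of_nonneg_of_nonpos hk.le (not_lt.mp hcon)
    have h5 := pow_pos h0 N
    linarith
  refine ⟨hp, ?_⟩
  have h1 := Real.log_le_log (pow_pos h0 N) hloc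
  rw [Real.log_pow, Real.log_mul hk.ne' hp.ne'] at h1
  have h2 : (N : ℝ) * -Real.log (⨆ i, nvW w (η i) (h i) u) ≤ N * lam0 η h u w :=
    mul_le_mul_of_nonneg_left (le_max_right _ _) (Nat.cast_nonneg _)
  change -Real.log (⨆ i, nvW w (δ i) (f i) x) ≤ _
  linarith

/-- the points of height at most `T` over which the inequality fails -/
def BadX {k n : ℕ} {E1 E2 E3 : Type} (g : E1 → MvPolynomial (Option (Fin k) × Fin n) K)
    (f2 : E2 → MvPolynomial (Option (Fin k) × Fin n) K) (δ2 : E2 → Option (Fin k) → ℕ)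
    (f3 : E3 → MvPolynomial (Option (Fin k) × Fin n) K) (δ3 : E3 → Option (Fin k) → ℕ)
    (S1 : Finset (InfinitePlace K)) (S2 : Finset (FinitePlace K))
    (H : Fin k → Set (Fin 3 → K)) (ε T : ℝ) : Set (Fin k → Fin 3 → K) :=
  {u | u ∈ Box H T ∧ ∃ t : Fin n → K, t ≠ 0 ∧ (∀ i, ev (g i) (ful t u) = 0) ∧
    ((∀ i, ev (f2 i) (ful t u) = 0) ∨ (∀ i, ev (f3 i) (ful t u) = 0) ∨
      ε * ∑ i, Height.logHeight (u i) <
        tot (lamx δ2 f2 (ful t u)) + prox δ3 f3 S1 S2 (ful t u))}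

/-- the estimate at one scale -/
lemma scale {k : ℕ} {s2 s3 : ℕ}
    (h2 : Fin s2 → MvPolynomial (Fin k × Fin 3) K) (η2 : Fin s2 → Fin k → ℕ)
    (h3 : Fin s3 → MvPolynomial (Fin k × Fin 3) K) (η3 : Fin s3 → Fin k → ℕ)
    {n : ℕ} (hn : 3 ≤ n) {E1 E2 E3 : Type} [Fintype E2] [Fintype E3]
    (g : E1 → MvPolynomial (Option (Fin k) × Fin n) K)
    (f2 : E2 → MvPolynomial (Option (Fin k) × Fin n) K) (δ2 : E2 → Option (Fin k) → ℕ)
    (hf2 : ∀ i, MH (δ2 i) (f2 i))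
    (f3 : E3 → MvPolynomial (Option (Fin k) × Fin n) K) (δ3 : E3 → Option (Fin k) → ℕ)
    (hη2 : ∀ i, MH (η2 i) (h2 i))
    (a b : Fin k → K) {N2 M2 : ℕ} {A2 : Finset K} (hM2 : 1 ≤ M2)
    (hl2 : ∀ (w : AbsoluteValue K ℝ) (t : Fin n → K)
      (u : Fin k → Fin 3 → K), t ≠ 0 → OnB a b u → (∀ i, ev (g i) (ful t u) = 0) →
      (⨆ i, nvW w (η2 i) (h2 i) u) ^ N2 ≤ kap A2 M2 1 w * ⨆ i, nvW w (δ2 i) (f2 i) (ful t u))
    {N3 M3 : ℕ} {A3 : Finset K} (hM3 : 1 ≤ M3)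
    (hl3 : ∀ (w : AbsoluteValue K ℝ) (t : Fin n → K)
      (u : Fin k → Fin 3 → K), t ≠ 0 → OnB a b u → (∀ i, ev (g i) (ful t u) = 0) →
      (⨆ i, nvW w (η3 i) (h3 i) u) ^ N3 ≤ kap A3 M3 1 w * ⨆ i, nvW w (δ3 i) (f3 i) (ful t u))
    (S1 : Finset (InfinitePlace K)) (S2 : Finset (FinitePlace K))
    (H : Fin k → Set (Fin 3 → K)) (hH : ∀ i, ∀ v ∈ H i, OnC (a i) (b i) v)
    (w1 : AbsoluteValue K ℝ) (ε : ℝ) (hε : 0 < ε) :
    ∃ ε2 : ℝ, 0 < ε2 ∧ ∃ ε3 : ℝ, 0 < ε3 ∧ ∃ T1 : ℝ, ∀ T T' : ℝ, T1 ≤ T → 1 ≤ T →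
      ∀ u ∈ BadX g f2 δ2 f3 δ3 S1 S2 H ε T', u ∈ Box H T →
        T / 2 ≤ ∑ i, Height.logHeight (u i) → u ∈ Bad2 η2 h2 H ε2 T ∪
          (Bad1 w1 η3 h3 H ε3 T ∪ ((⋃ v ∈ S1, Bad1 (ai v) η3 h3 H ε3 T) ∪
            ⋃ v ∈ S2, Bad1 (av v) η3 h3 H ε3 T)) := by
  classical
  obtain ⟨ck2, hck20, hck2⟩ := tot_kap A2 hM2 1
  set dK : ℝ := (Module.finrank ℚ K : ℝ) with hdK
  set σ1 : ℝ := ∑ v ∈ S1, (v.mult : ℝ) with hσ1
  set σ2 : ℝ := (S2.card : ℝ) with hσ2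
  have hσ10 : 0 ≤ σ1 := Finset.sum_nonneg (fun _ _ => Nat.cast_nonneg _)
  have hσ20 : 0 ≤ σ2 := Nat.cast_nonneg _
  set c3 : ℝ := ∑ v ∈ S1, (v.mult : ℝ) * Real.log (kap A3 M3 1 (ai v)) +
    ∑ v ∈ S2, Real.log (kap A3 M3 1 (av v)) with hc3
  set ε2 : ℝ := ε / (8 * (N2 + 1)) with hε2
  set ε3 : ℝ := ε / (8 * (N3 + 1) * (σ1 + σ2 + 1)) with hε3
  have hε20 : 0 < ε2 := by positivity
  have hε30 : 0 < ε3 := by positivity
  refine ⟨ε2, hε20, ε3, hε30, 4 * (ck2 * dK + c3) / ε, fun T T' hT1 hT u hu huB hsum => ?_⟩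
  by_contra hcon
  simp only [Set.mem_union, Set.mem_iUnion, not_or, not_exists] at hcon
  obtain ⟨hc1, hc2, hc3', hc4⟩ := hcon
  obtain ⟨-, t, ht0, hgt, hbad⟩ := hu
  have hOB : OnB a b u := fun i => hH i _ (huB i).1
  have hu0 : ∀ i, u i ≠ 0 := fun i => hOB.ne_zero i
  -- the first set
  have hne2 : ∃ i, ev (h2 i) u ≠ 0 := by
    by_contra h
    push Not at h
    exact hc1 ⟨huB, Or.inl h⟩
  have htot2 : tot (lam0 η2 h2 u) ≤ ε2 * T := by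
    by_contra h
    push Not at h
    exact hc1 ⟨huB, Or.inr h⟩
  have hcmp2 : ∀ w, 0 < (⨆ i, nvW w (δ2 i) (f2 i) (ful t u)) ∧
      lamx δ2 f2 (ful t u) w ≤ N2 * lam0 η2 h2 u w + Real.log (kap A2 M2 1 w) := fun w =>
    lamx_le hM2 w (hl2 w t u ht0 hOB hgt) (sup_nvW_pos w η2 h2 hu0 hne2)
  have hne2' : ∃ i, ev (f2 i) (ful t u) ≠ 0 := exists_of_sup_pos w1 δ2 f2 (hcmp2 w1).1
  have hful : ∀ o, ful t u o ≠ 0 := ful_ne_zero hn ht0 hu0
  have hFl : FS (lam0 η2 h2 u) := FS_lam0 η2 h2 hη2 hu0 hne2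
  have hW : tot (lamx δ2 f2 (ful t u)) ≤ N2 * (ε2 * T) + ck2 * dK := by
    have h1 : tot (lamx δ2 f2 (ful t u)) ≤
        tot (fun w => N2 * lam0 η2 h2 u w + Real.log (kap A2 M2 1 w)) := by
      refine tot_le ?_ (FS_add (FS_mul hFl _) (hck2 K).1) (fun w => (hcmp2 _).2)
        (fun w => (hcmp2 _).2)
      exact FS_neg (FS_logsup δ2 f2 hf2 hful hne2')
    rw [tot_add (FS_mul hFl _) (hck2 K).1, tot_mul hFl] at h1
    have h3 := (hck2 K).2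
    have h4 := mul_le_mul_of_nonneg_left htot2 (Nat.cast_nonneg (α := ℝ) N2)
    linarith
  -- the second set
  have hpos3 : ∀ w, u ∉ Bad1 w η3 h3 H ε3 T → 0 < (⨆ i, nvW w (η3 i) (h3 i) u) ∧
      lam0 η3 h3 u w ≤ ε3 * T := by
    intro w hw
    have h1 : Real.exp (-(ε3 * T)) < ⨆ i, nvW w (η3 i) (h3 i) u := by
      by_contra h
      exact hw ⟨huB, not_lt.mp h⟩
    refine ⟨(Real.exp_pos _).trans h1, max_le (by positivity) ?_⟩
    have h2 := Real.log_le_log (Real.exp_pos _) h1.le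
    rw [Real.log_exp] at h2
    linarith
  have hcmp3 : ∀ w, u ∉ Bad1 w η3 h3 H ε3 T → 0 < (⨆ i, nvW w (δ3 i) (f3 i) (ful t u)) ∧
      lamx δ3 f3 (ful t u) w ≤ N3 * (ε3 * T) + Real.log (kap A3 M3 1 w) := by
    intro w hw
    obtain ⟨h1, h2⟩ := hpos3 w hw
    obtain ⟨h3, h4⟩ := lamx_le hM3 w (hl3 w t u ht0 hOB hgt) h1
    have h5 := mul_le_mul_of_nonneg_left h2 (Nat.cast_nonneg (α := ℝ) N3)
    exact ⟨h3, by linarith⟩
  have hne3' : ∃ i, ev (f3 i) (ful t u) ≠ 0 := exists_of_sup_pos w1 δ3 f3 (hcmp3 w1 hc2).1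
  have hP : prox δ3 f3 S1 S2 (ful t u) ≤ (σ1 + σ2) * (N3 * (ε3 * T)) + c3 := by
    have h1 : ∑ v ∈ S1, (v.mult : ℝ) * lamx δ3 f3 (ful t u) (ai v) ≤
        ∑ v ∈ S1, ((v.mult : ℝ) * (N3 * (ε3 * T)) +
          (v.mult : ℝ) * Real.log (kap A3 M3 1 (ai v))) := by
      refine Finset.sum_le_sum (fun v hv => ?_)
      rw [← mul_add]
      exact mul_le_mul_of_nonneg_left (hcmp3 _ (hc3' v hv)).2 (Nat.cast_nonneg _)
    have h2 : ∑ v ∈ S2, lamx δ3 f3 (ful t u) (av v) ≤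
        ∑ v ∈ S2, (N3 * (ε3 * T) + Real.log (kap A3 M3 1 (av v))) :=
      Finset.sum_le_sum (fun v hv => (hcmp3 _ (hc4 v hv)).2)
    rw [Finset.sum_add_distrib, ← Finset.sum_mul] at h1
    rw [Finset.sum_add_distrib, Finset.sum_const, nsmul_eq_mul] at h2
    unfold prox
    rw [hc3]
    have h5 : (σ1 + σ2) * (N3 * (ε3 * T)) = σ1 * (N3 * (ε3 * T)) + σ2 * (N3 * (ε3 * T)) := by
      ring
    linarith
  rcases hbad with h | h | h
  · obtain ⟨i, hi⟩ := hne2'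
    exact hi (h i)
  · obtain ⟨i, hi⟩ := hne3'
    exact hi (h i)
  · have hT0 : 0 < T := one_pos.trans_le hT
    have h1 : (N2 : ℝ) * (ε2 * T) ≤ ε / 8 * T := by
      have : (N2 : ℝ) * ε2 ≤ ε / 8 := by
        rw [hε2, mul_div_assoc', div_le_div_iff₀ (by positivity) (by positivity)]
        nlinarith
      nlinarith
    have h2 : (σ1 + σ2) * (N3 * (ε3 * T)) ≤ ε / 8 * T := by
      have h3 : (σ1 + σ2) * N3 * ε3 ≤ ε / 8 := by
        rw [hε3, mul_div_assoc', div_le_div_iff₀ (by positivity) (by positivity)]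
        have h4 : (σ1 + σ2) * N3 ≤ (σ1 + σ2 + 1) * (N3 + 1) := by
          have : (0 : ℝ) ≤ N3 := Nat.cast_nonneg _
          nlinarith
        nlinarith
      nlinarith
    rw [div_le_iff₀ hε] at hT1
    nlinarith

end Pool.Agent.TH954.Y
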