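import Pool.Agent.TH954.Y.Fin1

/-!
# Almost all points: summation over dyadic ranges
-/

set_option autoImplicit false
set_option linter.unusedSectionVars false

open MvPolynomial Pool.Agent.TH954.X Pool.Agent.TH954.X.We Pool.Agent.TH954.V NumberField

namespace Pool.Agent.TH954.Y

/-- a family of sets whose elements lie in one of the sets `Bd (2 ^ (j + 1))` -/
lemma dyadic {γ : Type} (X B Bd : ℝ → Set γ) (e : ℝ) (he : 0 < e) (T1 : ℝ)
    (hB : (B T1).Finite)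
    (hBd : ∃ C : ℝ, ∀ T, 1 ≤ T → (Bd T).Finite ∧ ((Bd T).ncard : ℝ) ≤ C * T ^ e)
    (h : ∀ T, 1 ≤ T → ∀ u ∈ X T, u ∈ B T1 ∨ ∃ j : ℕ, (2 : ℝ) ^ j ≤ T ∧ u ∈ Bd (2 ^ (j + 1))) :
    ∃ C : ℝ, ∀ T, 1 ≤ T → (X T).Finite ∧ ((X T).ncard : ℝ) ≤ C * T ^ e := by
  classical
  obtain ⟨C, hC⟩ := hBd
  set q : ℝ := (2 : ℝ) ^ e with hq
  have hq1 : 1 < q := Real.one_lt_rpow one_lt_two he
  have hq0 : 0 < q := one_pos.trans hq1
  refine ⟨((B T1).ncard : ℝ) + |C| * q * (q / (q - 1)), fun T hT => ?_⟩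
  have hT0 : 0 < T := one_pos.trans_le hT
  obtain ⟨n, hn1, hn2⟩ := exists_nat_pow_near hT (one_lt_two (α := ℝ))
  have hpow1 : ∀ j : ℕ, (1 : ℝ) ≤ 2 ^ (j + 1) := fun j => one_le_pow₀ one_le_two
  have hsub : X T ⊆ B T1 ∪ ⋃ j ∈ Finset.range (n + 1), Bd (2 ^ (j + 1)) := by
    intro u hu
    rcases h T hT u hu with h1 | ⟨j, hj, h1⟩
    · exact Or.inl h1
    · refine Or.inr ?_
      simp only [Set.mem_iUnion]
      refine ⟨j, Finset.mem_range.mpr ?_, h1⟩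
      have h2 : (2 : ℝ) ^ j < 2 ^ (n + 1) := hj.trans_lt hn2
      exact (pow_lt_pow_iff_right₀ one_lt_two).mp h2
  have hUfin : (⋃ j ∈ Finset.range (n + 1), Bd (2 ^ (j + 1))).Finite :=
    Set.Finite.biUnion (Finset.finite_toSet _) (fun j _ => (hC _ (hpow1 j)).1)
  refine ⟨(hB.union hUfin).subset hsub, ?_⟩
  have h1 : (X T).ncard ≤ (B T1).ncard +
      ∑ j ∈ Finset.range (n + 1), (Bd (2 ^ (j + 1))).ncard := by
    refine (Set.ncard_le_ncard hsub (hB.union hUfin)).trans ((Set.ncard_union_le _ _).trans ?_)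
    refine Nat.add_le_add_left ?_ _
    have h2 : ∀ s : Finset ℕ, (⋃ j ∈ s, Bd (2 ^ (j + 1))).ncard ≤
        ∑ j ∈ s, (Bd (2 ^ (j + 1))).ncard := by
      intro s
      induction s using Finset.induction_on with
      | empty => simp
      | insert a s ha ih =>
        rw [Finset.sum_insert ha, Finset.set_biUnion_insert]
        exact (Set.ncard_union_le _ _).trans (Nat.add_le_add_left ih _)
    exact h2 _
  have h2 : ((X T).ncard : ℝ) ≤ (B T1).ncard +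
      ∑ j ∈ Finset.range (n + 1), ((Bd (2 ^ (j + 1))).ncard : ℝ) := by
    exact_mod_cast h1
  have h3 : ∀ j ∈ Finset.range (n + 1), ((Bd (2 ^ (j + 1))).ncard : ℝ) ≤ |C| * q * q ^ j := by
    intro j _
    refine (hC _ (hpow1 j)).2.trans ?_
    have h4 : ((2 : ℝ) ^ (j + 1)) ^ e = q * q ^ j := by
      rw [← Real.rpow_natCast, ← Real.rpow_mul (by norm_num), mul_comm, Real.rpow_mul (by norm_num),
        Real.rpow_natCast, pow_succ]
      ring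
    rw [h4, mul_assoc]
    exact mul_le_mul_of_nonneg_right (le_abs_self C) (by positivity)
  have h4 : ∑ j ∈ Finset.range (n + 1), ((Bd (2 ^ (j + 1))).ncard : ℝ) ≤
      |C| * q * ∑ j ∈ Finset.range (n + 1), q ^ j := by
    rw [Finset.mul_sum]
    exact Finset.sum_le_sum h3
  have h5 : ∑ j ∈ Finset.range (n + 1), q ^ j ≤ q / (q - 1) * T ^ e := by
    have h6 : q ^ n ≤ T ^ e := by
      have h7 : q ^ n = ((2 : ℝ) ^ n) ^ e := by
        rw [← Real.rpow_natCast, ← Real.rpow_mul (by norm_num), mul_comm,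
          Real.rpow_mul (by norm_num), Real.rpow_natCast]
      rw [h7]
      exact Real.rpow_le_rpow (by positivity) hn1 he.le
    rw [geom_sum_eq hq1.ne', div_mul_eq_mul_div]
    refine div_le_div_of_nonneg_right ?_ (by linarith)
    rw [pow_succ]
    nlinarith
  have hTe : 1 ≤ T ^ e := Real.one_le_rpow hT he.le
  have h6 : ((B T1).ncard : ℝ) ≤ (B T1).ncard * T ^ e := by
    have : (0 : ℝ) ≤ (B T1).ncard := Nat.cast_nonneg _
    nlinarith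
  have h7 : |C| * q * ∑ j ∈ Finset.range (n + 1), q ^ j ≤ |C| * q * (q / (q - 1) * T ^ e) :=
    mul_le_mul_of_nonneg_left h5 (by positivity)
  calc ((X T).ncard : ℝ) ≤ _ := h2
    _ ≤ (B T1).ncard * T ^ e + |C| * q * (q / (q - 1) * T ^ e) := by linarith
    _ = _ := by ring

lemma add_bd {γ : Type} {X Y : ℝ → Set γ} {e : ℝ}
    (hX : ∃ C : ℝ, ∀ T, 1 ≤ T → (X T).Finite ∧ ((X T).ncard : ℝ) ≤ C * T ^ e)
    (hY : ∃ C : ℝ, ∀ T, 1 ≤ T → (Y T).Finite ∧ ((Y T).ncard : ℝ) ≤ C * T ^ e) :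
    ∃ C : ℝ, ∀ T, 1 ≤ T → (X T ∪ Y T).Finite ∧ ((X T ∪ Y T).ncard : ℝ) ≤ C * T ^ e := by
  obtain ⟨C1, h1⟩ := hX
  obtain ⟨C2, h2⟩ := hY
  refine ⟨C1 + C2, fun T hT => ⟨(h1 T hT).1.union (h2 T hT).1, ?_⟩⟩
  refine le_trans (by exact_mod_cast Set.ncard_union_le _ _)
    (le_trans (add_le_add (h1 T hT).2 (h2 T hT).2) ?_)
  rw [add_mul]

lemma bUnion_bd {γ ι : Type} (s : Finset ι) {X : ι → ℝ → Set γ} {e : ℝ}
    (hX : ∀ i, ∃ C : ℝ, ∀ T, 1 ≤ T → (X i T).Finite ∧ ((X i T).ncard : ℝ) ≤ C * T ^ e) :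
    ∃ C : ℝ, ∀ T, 1 ≤ T → (⋃ i ∈ s, X i T).Finite ∧ ((⋃ i ∈ s, X i T).ncard : ℝ) ≤ C * T ^ e := by
  classical
  induction s using Finset.induction_on with
  | empty =>
    refine ⟨0, fun T hT => ?_⟩
    simp
  | insert a s ha ih =>
    simp_rw [Finset.set_biUnion_insert]
    exact add_bd (hX a) ih

variable {K : Type} [Field K] [NumberField K]

lemma logHeight_nonneg' (v : Fin 3 → K) : 0 ≤ Height.logHeight v := by
  exact Height.logHeight_nonneg v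

/-- **Almost all points, for the coordinate vectors.** -/
theorem fin (hT : T_tuple) (hZ : T_zdim) (hG : T_gform) (hcomb : T_comb) (hR : T_red)
    {k n : ℕ} (hk : 2 ≤ k) (hn : 3 ≤ n) (a b : Fin k → K)
    (hd : ∀ i, 4 * a i ^ 3 + 27 * b i ^ 2 ≠ 0)
    (H : Fin k → Set (Fin 3 → K)) (r : Fin k → ℕ) (hg : ∀ i, Good (a i) (b i) (H i) (r i))
    (m : ℕ) (hr : ∀ i, m ≤ r i) {E1 E2 E3 : Type} [Fintype E1] [Fintype E2] [Fintype E3]
    (g : E1 → MvPolynomial (Option (Fin k) × Fin n) K) (hgh : ∀ i, ∃ γ, MH γ (g i))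
    (f2 : E2 → MvPolynomial (Option (Fin k) × Fin n) K) (δ2 : E2 → Option (Fin k) → ℕ)
    (hf2 : ∀ i, MH (δ2 i) (f2 i))
    (f3 : E3 → MvPolynomial (Option (Fin k) × Fin n) K) (δ3 : E3 → Option (Fin k) → ℕ)
    (hf3 : ∀ i, MH (δ3 i) (f3 i))
    (hc2 : ∀ (F : Type) [Field F] [Algebra K F] (t : Fin n → F) (u : Fin k → Fin 3 → F), t ≠ 0 →
      OnB a b u → (∀ i, ev (g i) (ful t u) = 0) → (∀ i, ev (f2 i) (ful t u) = 0) →
      Algebra.trdeg K (IntermediateField.adjoin K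
        (Set.range (fun p : Fin k × Fin 3 => u p.1 p.2))) + ((2 : ℕ) : Cardinal) ≤ (k : Cardinal))
    (hc3 : ∀ (F : Type) [Field F] [Algebra K F] (t : Fin n → F) (u : Fin k → Fin 3 → F), t ≠ 0 →
      OnB a b u → (∀ i, ev (g i) (ful t u) = 0) → (∀ i, ev (f3 i) (ful t u) = 0) →
      Algebra.trdeg K (IntermediateField.adjoin K
        (Set.range (fun p : Fin k × Fin 3 => u p.1 p.2))) + ((1 : ℕ) : Cardinal) ≤ (k : Cardinal))
    (S1 : Finset (InfinitePlace K)) (S2 : Finset (FinitePlace K)) (ε : ℝ) (hε : 0 < ε) :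
    ∃ C : ℝ, ∀ T, 1 ≤ T → (BadX g f2 δ2 f3 δ3 S1 S2 H ε T).Finite ∧
      ((BadX g f2 δ2 f3 δ3 S1 S2 H ε T).ncard : ℝ) ≤ C * T ^ ((∑ i, (r i : ℝ) - m) / 2) := by
  classical
  obtain ⟨C4, -, hC4⟩ := box_bd a b H r hg
  rcases Nat.eq_zero_or_pos m with hm | hm
  · subst hm
    have hsubX : ∀ T, BadX g f2 δ2 f3 δ3 S1 S2 H ε T ⊆ Box H T := fun T u hu => hu.1
    refine ⟨C4, fun T hT => ⟨(hC4 T hT).1.subset (hsubX T), ?_⟩⟩
    rw [Nat.cast_zero, sub_zero]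
    exact le_trans (by exact_mod_cast Set.ncard_le_ncard (hsubX T) (hC4 T hT).1)
      (hC4 T hT).2
  obtain ⟨s2, h2, η2, hη2, hcd2, N2, M2, A2, hM2, hl2⟩ := hR K k n hn a b E1 E2 g hgh f2 δ2 hf2 2 hc2
  obtain ⟨s3, h3, η3, hη3, hcd3, N3, M3, A3, hM3, hl3⟩ := hR K k n hn a b E1 E3 g hgh f3 δ3 hf3 1 hc3
  set w1 : AbsoluteValue K ℝ := ai (Classical.arbitrary (InfinitePlace K)) with hw1
  obtain ⟨ε2, hε2, ε3, hε3, T1, hsc⟩ := scale h2 η2 h3 η3 hn g f2 δ2 hf2 f3 δ3 hη2 a b hM2 hl2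
    hM3 hl3 S1 S2 H (fun i => (hg i).on) w1 ε hε
  have hA := thmA hT hZ hG hcomb m hm k a b hd H r hg hr (Fin s2) h2 η2 hη2 hcd2 ε2 hε2
  have hBw : ∀ w, IsPl w → _ := fun w hw =>
    thmB hT hZ w hw m hm k a b hd H r hg hr (Fin s3) h3 η3 hη3 hcd3 ε3 hε3
  have he : (0 : ℝ) < (∑ i, (r i : ℝ) - m) / 2 := by
    have h5 : ∀ i, (m : ℝ) ≤ r i := fun i => by exact_mod_cast hr i
    have h6 : (k : ℝ) * m ≤ ∑ i, (r i : ℝ) := by
      have := Finset.sum_le_sum (s := Finset.univ) (fun i _ => h5 i)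
      rwa [Finset.sum_const, Finset.card_univ, Fintype.card_fin, nsmul_eq_mul] at this
    have h7 : (2 : ℝ) ≤ k := by exact_mod_cast hk
    have h8 : (1 : ℝ) ≤ m := by exact_mod_cast hm
    nlinarith
  have hT11 : (1 : ℝ) ≤ max 1 (max T1 1) := le_max_left _ _
  refine dyadic (BadX g f2 δ2 f3 δ3 S1 S2 H ε) (Box H) (fun T => Bad2 η2 h2 H ε2 T ∪
          (Bad1 w1 η3 h3 H ε3 T ∪ ((⋃ v ∈ S1, Bad1 (ai v) η3 h3 H ε3 T) ∪
            ⋃ v ∈ S2, Bad1 (av v) η3 h3 H ε3 T))) _ he (max 1 (max T1 1)) (hC4 _ hT11).1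
    (add_bd hA (add_bd (hBw w1 (Or.inr ⟨_, rfl⟩)) (add_bd
      (bUnion_bd S1 (fun v => hBw (ai v) (Or.inr ⟨v, rfl⟩)))
      (bUnion_bd S2 (fun v => hBw (av v) (Or.inl ⟨v, rfl⟩)))))) (fun T hT u hu => ?_)
  -- the largest height
  have hkne : Nonempty (Fin k) := ⟨⟨0, by omega⟩⟩
  obtain ⟨i0, hi0⟩ := Finite.exists_max (fun i => Height.logHeight (u i))
  set h0 : ℝ := Height.logHeight (u i0) with hh0
  rcases le_or_gt h0 (max 1 (max T1 1)) with h1 | h1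
  · exact Or.inl (fun i => ⟨(hu.1 i).1, (hi0 i).trans h1⟩)
  · right
    have h11 : 1 ≤ h0 := hT11.trans h1.le
    obtain ⟨j, hj1, hj2⟩ := exists_nat_pow_near h11 (one_lt_two (α := ℝ))
    refine ⟨j, hj1.trans (hu.1 i0).2, ?_⟩
    have h4 : T1 ≤ 2 ^ (j + 1) :=
      ((le_max_left T1 1).trans (le_max_right 1 _)).trans (h1.le.trans hj2.le)
    refine hsc (2 ^ (j + 1)) T h4 (one_le_pow₀ one_le_two) u hu
      (fun i => ⟨(hu.1 i).1, (hi0 i).trans hj2.le⟩) ?_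
    have h5 : h0 ≤ ∑ i, Height.logHeight (u i) :=
      Finset.single_le_sum (f := fun i => Height.logHeight (u i))
        (fun i _ => logHeight_nonneg' _) (Finset.mem_univ i0)
    rw [pow_succ, mul_div_assoc, div_self two_ne_zero, mul_one]
    exact hj1.trans h5

end Pool.Agent.TH954.Y
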