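import Pool.Agent.TH954.Y.IndB
import Pool.Agent.TH954.X2.Inst

/-!
# The coordinate vectors of the points of a subgroup
-/

set_option autoImplicit false
set_option linter.unusedSectionVars false

open MvPolynomial Pool.Agent.TH954.X Pool.Agent.TH954.X.We Pool.Agent.TH954.V NumberField

namespace Pool.Agent.TH954.Y

lemma onC_coords {F : Type} [Field F] [CharZero F] (a b : F) (P : (curve a b).toAffine.Point) :
    OnC a b (coords P) :=
  ⟨coords_normed P, coords_eqn (F := F) a b P 0⟩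

lemma coords_zero_ne {F : Type} [Field F] {W : WeierstrassCurve F} {P : W.toAffine.Point}
    (h : P ≠ 0) : coords P 0 ≠ 0 := by
  rcases P with _ | ⟨x, y, hP⟩
  · exact absurd rfl h
  · simp [coords]

variable {K : Type} [Field K] [NumberField K] [DecidableEq K]

lemma infinite_of_rank {a b : K} (Γ : AddSubgroup (curve a b).toAffine.Point)
    (h : Module.finrank ℤ Γ ≠ 0) : Infinite {P : Γ // P ≠ 0} := by
  obtain ⟨s, hs, hli⟩ := exists_finset_linearIndependent_of_le_finrank
    (R := ℤ) (M := Γ) (n := 1) (Nat.one_le_iff_ne_zero.mpr h)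
  obtain ⟨x, hx⟩ := Finset.card_eq_one.mp hs
  subst hx
  have hx : x ∈ ({x} : Finset Γ) := Finset.mem_singleton_self x
  have hinj : Function.Injective (fun n : ℤ => n • x) := by
    intro n n' hn
    have h1 : (n - n') • x = 0 := by
      rw [sub_smul]
      exact sub_eq_zero.mpr hn
    have h2 := (linearIndependent_iff'.mp hli) Finset.univ (fun _ => n - n') (by
      rw [Finset.sum_eq_single (⟨x, hx⟩ : ({x} : Finset Γ))]
      · exact h1
      · rintro ⟨y, hy⟩ _ hne
        exact absurd (Subtype.ext (Finset.mem_singleton.mp hy)) hne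
      · exact fun h => absurd (Finset.mem_univ _) h) ⟨x, hx⟩ (Finset.mem_univ _)
    exact sub_eq_zero.mp h2
  have hx0 : x ≠ 0 := by
    rintro rfl
    have := hinj (show (fun n : ℤ => n • (0 : Γ)) 0 = (fun n : ℤ => n • (0 : Γ)) 1 by simp)
    exact zero_ne_one this
  have h3 : Function.Injective (fun n : ℕ => (⟨((n : ℤ) + 1) • x, fun h0 => by
      have := hinj (show (fun n : ℤ => n • x) ((n : ℤ) + 1) = (fun n : ℤ => n • x) 0 by simpa using h0)
      omega⟩ : {P : Γ // P ≠ 0})) := by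
    intro n n' hn
    have := hinj (congrArg Subtype.val hn)
    omega
  exact Infinite.of_injective _ h3

/-- the coordinate vectors of the points of a subgroup of an elliptic curve have the properties used -/
theorem good_pt (hO : T_om) (hP : T_pack) (a b : K) (hd : 4 * a ^ 3 + 27 * b ^ 2 ≠ 0)
    (Γ : AddSubgroup (curve a b).toAffine.Point) :
    Good a b {v | ∃ P ∈ Γ, coords P = v} (Module.finrank ℤ Γ) := by
  classical
  obtain ⟨⟨C1, hC1⟩, C2, hC2⟩ := hP K a b hd Γ
  obtain ⟨Ω, hΩ, hΩ0, C3, hC3⟩ := hO K a b hd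
  refine ⟨?_, ⟨C1, fun T hT => ?_⟩, ⟨Fin 3 × Fin 2, inferInstance, Ω, hΩ, hΩ0, C2 + C3,
    fun ρ hρ => ?_⟩, fun hr L => ?_⟩
  · rintro _ ⟨P, -, rfl⟩
    exact onC_coords a b P
  · have h1 : {v | v ∈ {v | ∃ P ∈ Γ, coords P = v} ∧ Height.logHeight v ≤ T} =
        coords '' {P | P ∈ Γ ∧ Height.logHeight (coords P) ≤ T} := by
      ext v
      constructor
      · rintro ⟨⟨P, hP, rfl⟩, h⟩
        exact ⟨P, ⟨hP, h⟩, rfl⟩
      · rintro ⟨P, ⟨hP, h⟩, rfl⟩
        exact ⟨⟨P, hP, rfl⟩, h⟩
    rw [h1]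
    refine ⟨(hC1 T hT).1.image _, ?_⟩
    rw [Set.ncard_image_of_injective _ coords_inj]
    exact (hC1 T hT).2
  · obtain ⟨N, hN⟩ := hC2 ρ hρ
    refine ⟨N, fun T hT => ?_⟩
    obtain ⟨col, hcol⟩ := hN T hT
    refine ⟨fun v => col (Function.invFun coords v), ?_⟩
    rintro _ ⟨P, hP, rfl⟩ _ ⟨Q, hQ, rfl⟩ hPT hQT hc hne
    have hinv := Function.leftInverse_invFun (coords_inj (W := curve a b))
    simp only [hinv P, hinv Q] at hc
    have h1 := hcol P hP Q hQ hPT hQT hc
    obtain ⟨h2, h3, h4⟩ := hC3 P Q (fun h => hne (by rw [h]))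
    refine ⟨h2, h3, h4.trans ?_⟩
    linarith
  · have hinf := infinite_of_rank Γ hr
    obtain e := Infinite.natEmbedding {P : Γ // P ≠ 0}
    refine ⟨fun l => coords (e l.1).1.1, ?_, fun l => ⟨onC_coords a b _, ?_⟩⟩
    · intro l l' hl
      have h1 := coords_inj hl
      exact Fin.ext (e.injective (Subtype.ext (Subtype.ext h1)))
    · refine coords_zero_ne ?_
      intro h0
      exact (e l.1).2 (Subtype.ext h0)

end Pool.Agent.TH954.Y
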