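import Pool.Agent.TH954.Y.Fin2
import Pool.Agent.TH954.Y.GoodPt
import Pool.Agent.TH954.Y.Defs2

/-!
# Almost all points: the points of subgroups
-/

set_option autoImplicit false
set_option linter.unusedSectionVars false

open MvPolynomial Pool.Agent.TH954.X Pool.Agent.TH954.X.We Pool.Agent.TH954.V NumberField

namespace Pool.Agent.TH954.Y

lemma ncard_pi' {ι : Type} [Fintype ι] {α : ι → Type} (A : ∀ i, Set (α i)) :
    {P : ∀ i, α i | ∀ i, P i ∈ A i}.ncard = ∏ i, (A i).ncard := by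
  classical
  have h1 : Nat.card {P : ∀ i, α i // ∀ i, P i ∈ A i} = Nat.card (∀ i, {x // x ∈ A i}) :=
    Nat.card_congr (Equiv.subtypePiEquivPi (p := fun i x => x ∈ A i))
  rw [Nat.card_pi] at h1
  exact h1

variable {K : Type} [Field K] [NumberField K] [DecidableEq K]

/-- the points of the product of the subgroups of height at most `T` -/
def PBox {k : ℕ} {a b : Fin k → K} (Γ : ∀ i, AddSubgroup (curve (a i) (b i)).toAffine.Point)
    (T : ℝ) : Set (∀ i, (curve (a i) (b i)).toAffine.Point) :=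
  {P | ∀ i, P i ∈ Γ i ∧ Height.logHeight (coords (P i)) ≤ T}

/-- **Almost all points.** -/
theorem fin3 (hT : T_tuple) (hZ : T_zdim) (hG : T_gform) (hcomb : T_comb) (hR : T_red)
    (hO : T_om) (hP : T_pack) (hL : T_low)
    {k n : ℕ} (hk : 2 ≤ k) (hn : 3 ≤ n) (a b : Fin k → K)
    (hd : ∀ i, 4 * a i ^ 3 + 27 * b i ^ 2 ≠ 0)
    (Γ : ∀ i, AddSubgroup (curve (a i) (b i)).toAffine.Point)
    (m : ℕ) (hr : ∀ i, m ≤ Module.finrank ℤ (Γ i))
    {E1 E2 E3 : Type} [Fintype E1] [Fintype E2] [Fintype E3]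
    (g : E1 → MvPolynomial (Option (Fin k) × Fin n) K) (hgh : ∀ i, ∃ γ, MH γ (g i))
    (f2 : E2 → MvPolynomial (Option (Fin k) × Fin n) K) (δ2 : E2 → Option (Fin k) → ℕ)
    (hf2 : ∀ i, MH (δ2 i) (f2 i))
    (f3 : E3 → MvPolynomial (Option (Fin k) × Fin n) K) (δ3 : E3 → Option (Fin k) → ℕ)
    (hf3 : ∀ i, MH (δ3 i) (f3 i))
    (hc2 : ∀ (F : Type) [Field F] [Algebra K F] (t : Fin n → F) (u : Fin k → Fin 3 → F), t ≠ 0 →
      OnB a b u → (∀ i, ev (g i) (ful t u) = 0) → (∀ i, ev (f2 i) (ful t u) = 0) →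
      Algebra.trdeg K (IntermediateField.adjoin K
        (Set.range (fun p : Fin k × Fin 3 => u p.1 p.2))) + ((2 : ℕ) : Cardinal) ≤ (k : Cardinal))
    (hc3 : ∀ (F : Type) [Field F] [Algebra K F] (t : Fin n → F) (u : Fin k → Fin 3 → F), t ≠ 0 →
      OnB a b u → (∀ i, ev (g i) (ful t u) = 0) → (∀ i, ev (f3 i) (ful t u) = 0) →
      Algebra.trdeg K (IntermediateField.adjoin K
        (Set.range (fun p : Fin k × Fin 3 => u p.1 p.2))) + ((1 : ℕ) : Cardinal) ≤ (k : Cardinal))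
    (S1 : Finset (InfinitePlace K)) (S2 : Finset (FinitePlace K)) (ε : ℝ) (hε : 0 < ε) :
    ∃ C : ℝ, 0 < C ∧ ∀ T, 1 ≤ T → (PBox Γ T).Finite ∧
      C⁻¹ * T ^ ((∑ i, (Module.finrank ℤ (Γ i) : ℝ)) / 2) ≤ ((PBox Γ T).ncard : ℝ) ∧
      ((PBox Γ T).ncard : ℝ) ≤ C * T ^ ((∑ i, (Module.finrank ℤ (Γ i) : ℝ)) / 2) ∧
      ({P | P ∈ PBox Γ T ∧ ∃ t : Fin n → K, t ≠ 0 ∧
        (∀ i, ev (g i) (ful t (fun j => coords (P j))) = 0) ∧
        ((∀ i, ev (f2 i) (ful t (fun j => coords (P j))) = 0) ∨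
          (∀ i, ev (f3 i) (ful t (fun j => coords (P j))) = 0) ∨
          ε * ∑ i, Height.logHeight (coords (P i)) <
            tot (lamx δ2 f2 (ful t (fun j => coords (P j)))) +
              prox δ3 f3 S1 S2 (ful t (fun j => coords (P j))))}.ncard : ℝ) ≤
        C * T ^ ((∑ i, (Module.finrank ℤ (Γ i) : ℝ) - m) / 2) := by
  classical
  have hg : ∀ i, Good (a i) (b i) {v | ∃ P ∈ Γ i, coords P = v} (Module.finrank ℤ (Γ i)) :=
    fun i => good_pt hO hP (a i) (b i) (hd i) (Γ i)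
  obtain ⟨C1, hC1⟩ := fin hT hZ hG hcomb hR hk hn a b hd _ _ hg m hr g hgh f2 δ2 hf2 f3 δ3 hf3
    hc2 hc3 S1 S2 ε hε
  obtain ⟨C2, hC20, hC2⟩ := box_bd a b _ _ hg
  choose c hc0 hc using fun i => hL K (a i) (b i) (hd i) (Γ i)
  set φ : (∀ i, (curve (a i) (b i)).toAffine.Point) → (Fin k → Fin 3 → K) :=
    fun P i => coords (P i) with hφ
  have hφi : Function.Injective φ := by
    intro P Q h
    funext i
    exact coords_inj (congrFun h i)
  have hsub : ∀ T, φ '' (PBox Γ T) ⊆ Box (fun i => {v | ∃ P ∈ Γ i, coords P = v}) T := by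
    rintro T _ ⟨P, hP, rfl⟩ i
    exact ⟨⟨P i, (hP i).1, rfl⟩, (hP i).2⟩
  have hcp : 0 < ∏ i, c i := Finset.prod_pos (fun i _ => hc0 i)
  refine ⟨max (max |C1| C2) (∏ i, c i)⁻¹, lt_of_lt_of_le (inv_pos.mpr hcp) (le_max_right _ _),
    fun T hT1 => ?_⟩
  have hT0 : 0 < T := one_pos.trans_le hT1
  have hfin : (PBox Γ T).Finite :=
    Set.Finite.of_finite_image ((hC2 T hT1).1.subset (hsub T)) hφi.injOn
  refine ⟨hfin, ?_, ?_, ?_⟩
  · have h1 : (PBox Γ T).ncard =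
        ∏ i, {P | P ∈ Γ i ∧ Height.logHeight (coords P) ≤ T}.ncard :=
      ncard_pi' (fun i => {P | P ∈ Γ i ∧ Height.logHeight (coords P) ≤ T})
    have h2 : (∏ i, c i) * T ^ ((∑ i, (Module.finrank ℤ (Γ i) : ℝ)) / 2) ≤
        ((PBox Γ T).ncard : ℝ) := by
      rw [h1, Finset.sum_div, Real.rpow_sum_of_pos hT0, ← Finset.prod_mul_distrib]
      push_cast
      exact Finset.prod_le_prod (fun i _ => mul_nonneg (hc0 i).le (Real.rpow_nonneg hT0.le _))
        (fun i _ => hc i T hT1)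
    refine le_trans (mul_le_mul_of_nonneg_right ?_ (Real.rpow_nonneg hT0.le _)) h2
    exact inv_le_of_inv_le₀ hcp (le_max_right _ _)
  · have h1 : ((PBox Γ T).ncard : ℝ) ≤
        ((Box (fun i => {v | ∃ P ∈ Γ i, coords P = v}) T).ncard : ℝ) := by
      rw [← Set.ncard_image_of_injective _ hφi]
      exact_mod_cast Set.ncard_le_ncard (hsub T) (hC2 T hT1).1
    refine h1.trans ((hC2 T hT1).2.trans (mul_le_mul_of_nonneg_right ?_
      (Real.rpow_nonneg hT0.le _)))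
    exact (le_max_right _ _).trans (le_max_left _ _)
  · refine le_trans (b := ((BadX g f2 δ2 f3 δ3 S1 S2
      (fun i => {v | ∃ P ∈ Γ i, coords P = v}) ε T).ncard : ℝ)) ?_
      ((hC1 T hT1).2.trans (mul_le_mul_of_nonneg_right ?_ (Real.rpow_nonneg hT0.le _)))
    · rw [← Set.ncard_image_of_injective _ hφi]
      have hsub2 : φ '' {P | P ∈ PBox Γ T ∧ ∃ t : Fin n → K, t ≠ 0 ∧
        (∀ i, ev (g i) (ful t (fun j => coords (P j))) = 0) ∧
        ((∀ i, ev (f2 i) (ful t (fun j => coords (P j))) = 0) ∨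
          (∀ i, ev (f3 i) (ful t (fun j => coords (P j))) = 0) ∨
          ε * ∑ i, Height.logHeight (coords (P i)) <
            tot (lamx δ2 f2 (ful t (fun j => coords (P j)))) +
              prox δ3 f3 S1 S2 (ful t (fun j => coords (P j))))} ⊆
          BadX g f2 δ2 f3 δ3 S1 S2 (fun i => {v | ∃ P ∈ Γ i, coords P = v}) ε T := by
        rintro _ ⟨P, ⟨hP, t, ht⟩, rfl⟩
        exact ⟨hsub T ⟨P, hP, rfl⟩, t, ht⟩
      exact_mod_cast Set.ncard_le_ncard hsub2 (hC1 T hT1).1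
    · exact (le_abs_self C1).trans ((le_max_left _ _).trans (le_max_left _ _))

end Pool.Agent.TH954.Y
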