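import Pool.Agent.TH954.Y.IndB

/-!
# Induction on the number of curves: all places
-/

set_option autoImplicit false
set_option linter.unusedSectionVars false

open MvPolynomial Pool.Agent.TH954.X Pool.Agent.TH954.X.We Pool.Agent.TH954.V NumberField

namespace Pool.Agent.TH954.Y

variable {K : Type} [Field K] [NumberField K]

/-- points on or near `f = 0` with respect to all absolute values -/
def Bad2 {k : ℕ} {E : Type} (δ : E → Fin k → ℕ)
    (f : E → MvPolynomial (Fin k × Fin 3) K) (H : Fin k → Set (Fin 3 → K)) (ε T : ℝ) :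
    Set (Fin k → Fin 3 → K) :=
  {u | u ∈ Box H T ∧ ((∀ i, ev (f i) u = 0) ∨ ε * T < tot (lam0 δ f u))}

/-- the fibre estimate for all places -/
lemma fibre2 (hT : T_tuple) (hcomb : T_comb) {k : ℕ} (a b : Fin (k + 1) → K)
    (hd : ∀ i, 4 * a i ^ 3 + 27 * b i ^ 2 ≠ 0) (H : Fin (k + 1) → Set (Fin 3 → K))
    (r : Fin (k + 1) → ℕ) (hg : ∀ i, Good (a i) (b i) (H i) (r i))
    {E : Type} [Fintype E] (f : E → MvPolynomial (Fin (k + 1) × Fin 3) K)
    (δ : E → Fin (k + 1) → ℕ) (hf : ∀ i, MH (δ i) (f i))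
    (L : ℕ) (S : Fin L → Fin 3 → K)
    (hS : ∀ l, OnC (a (Fin.last k)) (b (Fin.last k)) (S l) ∧ S l 0 ≠ 0)
    (g : MvPolynomial (Fin k × Fin 3) K) (τ : Fin k → ℕ) (hgτ : MH τ g)
    (N1 M1 : ℕ) (A1 : Finset K) (hM1 : 1 ≤ M1)
    (hgl : ∀ (w : AbsoluteValue K ℝ) (u : Fin k → Fin 3 → K) (v : Fin 3 → K),
      OnB (fun i => a (Fin.castSucc i)) (fun i => b (Fin.castSucc i)) u →
      OnC (a (Fin.last k)) (b (Fin.last k)) v →
      nvW w τ g u ^ N1 ≤ kap A1 M1 1 w * ⨆ i, nvW w (δ i) (f i) (snoc u v))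
    (ε : ℝ) (hε : 0 < ε) :
    ∃ ε' : ℝ, 0 < ε' ∧ ∃ (n0 : ℕ) (T0 : ℝ), ∀ T, 1 ≤ T → T0 < T →
      ∀ u ∈ Box (fun i => H (Fin.castSucc i)) T, ev g u ≠ 0 →
        u ∉ Bad2 (fun (p : Fin L × E) i => δ p.2 (Fin.castSucc i))
          (fun p => sec (S p.1) (f p.2)) (fun i => H (Fin.castSucc i)) ε' T →
        {v | v ∈ {v | v ∈ H (Fin.last k) ∧ Height.logHeight v ≤ T} ∧
          snoc u v ∈ Bad2 δ f H ε T}.ncard ≤ n0 := by
  classical
  set D : ℕ := ∑ i, δ i (Fin.last k) with hD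
  have hdD : ∀ i, 6 * δ i (Fin.last k) + 1 < (6 * D + 1) + 1 := by
    intro i
    have : δ i (Fin.last k) ≤ D :=
      Finset.single_le_sum (f := fun i => δ i (Fin.last k)) (fun _ _ => Nat.zero_le _)
        (Finset.mem_univ i)
    omega
  obtain ⟨d, hdef⟩ : ∃ d : ℕ, d = 6 * D + 1 := ⟨_, rfl⟩
  rw [← hdef] at hdD
  obtain ⟨Ξ, hΞ, Ω, hΩ, hΩ0, C, hsep⟩ := (hg (Fin.last k)).sep
  obtain ⟨N, M, A, hM, hloc⟩ := hT K k a b hd E f δ hf L S hS d hdD Ξ Ω hΩ hΩ0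
  obtain ⟨Ag, Mg, hMg, hAg⟩ := nvW_le_kap g τ hgτ
  obtain ⟨ck, hck0, hck⟩ := tot_kap A hM 1
  obtain ⟨ck1, hck10, hck1⟩ := tot_kap A1 hM1 1
  obtain ⟨ckg, hckg0, hckg⟩ := tot_kap Ag hMg 1
  set dK : ℝ := (Module.finrank ℚ K : ℝ) with hdK
  obtain ⟨np, hnp⟩ : ∃ np : ℕ, np = (Finset.univ.filter
    (fun p : Fin (d + 1) × Fin (d + 1) => p.1 < p.2)).card := ⟨_, rfl⟩
  -- `tot G ≤ C1 * T + C2`
  set C1 : ℝ := N1 * ∑ j, (τ j : ℝ) with hC1
  have hC10 : 0 ≤ C1 := mul_nonneg (Nat.cast_nonneg _)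
    (Finset.sum_nonneg (fun _ _ => Nat.cast_nonneg _))
  set C2 : ℝ := N1 * (ckg * dK) + ck1 * dK with hC2
  obtain ⟨M', hM'⟩ := exists_nat_gt ((d * C1 + 1) / ε)
  rw [div_lt_iff₀ hε] at hM'
  obtain ⟨ne, hne⟩ : ∃ ne : ℕ, ne = Fintype.card (Fin (d + 1) ↪ Fin (M' + 1)) := ⟨_, rfl⟩
  set ρ : ℝ := 1 / (4 * (ne + 1) * (N + 1) * (np + 1)) with hρ
  have hρ0 : 0 < ρ := by positivity
  set ε' : ℝ := 1 / (4 * (ne + 1) * (N + 1)) with hε'
  have hε'0 : 0 < ε' := by positivity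
  obtain ⟨Nc, hcol⟩ := hsep ρ hρ0
  refine ⟨ε', hε'0, M' * Nc, 2 * (d * C2 + ne * (N * np * |C| + ck * dK)),
    fun T hT1 hT0 u hu hgu hub => ?_⟩
  obtain ⟨col, hcol⟩ := hcol T hT1
  set X : Set (Fin 3 → K) := {v | v ∈ {v | v ∈ H (Fin.last k) ∧ Height.logHeight v ≤ T} ∧
          snoc u v ∈ Bad2 δ f H ε T} with hX
  obtain ⟨Cc, hCc⟩ := (hg (Fin.last k)).cnt
  have hXfin : X.Finite := (hCc T hT1).1.subset (fun v hv => hv.1)
  refine pigeon X hXfin Nc M' col ?_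
  rintro ⟨Q, hQi, hQX, hQc⟩
  have hOB : OnB (fun i => a (Fin.castSucc i)) (fun i => b (Fin.castSucc i)) u :=
    fun i => (hg (Fin.castSucc i)).on _ (hu i).1
  have hu0 : ∀ i, u i ≠ 0 := fun i => hOB.ne_zero i
  have hQH : ∀ j, Q j ∈ H (Fin.last k) ∧ Height.logHeight (Q j) ≤ T := fun j => (hQX j).1
  have hQon : ∀ j, OnC (a (Fin.last k)) (b (Fin.last k)) (Q j) :=
    fun j => (hg (Fin.last k)).on _ (hQH j).1
  have hsn0 : ∀ j i, snoc u (Q j) i ≠ 0 := by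
    intro j i
    refine Fin.lastCases ?_ (fun i => ?_) i
    · simpa [snoc] using (hQon j).1.ne_zero
    · simpa [snoc] using hu0 i
  -- the base point
  have hT00 : 0 < T := one_pos.trans_le hT1
  have hbase : (∃ p : Fin L × E, ev (sec (S p.1) (f p.2)) u ≠ 0) ∧
      tot (lam0 (fun (p : Fin L × E) i => δ p.2 (Fin.castSucc i))
          (fun p => sec (S p.1) (f p.2)) u) ≤ ε' * T := by
    constructor
    · by_contra hcon
      push Not at hcon
      exact hub ⟨hu, Or.inl hcon⟩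
    · by_contra hcon
      push Not at hcon
      exact hub ⟨hu, Or.inr hcon⟩
  obtain ⟨hZ0, hZT⟩ := hbase
  set y : AbsoluteValue K ℝ → ℝ := lam0 (fun (p : Fin L × E) i => δ p.2 (Fin.castSucc i))
          (fun p => sec (S p.1) (f p.2)) u with hy
  have hyMH : ∀ p : Fin L × E, MH (fun i => δ p.2 (Fin.castSucc i)) (sec (S p.1) (f p.2)) :=
    fun p => MH_sec (S p.1) (hf p.2)
  have hyF : FS y := FS_lam0 (fun (p : Fin L × E) i => δ p.2 (Fin.castSucc i))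
    (fun p => sec (S p.1) (f p.2)) hyMH hu0 hZ0
  have hy0 : ∀ w, 0 ≤ y w := fun w => lam0_nonneg _ _ _ w
  -- the values of `f`
  have hUpos : ∀ w j, 0 < ⨆ i, nvW w (δ i) (f i) (snoc u (Q j)) := by
    intro w j
    have h1 := hgl w u (Q j) hOB (hQon j)
    have h2 : 0 < nvW w τ g u ^ N1 := pow_pos (nvW_pos w τ g hu0 hgu) _
    have h3 : 0 < kap A1 M1 1 w := zero_lt_one.trans_le (one_le_kap A1 hM1 1 w)
    by_contra hcon
    have h4 := mul_nonpos_of_nonneg_of_nonpos h3.le (not_lt.mp hcon)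
    linarith
  have hE : Nonempty E := by
    obtain ⟨p, -⟩ := hZ0
    exact ⟨p.2⟩
  have w1 : AbsoluteValue K ℝ := ai (Classical.arbitrary (InfinitePlace K))
  have hfne : ∀ j, ∃ i, ev (f i) (snoc u (Q j)) ≠ 0 := fun j =>
    exists_of_sup_pos w1 δ f (hUpos w1 j)
  set x : Fin (M' + 1) → AbsoluteValue K ℝ → ℝ := fun j => lam0 δ f (snoc u (Q j)) with hx
  have hxF : ∀ j, FS (x j) := fun j => FS_lam0 δ f hf (hsn0 j) (hfne j)
  have hx0 : ∀ j w, 0 ≤ x j w := fun j w => lam0_nonneg _ _ _ w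
  have hxT : ∀ j, ε * T < tot (x j) := by
    intro j
    rcases (hQX j).2.2 with h | h
    · obtain ⟨i, hi⟩ := hfne j
      exact absurd (h i) hi
    · exact h
  -- the function `G`
  set G : AbsoluteValue K ℝ → ℝ := fun w =>
    (N1 : ℝ) * ((-1 : ℝ) * Real.log (nvW w τ g u) + Real.log (kap Ag Mg 1 w)) +
      Real.log (kap A1 M1 1 w) with hG
  have hg1 := FS_lognv τ g hu0 hgu
  have hGF1 : FS (fun w => (-1 : ℝ) * Real.log (nvW w τ g u) + Real.log (kap Ag Mg 1 w)) :=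
    FS_add (FS_mul hg1 _) (hckg K).1
  have hGF : FS G := FS_add (FS_mul hGF1 _) (hck1 K).1
  have hGT : tot G ≤ C1 * T + C2 := by
    rw [hG, tot_add (FS_mul hGF1 _) (hck1 K).1, tot_mul hGF1,
      tot_add (FS_mul hg1 _) (hckg K).1, tot_mul hg1, tot_lognv τ g hu0 hgu]
    have h1 := (hck1 K).2
    have h2 := (hckg K).2
    have h3 : ∑ j, (τ j : ℝ) * Height.logHeight (u j) ≤ (∑ j, (τ j : ℝ)) * T := by
      rw [Finset.sum_mul]
      exact Finset.sum_le_sum (fun j _ => mul_le_mul_of_nonneg_left (hu j).2 (Nat.cast_nonneg _))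
    have h4 : (N1 : ℝ) * (-1 * -∑ j, (τ j : ℝ) * Height.logHeight (u j) +
        tot (fun w : AbsoluteValue K ℝ => Real.log (kap Ag Mg 1 w))) ≤
        N1 * ((∑ j, (τ j : ℝ)) * T + ckg * dK) := by
      refine mul_le_mul_of_nonneg_left ?_ (Nat.cast_nonneg _)
      linarith
    have h5 : (N1 : ℝ) * ((∑ j, (τ j : ℝ)) * T + ckg * dK) = C1 * T + N1 * (ckg * dK) := by
      rw [hC1]
      ring
    rw [hC2]
    linarith
  have hG0 : ∀ w, 0 ≤ G w := by
    intro w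
    have h1 : Real.log (nvW w τ g u) ≤ Real.log (kap Ag Mg 1 w) :=
      Real.log_le_log (nvW_pos w τ g hu0 hgu) (hAg w u hu0)
    have h2 : 0 ≤ Real.log (kap A1 M1 1 w) := Real.log_nonneg (one_le_kap A1 hM1 1 w)
    have h3 : 0 ≤ (N1 : ℝ) * ((-1 : ℝ) * Real.log (nvW w τ g u) + Real.log (kap Ag Mg 1 w)) :=
      mul_nonneg (Nat.cast_nonneg _) (by linarith)
    change 0 ≤ (N1 : ℝ) * ((-1 : ℝ) * Real.log (nvW w τ g u) + Real.log (kap Ag Mg 1 w)) +
      Real.log (kap A1 M1 1 w)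
    linarith
  have hxG : ∀ j w, x j w ≤ G w := by
    intro j w
    refine max_le (hG0 w) ?_
    have h1 := Real.log_le_log (pow_pos (nvW_pos w τ g hu0 hgu) _) (hgl w u (Q j) hOB (hQon j))
    rw [Real.log_pow, Real.log_mul (zero_lt_one.trans_le (one_le_kap A1 hM1 1 w)).ne'
      (hUpos w j).ne'] at h1
    have h2 : 0 ≤ (N1 : ℝ) * Real.log (kap Ag Mg 1 w) :=
      mul_nonneg (Nat.cast_nonneg _) (Real.log_nonneg (one_le_kap Ag hMg 1 w))
    change _ ≤ (N1 : ℝ) * ((-1 : ℝ) * Real.log (nvW w τ g u) + Real.log (kap Ag Mg 1 w)) +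
      Real.log (kap A1 M1 1 w)
    linarith
  -- the pairs
  set z : Fin (M' + 1) → Fin (M' + 1) → AbsoluteValue K ℝ → ℝ := fun p q =>
    lam0 (fun _ : Ξ => fun _ : Fin 2 => 2) Ω ![Q p, Q q] with hz
  have hQQ : ∀ p q (j : Fin 2), (![Q p, Q q] : Fin 2 → Fin 3 → K) j ≠ 0 := by
    intro p q j
    refine Fin.cases ?_ (fun j => ?_) j
    · exact (hQon p).1.ne_zero
    · fin_cases j
      exact (hQon q).1.ne_zero
  have hzp : ∀ p q, p ≠ q → (∃ s, ev (Ω s) ![Q p, Q q] ≠ 0) ∧ FS (z p q) ∧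
      tot (z p q) ≤ ρ * T + |C| := by
    intro p q hpq
    obtain ⟨h4, h5, h6⟩ := hcol (Q p) (hQH _).1 (Q q) (hQH _).1 (hQH _).2 (hQH _).2
      (hQc _ _) (fun h => hpq (hQi h))
    exact ⟨h4, h5, h6.trans (by linarith [le_abs_self C])⟩
  have hz0 : ∀ p q w, 0 ≤ z p q w := fun p q w => lam0_nonneg _ _ _ w
  set P2 : Finset (Fin (d + 1) × Fin (d + 1)) :=
    Finset.univ.filter (fun p : Fin (d + 1) × Fin (d + 1) => p.1 < p.2) with hP2
  -- the tuples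
  have htup : ∀ (e : Fin (d + 1) ↪ Fin (M' + 1)) (w : AbsoluteValue K ℝ),
      (⨅ i, x (e i) w) ≤ (N : ℝ) * y w + ((N : ℝ) * ∑ p ∈ P2, z (e p.1) (e p.2) w) +
        Real.log (kap A M 1 w) := by
    intro e w
    have hk1 : 1 ≤ kap A M 1 w := one_le_kap A hM 1 w
    have h1 := hloc w u (fun j => Q (e j)) hOB (fun j => hQon (e j))
    have hne2 : Nonempty (Fin (d + 1) × E) := ⟨(0, hE.some)⟩
    obtain ⟨p0, hp0⟩ := Finite.exists_max
      (fun p : Fin (d + 1) × E => nvW w (δ p.2) (f p.2) (snoc u (Q (e p.1))))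
    set R : ℝ := ⨆ i, nvW w (δ i) (f i) (snoc u (Q (e p0.1))) with hR
    have h2 : (⨆ p : Fin (d + 1) × E, nvW w (δ p.2) (f p.2) (snoc u (Q (e p.1)))) ≤ R := by
      refine ciSup_le (fun p => (hp0 p).trans ?_)
      exact le_ciSup (f := fun i => nvW w (δ i) (f i) (snoc u (Q (e p0.1))))
        (Set.finite_range _).bddAbove p0.2
    have hR0 : 0 < R := hUpos w (e p0.1)
    have h3 := h1.trans (mul_le_mul_of_nonneg_left h2 (zero_le_one.trans hk1))
    have hV0 : 0 < ⨆ p : Fin L × E, nvW w (fun i => δ p.2 (Fin.castSucc i))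
        (sec (S p.1) (f p.2)) u :=
      sup_nvW_pos w (fun (p : Fin L × E) i => δ p.2 (Fin.castSucc i))
        (fun p => sec (S p.1) (f p.2)) hu0 hZ0
    have hW0 : ∀ p ∈ P2, 0 < ⨆ s, nvW w (fun _ => 2) (Ω s) ![Q (e p.1), Q (e p.2)] := by
      intro p hp
      have hne3 : e p.1 ≠ e p.2 := fun h => (Finset.mem_filter.mp hp).2.ne (e.injective h)
      exact sup_nvW_pos w (fun _ => fun _ => 2) Ω (hQQ _ _) (hzp _ _ hne3).1
    have h4 := Real.log_le_log (mul_pos (pow_pos hV0 _)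
      (pow_pos (Finset.prod_pos hW0) _)) h3
    rw [Real.log_mul (pow_pos hV0 _).ne' (pow_pos (Finset.prod_pos hW0) _).ne', Real.log_pow,
      Real.log_pow, Real.log_prod (fun p hp => (hW0 p hp).ne'),
      Real.log_mul (zero_lt_one.trans_le hk1).ne' hR0.ne'] at h4
    have h5 : -Real.log (⨆ p : Fin L × E, nvW w (fun i => δ p.2 (Fin.castSucc i))
        (sec (S p.1) (f p.2)) u) ≤ y w := le_max_right _ _
    have h6 : -(∑ p ∈ P2, Real.log (⨆ s, nvW w (fun _ => 2) (Ω s) ![Q (e p.1), Q (e p.2)])) ≤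
        ∑ p ∈ P2, z (e p.1) (e p.2) w := by
      rw [← Finset.sum_neg_distrib]
      exact Finset.sum_le_sum (fun p _ => le_max_right _ _)
    have h7 : (N : ℝ) * -Real.log (⨆ p : Fin L × E, nvW w (fun i => δ p.2 (Fin.castSucc i))
        (sec (S p.1) (f p.2)) u) ≤ N * y w := mul_le_mul_of_nonneg_left h5 (Nat.cast_nonneg _)
    have h8 := mul_le_mul_of_nonneg_left h6 (Nat.cast_nonneg (α := ℝ) N)
    have h9 : 0 ≤ (N : ℝ) * y w + ((N : ℝ) * ∑ p ∈ P2, z (e p.1) (e p.2) w) +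
        Real.log (kap A M 1 w) := by
      have := Real.log_nonneg hk1
      have h10 : 0 ≤ (N : ℝ) * y w := mul_nonneg (Nat.cast_nonneg _) (hy0 w)
      have h11 : 0 ≤ (N : ℝ) * ∑ p ∈ P2, z (e p.1) (e p.2) w :=
        mul_nonneg (Nat.cast_nonneg _) (Finset.sum_nonneg (fun p _ => hz0 _ _ _))
      linarith
    refine (ciInf_le (f := fun i => x (e i) w) (Set.finite_range _).bddBelow p0.1).trans ?_
    refine max_le h9 ?_
    change -Real.log R ≤ _
    linarith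
  -- summation
  have hFe : ∀ e : Fin (d + 1) ↪ Fin (M' + 1), FS (fun w =>
      (N : ℝ) * y w + ((N : ℝ) * ∑ p ∈ P2, z (e p.1) (e p.2) w) +
        Real.log (kap A M 1 w)) ∧ tot (fun w =>
      (N : ℝ) * y w + ((N : ℝ) * ∑ p ∈ P2, z (e p.1) (e p.2) w) +
        Real.log (kap A M 1 w)) ≤ N * (ε' * T) + N * (np * (ρ * T + |C|)) + ck * dK := by
    intro e
    have hzF : ∀ p ∈ P2, FS (z (e p.1) (e p.2)) := fun p hp =>
      (hzp _ _ (fun h => (Finset.mem_filter.mp hp).2.ne (e.injective h))).2.1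
    have hzF' : FS (fun w => ∑ p ∈ P2, z (e p.1) (e p.2) w) := FS_sum _ hzF
    have hF1 : FS (fun w => (N : ℝ) * y w + ((N : ℝ) * ∑ p ∈ P2, z (e p.1) (e p.2) w)) :=
      FS_add (FS_mul hyF _) (FS_mul hzF' _)
    refine ⟨FS_add hF1 (hck K).1, ?_⟩
    rw [tot_add hF1 (hck K).1, tot_add (FS_mul hyF _) (FS_mul hzF' _), tot_mul hyF,
      tot_mul hzF', tot_sum _ hzF]
    have h1 : ∑ p ∈ P2, tot (z (e p.1) (e p.2)) ≤ np * (ρ * T + |C|) := by
      rw [hnp, ← nsmul_eq_mul, ← Finset.sum_const]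
      refine Finset.sum_le_sum (fun p hp => ?_)
      exact (hzp _ _ (fun h => (Finset.mem_filter.mp hp).2.ne (e.injective h))).2.2
    have h2 := mul_le_mul_of_nonneg_left hZT (Nat.cast_nonneg (α := ℝ) N)
    have h3 := mul_le_mul_of_nonneg_left h1 (Nat.cast_nonneg (α := ℝ) N)
    have h4 := (hck K).2
    linarith
  have hsum : ∀ w, ∑ j, x j w ≤ (d : ℝ) * G w + ∑ e : Fin (d + 1) ↪ Fin (M' + 1),
      ((N : ℝ) * y w + ((N : ℝ) * ∑ p ∈ P2, z (e p.1) (e p.2) w) +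
        Real.log (kap A M 1 w)) := by
    intro w
    refine (hcomb (M' + 1) d (fun j => x j w) (G w) (hG0 w) (fun j => hx0 j w)
      (fun j => hxG j w)).trans ?_
    exact add_le_add le_rfl (Finset.sum_le_sum (fun e _ => htup e w))
  have htot := tot_le (FS_sum Finset.univ (fun j _ => hxF j))
    (FS_add (FS_mul hGF _) (FS_sum Finset.univ (fun e _ => (hFe e).1)))
    (fun w => hsum (ai w)) (fun w => hsum (av w))
  rw [tot_sum _ (fun j _ => hxF j), tot_add (FS_mul hGF _)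
    (FS_sum Finset.univ (fun e _ => (hFe e).1)), tot_mul hGF,
    tot_sum _ (fun e _ => (hFe e).1)] at htot
  have h1 : ((M' : ℝ) + 1) * (ε * T) ≤ ∑ j, tot (x j) := by
    have h2 : ∑ _j : Fin (M' + 1), ε * T ≤ ∑ j, tot (x j) :=
      Finset.sum_le_sum (fun j _ => (hxT j).le)
    rw [Finset.sum_const, Finset.card_univ, Fintype.card_fin, nsmul_eq_mul] at h2
    push_cast at h2
    exact h2
  have h2 : ∑ e : Fin (d + 1) ↪ Fin (M' + 1), tot (fun w =>
      (N : ℝ) * y w + ((N : ℝ) * ∑ p ∈ P2, z (e p.1) (e p.2) w) +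
        Real.log (kap A M 1 w)) ≤
      ne * (N * (ε' * T) + N * (np * (ρ * T + |C|)) + ck * dK) := by
    rw [hne, ← nsmul_eq_mul, ← Finset.card_univ, ← Finset.sum_const]
    exact Finset.sum_le_sum (fun e _ => (hFe e).2)
  have h3 : (d : ℝ) * tot G ≤ d * (C1 * T + C2) :=
    mul_le_mul_of_nonneg_left hGT (Nat.cast_nonneg _)
  have hne0 : (0 : ℝ) ≤ ne := Nat.cast_nonneg _
  have hN0 : (0 : ℝ) ≤ N := Nat.cast_nonneg _
  have hnp0 : (0 : ℝ) ≤ np := Nat.cast_nonneg _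
  have h4 : (ne : ℝ) * (N * (ε' * T)) ≤ 1 / 4 * T := by
    have h5 : (ne : ℝ) * N * ε' ≤ 1 / 4 := by
      rw [hε', mul_one_div, div_le_div_iff₀ (by positivity) (by positivity)]
      nlinarith
    nlinarith
  have h5 : (ne : ℝ) * (N * (np * (ρ * T + |C|))) ≤ 1 / 4 * T + ne * (N * np * |C|) := by
    have h6 : (ne : ℝ) * N * np * ρ ≤ 1 / 4 := by
      rw [hρ, mul_one_div, div_le_div_iff₀ (by positivity) (by positivity)]
      have h7 : (ne : ℝ) * N ≤ (ne + 1) * (N + 1) := by nlinarith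
      have h8 : (ne : ℝ) * N * np ≤ (ne + 1) * (N + 1) * (np + 1) :=
        mul_le_mul h7 (by linarith) hnp0 (by positivity)
      nlinarith
    nlinarith
  have h6 : (d * C1 + 1) * T ≤ (M' : ℝ) * ε * T := mul_le_mul_of_nonneg_right hM'.le hT00.le
  have h7 : 0 ≤ ε * T := by positivity
  nlinarith

end Pool.Agent.TH954.Y
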