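import Pool.Agent.TH954.Y.Tools

/-!
# Induction on the number of curves: one place
-/

set_option autoImplicit false
set_option linter.unusedSectionVars false

open MvPolynomial Pool.Agent.TH954.X Pool.Agent.TH954.X.We Pool.Agent.TH954.V NumberField

namespace Pool.Agent.TH954.Y

section good

variable {K : Type} [Field K] [NumberField K]

/-- the properties used of the set of coordinate vectors of the points of a subgroup of rank `r` of an
elliptic curve -/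
structure Good (a b : K) (H : Set (Fin 3 → K)) (r : ℕ) : Prop where
  on : ∀ v ∈ H, OnC a b v
  cnt : ∃ C : ℝ, ∀ T : ℝ, 1 ≤ T → {v | v ∈ H ∧ Height.logHeight v ≤ T}.Finite ∧
    ({v | v ∈ H ∧ Height.logHeight v ≤ T}.ncard : ℝ) ≤ C * T ^ ((r : ℝ) / 2)
  sep : ∃ (Ξ : Type) (_ : Fintype Ξ) (Ω : Ξ → MvPolynomial (Fin 2 × Fin 3) K),
    (∀ s, MH (fun _ => 2) (Ω s)) ∧
    (∀ (F : Type) [Field F] [Algebra K F] (v : Fin 3 → F), OnC a b v →
      ∀ s, ev (Ω s) ![v, v] = 0) ∧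
    ∃ C : ℝ, ∀ ρ : ℝ, 0 < ρ → ∃ N : ℕ, ∀ T : ℝ, 1 ≤ T → ∃ col : (Fin 3 → K) → Fin N,
      ∀ P ∈ H, ∀ Q ∈ H, Height.logHeight P ≤ T → Height.logHeight Q ≤ T → col P = col Q →
        P ≠ Q → (∃ s, ev (Ω s) ![P, Q] ≠ 0) ∧
          FS (lam0 (fun _ : Ξ => fun _ : Fin 2 => 2) Ω ![P, Q]) ∧
          tot (lam0 (fun _ : Ξ => fun _ : Fin 2 => 2) Ω ![P, Q]) ≤ ρ * T + C
  smp : r ≠ 0 → ∀ L : ℕ, ∃ S : Fin L → Fin 3 → K, Function.Injective S ∧
    ∀ l, OnC a b (S l) ∧ S l 0 ≠ 0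

/-- the points of the product of height at most `T` -/
def Box {k : ℕ} (H : Fin k → Set (Fin 3 → K)) (T : ℝ) : Set (Fin k → Fin 3 → K) :=
  {u | ∀ i, u i ∈ H i ∧ Height.logHeight (u i) ≤ T}

lemma Box_mono {k : ℕ} (H : Fin k → Set (Fin 3 → K)) (T T' : ℝ) (h : T ≤ T') :
    Box H T ⊆ Box H T' := fun _ hu i => ⟨(hu i).1, (hu i).2.trans h⟩

lemma box_bd {k : ℕ} (a b : Fin k → K) (H : Fin k → Set (Fin 3 → K)) (r : Fin k → ℕ)
    (hg : ∀ i, Good (a i) (b i) (H i) (r i)) :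
    ∃ C : ℝ, 0 ≤ C ∧ ∀ T : ℝ, 1 ≤ T → (Box H T).Finite ∧
      ((Box H T).ncard : ℝ) ≤ C * T ^ ((∑ i, (r i : ℝ)) / 2) := by
  classical
  choose C hC using fun i => (hg i).cnt
  refine ⟨∏ i, max 0 (C i), Finset.prod_nonneg (fun i _ => le_max_left _ _), fun T hT => ?_⟩
  have hfin : ∀ i, {v | v ∈ H i ∧ Height.logHeight v ≤ T}.Finite := fun i => (hC i T hT).1
  have hsub : Box H T ⊆ ↑(Fintype.piFinset (fun i => (hfin i).toFinset)) := by
    intro u hu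
    rw [Finset.mem_coe, Fintype.mem_piFinset]
    intro i
    exact (hfin i).mem_toFinset.mpr (hu i)
  refine ⟨(Finset.finite_toSet _).subset hsub, ?_⟩
  have h1 : (Box H T).ncard ≤ ∏ i, {v | v ∈ H i ∧ Height.logHeight v ≤ T}.ncard := by
    refine (Set.ncard_le_ncard hsub (Finset.finite_toSet _)).trans ?_
    rw [Set.ncard_coe_finset, Fintype.card_piFinset]
    refine le_of_eq (Finset.prod_congr rfl (fun i _ => ?_))
    rw [Set.ncard_eq_toFinset_card _ (hfin i)]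
  have hT0 : 0 < T := one_pos.trans_le hT
  calc ((Box H T).ncard : ℝ) ≤ ((∏ i, {v | v ∈ H i ∧ Height.logHeight v ≤ T}.ncard : ℕ) : ℝ) := by
        exact_mod_cast h1
    _ = ∏ i, ({v | v ∈ H i ∧ Height.logHeight v ≤ T}.ncard : ℝ) := by push_cast; rfl
    _ ≤ ∏ i, (max 0 (C i) * T ^ ((r i : ℝ) / 2)) := by
        refine Finset.prod_le_prod (fun i _ => Nat.cast_nonneg _) (fun i _ => ?_)
        exact (hC i T hT).2.trans (mul_le_mul_of_nonneg_right (le_max_right _ _)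
          (Real.rpow_nonneg hT0.le _))
    _ = _ := by
        rw [Finset.prod_mul_distrib, ← Real.rpow_sum_of_pos hT0, Finset.sum_div]

lemma OnB.ne_zero {k : ℕ} {a b : Fin k → K} {u : Fin k → Fin 3 → K} (h : OnB a b u) (i : Fin k) :
    u i ≠ 0 := (h i).1.ne_zero

end good

section thmB

variable {K : Type} [Field K] [NumberField K]

/-- points near `f = 0` at the absolute value `w` -/
def Bad1 {k : ℕ} {E : Type} (w : AbsoluteValue K ℝ) (δ : E → Fin k → ℕ)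
    (f : E → MvPolynomial (Fin k × Fin 3) K) (H : Fin k → Set (Fin 3 → K)) (ε T : ℝ) :
    Set (Fin k → Fin 3 → K) :=
  {u | u ∈ Box H T ∧ (⨆ i, nvW w (δ i) (f i) u) ≤ Real.exp (-(ε * T))}

/-- the fibre estimate at one place -/
lemma fibre1 (hT : T_tuple) {k : ℕ} (a b : Fin (k + 1) → K)
    (hd : ∀ i, 4 * a i ^ 3 + 27 * b i ^ 2 ≠ 0) (H : Fin (k + 1) → Set (Fin 3 → K))
    (r : Fin (k + 1) → ℕ) (hg : ∀ i, Good (a i) (b i) (H i) (r i))
    {E : Type} [Fintype E] (f : E → MvPolynomial (Fin (k + 1) × Fin 3) K)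
    (δ : E → Fin (k + 1) → ℕ) (hf : ∀ i, MH (δ i) (f i))
    (L : ℕ) (S : Fin L → Fin 3 → K)
    (hS : ∀ l, OnC (a (Fin.last k)) (b (Fin.last k)) (S l) ∧ S l 0 ≠ 0)
    (w : AbsoluteValue K ℝ) (hw : IsPl w) (ε : ℝ) (hε : 0 < ε) :
    ∃ ε' : ℝ, 0 < ε' ∧ ∃ (n0 : ℕ) (T0 : ℝ), ∀ T, 1 ≤ T → T0 < T →
      ∀ u ∈ Box (fun i => H (Fin.castSucc i)) T,
        u ∉ Bad1 w (fun (p : Fin L × E) i => δ p.2 (Fin.castSucc i))
          (fun p => sec (S p.1) (f p.2)) (fun i => H (Fin.castSucc i)) ε' T →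
        {v | v ∈ {v | v ∈ H (Fin.last k) ∧ Height.logHeight v ≤ T} ∧
          snoc u v ∈ Bad1 w δ f H ε T}.ncard ≤ n0 := by
  classical
  set D : ℕ := ∑ i, δ i (Fin.last k) with hD
  have hdD : ∀ i, 6 * δ i (Fin.last k) + 1 < (6 * D + 1) + 1 := by
    intro i
    have : δ i (Fin.last k) ≤ D :=
      Finset.single_le_sum (f := fun i => δ i (Fin.last k)) (fun _ _ => Nat.zero_le _)
        (Finset.mem_univ i)
    omega
  obtain ⟨Ξ, hΞ, Ω, hΩ, hΩ0, C, hsep⟩ := (hg (Fin.last k)).sep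
  obtain ⟨N, M, A, hM, hloc⟩ := hT K k a b hd E f δ hf L S hS (6 * D + 1) hdD Ξ Ω hΩ hΩ0
  set np : ℕ := (Finset.univ.filter
    (fun p : Fin (6 * D + 1 + 1) × Fin (6 * D + 1 + 1) => p.1 < p.2)).card with hnp
  set ρ : ℝ := ε / (4 * (N + 1) * (np + 1)) with hρ
  have hρ0 : 0 < ρ := by positivity
  obtain ⟨Nc, hcol⟩ := hsep ρ hρ0
  have hk1 : 1 ≤ kap A M 1 w := one_le_kap A hM 1 w
  refine ⟨ε / (4 * (N + 1)), by positivity, (6 * D + 1) * Nc,
    2 * (Real.log (kap A M 1 w) + N * np * |C|) / ε, fun T hT1 hT0 u hu hub => ?_⟩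
  obtain ⟨col, hcol⟩ := hcol T hT1
  set X : Set (Fin 3 → K) := {v | v ∈ {v | v ∈ H (Fin.last k) ∧ Height.logHeight v ≤ T} ∧
          snoc u v ∈ Bad1 w δ f H ε T} with hX
  obtain ⟨Cc, hCc⟩ := (hg (Fin.last k)).cnt
  have hXfin : X.Finite := (hCc T hT1).1.subset (fun v hv => hv.1)
  refine pigeon X hXfin Nc (6 * D + 1) col ?_
  rintro ⟨Q, hQi, hQX, hQc⟩
  have hub' : Real.exp (-(ε / (4 * (N + 1)) * T)) <
      ⨆ p : Fin L × E, nvW w (fun i => δ p.2 (Fin.castSucc i)) (sec (S p.1) (f p.2)) u := by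
    by_contra hcon
    exact hub ⟨hu, not_lt.mp hcon⟩
  have hOB : OnB (fun i => a (Fin.castSucc i)) (fun i => b (Fin.castSucc i)) u :=
    fun i => (hg (Fin.castSucc i)).on _ (hu i).1
  have hQH : ∀ j, Q j ∈ H (Fin.last k) ∧ Height.logHeight (Q j) ≤ T := fun j => (hQX j).1
  have h1 := hloc w u Q hOB (fun j => (hg (Fin.last k)).on _ (hQH j).1)
  -- the right hand side
  have h2 : (⨆ p : Fin (6 * D + 1 + 1) × E, nvW w (δ p.2) (f p.2) (snoc u (Q p.1))) ≤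
      Real.exp (-(ε * T)) := by
    rcases isEmpty_or_nonempty (Fin (6 * D + 1 + 1) × E) with he | he
    · rw [Real.iSup_of_isEmpty]
      exact (Real.exp_pos _).le
    · refine ciSup_le (fun p => ?_)
      refine le_trans ?_ (hQX p.1).2.2
      exact le_ciSup (f := fun i => nvW w (δ i) (f i) (snoc u (Q p.1)))
        (Set.finite_range _).bddAbove p.2
  -- the pairs
  have h3 : ∀ p ∈ Finset.univ.filter
      (fun p : Fin (6 * D + 1 + 1) × Fin (6 * D + 1 + 1) => p.1 < p.2),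
      Real.exp (-(ρ * T + |C|)) ≤ ⨆ s, nvW w (fun _ => 2) (Ω s) ![Q p.1, Q p.2] := by
    intro p hp
    have hne : Q p.1 ≠ Q p.2 := fun h => (Finset.mem_filter.mp hp).2.ne (hQi h)
    obtain ⟨h4, h5, h6⟩ := hcol (Q p.1) (hQH _).1 (Q p.2) (hQH _).1 (hQH _).2 (hQH _).2
      (hQc _ _) hne
    have h7 := le_tot h5 (lam0_nonneg _ _ _) hw
    have hpos : 0 < ⨆ s, nvW w (fun _ => 2) (Ω s) ![Q p.1, Q p.2] := by
      refine sup_nvW_pos w (fun _ => fun _ => 2) Ω ?_ h4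
      intro j
      refine Fin.cases ?_ (fun j => ?_) j
      · exact ((hg (Fin.last k)).on _ (hQH p.1).1).1.ne_zero
      · fin_cases j
        exact ((hg (Fin.last k)).on _ (hQH p.2).1).1.ne_zero
    have h8 : -Real.log (⨆ s, nvW w (fun _ => 2) (Ω s) ![Q p.1, Q p.2]) ≤ ρ * T + |C| := by
      have h9 : -Real.log (⨆ s, nvW w (fun _ => 2) (Ω s) ![Q p.1, Q p.2]) ≤
        lam0 (fun _ : Ξ => fun _ : Fin 2 => 2) Ω ![Q p.1, Q p.2] w := le_max_right _ _
      linarith [le_abs_self C]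
    rw [← Real.exp_log hpos]
    exact Real.exp_le_exp.mpr (by linarith)
  have h4 : Real.exp (-(ε / (4 * (N + 1)) * T)) ^ N *
      ((Real.exp (-(ρ * T + |C|))) ^ np) ^ N ≤ kap A M 1 w * Real.exp (-(ε * T)) := by
    refine le_trans ?_ (h1.trans (mul_le_mul_of_nonneg_left h2 (zero_le_one.trans hk1)))
    refine mul_le_mul (pow_le_pow_left₀ (Real.exp_pos _).le hub'.le _)
      (pow_le_pow_left₀ (pow_nonneg (Real.exp_pos _).le _) ?_ _)
      (pow_nonneg (pow_nonneg (Real.exp_pos _).le _) _) (pow_nonneg ((Real.exp_pos _).le.trans hub'.le) _)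
    rw [hnp, ← Finset.prod_const]
    exact Finset.prod_le_prod (fun _ _ => (Real.exp_pos _).le) h3
  have h5 := Real.log_le_log (by positivity) h4
  rw [Real.log_mul (by positivity) (by positivity), Real.log_pow, Real.log_pow, Real.log_pow,
    Real.log_exp, Real.log_exp, Real.log_mul (by positivity) (by positivity), Real.log_exp] at h5
  have hT00 : 0 < T := one_pos.trans_le hT1
  -- `N ε / (4 (N + 1)) ≤ ε / 4`, `N np ρ ≤ ε / 4`
  have h6 : (N : ℝ) * (ε / (4 * (N + 1)) * T) ≤ ε / 4 * T := by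
    have : (N : ℝ) * (ε / (4 * (N + 1))) ≤ ε / 4 := by
      rw [mul_div_assoc', div_le_div_iff₀ (by positivity) (by positivity)]
      nlinarith
    nlinarith
  have h7 : (N : ℝ) * (np * (ρ * T + |C|)) ≤ ε / 4 * T + N * np * |C| := by
    have : (N : ℝ) * np * ρ ≤ ε / 4 := by
      rw [hρ, mul_div_assoc', div_le_div_iff₀ (by positivity) (by positivity)]
      have h8 : (N : ℝ) * np ≤ (N + 1) * (np + 1) := by nlinarith [Nat.cast_nonneg (α := ℝ) N, Nat.cast_nonneg (α := ℝ) np]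
      nlinarith
    nlinarith
  rw [div_lt_iff₀ hε] at hT0
  nlinarith

/-- the inductive step of the count -/
lemma step_bd {k : ℕ} (a b : Fin (k + 1) → K) (H : Fin (k + 1) → Set (Fin 3 → K))
    (r : Fin (k + 1) → ℕ) (hg : ∀ i, Good (a i) (b i) (H i) (r i)) (m : ℕ)
    (hr : m ≤ r (Fin.last k)) (X : ℝ → Set (Fin (k + 1) → Fin 3 → K))
    (hXs : ∀ T, X T ⊆ Box H T) (B : ℝ → Set (Fin k → Fin 3 → K))
    (hB : ∃ C : ℝ, ∀ T, 1 ≤ T → (B T).Finite ∧
      ((B T).ncard : ℝ) ≤ C * T ^ ((∑ i, (r (Fin.castSucc i) : ℝ) - m) / 2))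
    (n0 : ℕ) (T0 : ℝ)
    (h : ∀ T, 1 ≤ T → T0 < T → ∀ u ∈ Box (fun i => H (Fin.castSucc i)) T, u ∉ B T →
      {v | v ∈ {v | v ∈ H (Fin.last k) ∧ Height.logHeight v ≤ T} ∧ snoc u v ∈ X T}.ncard ≤ n0) :
    ∃ C : ℝ, ∀ T, 1 ≤ T → (X T).Finite ∧
      ((X T).ncard : ℝ) ≤ C * T ^ ((∑ i, (r i : ℝ) - m) / 2) := by
  obtain ⟨C1, hC1⟩ := hB
  obtain ⟨C2, hC2⟩ := (hg (Fin.last k)).cnt
  obtain ⟨C3, hC30, hC3⟩ := box_bd _ _ (fun i => H (Fin.castSucc i)) _
    (fun i => hg (Fin.castSucc i))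
  obtain ⟨C4, -, hC4⟩ := box_bd a b H r hg
  refine ext_bd X (Box H) hXs (Box_mono H) (fun T hT => (hC4 T hT).1) _ T0
    ⟨|C1| * |C2| + C3 * n0, fun T hT1 hT0 => ?_⟩
  have hT00 : 0 < T := one_pos.trans_le hT1
  have h1 := (count (snoc (F := K) (k := k)) (X T) (Box (fun i => H (Fin.castSucc i)) T) (B T)
    {v | v ∈ H (Fin.last k) ∧ Height.logHeight v ≤ T} n0 (hC3 T hT1).1 (hC1 T hT1).1
    (hC2 T hT1).1 (fun x hx => ⟨fun i => x (Fin.castSucc i), fun i => hXs T hx (Fin.castSucc i),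
      x (Fin.last k), hXs T hx (Fin.last k), by
        unfold snoc
        exact Fin.snoc_init_self x⟩) (h T hT1 hT0)).2
  have h2 : ((X T).ncard : ℝ) ≤ ((B T).ncard : ℝ) *
      ({v | v ∈ H (Fin.last k) ∧ Height.logHeight v ≤ T}.ncard : ℝ) +
        ((Box (fun i => H (Fin.castSucc i)) T).ncard : ℝ) * n0 := by
    exact_mod_cast h1
  have h3 : ((B T).ncard : ℝ) * ({v | v ∈ H (Fin.last k) ∧ Height.logHeight v ≤ T}.ncard : ℝ) ≤
      (|C1| * T ^ ((∑ i, (r (Fin.castSucc i) : ℝ) - m) / 2)) *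
        (|C2| * T ^ ((r (Fin.last k) : ℝ) / 2)) := by
    refine mul_le_mul ((hC1 T hT1).2.trans ?_) ((hC2 T hT1).2.trans ?_) (Nat.cast_nonneg _) ?_
    · exact mul_le_mul_of_nonneg_right (le_abs_self _) (Real.rpow_nonneg hT00.le _)
    · exact mul_le_mul_of_nonneg_right (le_abs_self _) (Real.rpow_nonneg hT00.le _)
    · exact mul_nonneg (abs_nonneg _) (Real.rpow_nonneg hT00.le _)
  have h4 : T ^ ((∑ i, (r (Fin.castSucc i) : ℝ) - m) / 2) * T ^ ((r (Fin.last k) : ℝ) / 2) =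
      T ^ ((∑ i, (r i : ℝ) - m) / 2) := by
    rw [← Real.rpow_add hT00, Fin.sum_univ_castSucc]
    congr 1
    ring
  have h5 : T ^ ((∑ i, (r (Fin.castSucc i) : ℝ)) / 2) ≤ T ^ ((∑ i, (r i : ℝ) - m) / 2) := by
    refine Real.rpow_le_rpow_of_exponent_le hT1 ?_
    rw [Fin.sum_univ_castSucc]
    have : (m : ℝ) ≤ r (Fin.last k) := by exact_mod_cast hr
    linarith
  have h6 := (hC3 T hT1).2
  have h7 : ((Box (fun i => H (Fin.castSucc i)) T).ncard : ℝ) * n0 ≤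
      C3 * n0 * T ^ ((∑ i, (r i : ℝ) - m) / 2) := by
    calc _ ≤ (C3 * T ^ ((∑ i, (r (Fin.castSucc i) : ℝ)) / 2)) * n0 :=
          mul_le_mul_of_nonneg_right h6 (Nat.cast_nonneg _)
      _ = C3 * n0 * T ^ ((∑ i, (r (Fin.castSucc i) : ℝ)) / 2) := by ring
      _ ≤ _ := mul_le_mul_of_nonneg_left h5 (mul_nonneg hC30 (Nat.cast_nonneg _))
  calc ((X T).ncard : ℝ) ≤ _ := h2
    _ ≤ (|C1| * T ^ ((∑ i, (r (Fin.castSucc i) : ℝ) - m) / 2)) *
        (|C2| * T ^ ((r (Fin.last k) : ℝ) / 2)) + C3 * n0 * T ^ ((∑ i, (r i : ℝ) - m) / 2) :=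
        add_le_add h3 h7
    _ = _ := by
        rw [← h4]
        ring

/-- there is no point of codimension at least one in the empty product -/
lemma exists_ev_ne {a b : Fin 0 → K} {E : Type} {f : E → MvPolynomial (Fin 0 × Fin 3) K} {c : ℕ}
    (hc : Codim a b f c) (h : 1 ≤ c) (u : Fin 0 → Fin 3 → K) : ∃ i, ev (f i) u ≠ 0 := by
  by_contra hcon
  push Not at hcon
  have h1 := hc K u (fun i => i.elim0) hcon
  have h2 : (c : Cardinal) ≤ ((0 : ℕ) : Cardinal) := le_trans (self_le_add_left _ _) h1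
  have h3 : c ≤ 0 := by exact_mod_cast h2
  omega

/-- **Points near a closed subset of codimension one at one place.** -/
theorem thmB (hT : T_tuple) (hZ : T_zdim) (w : AbsoluteValue K ℝ) (hw : IsPl w) (m : ℕ)
    (hm : 1 ≤ m) : ∀ (k : ℕ) (a b : Fin k → K), (∀ i, 4 * a i ^ 3 + 27 * b i ^ 2 ≠ 0) →
    ∀ (H : Fin k → Set (Fin 3 → K)) (r : Fin k → ℕ), (∀ i, Good (a i) (b i) (H i) (r i)) →
    (∀ i, m ≤ r i) → ∀ (E : Type) [Fintype E] (f : E → MvPolynomial (Fin k × Fin 3) K)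
    (δ : E → Fin k → ℕ), (∀ i, MH (δ i) (f i)) → Codim a b f 1 → ∀ (ε : ℝ), 0 < ε →
    ∃ C : ℝ, ∀ T, 1 ≤ T → (Bad1 w δ f H ε T).Finite ∧
      ((Bad1 w δ f H ε T).ncard : ℝ) ≤ C * T ^ ((∑ i, (r i : ℝ) - m) / 2) := by
  intro k
  induction k with
  | zero =>
    intro a b _ H r hg hr E _ f δ hf hc ε hε
    obtain ⟨C4, -, hC4⟩ := box_bd a b H r hg
    set u0 : Fin 0 → Fin 3 → K := fun i => i.elim0 with hu0
    have h1 := sup_nvW_pos w δ f (u := u0) (fun i => i.elim0) (exists_ev_ne hc le_rfl u0)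
    set U : ℝ := ⨆ i, nvW w (δ i) (f i) u0 with hU
    refine ext_bd (Bad1 w δ f H ε) (Box H) (fun T u hu => hu.1) (Box_mono H)
      (fun T hT => (hC4 T hT).1) _ (-Real.log U / ε) ⟨0, fun T hT1 hT0 => ?_⟩
    have h2 : Bad1 w δ f H ε T = ∅ := by
      rw [Set.eq_empty_iff_forall_notMem]
      rintro u ⟨-, hu⟩
      have h3 : u = u0 := Subsingleton.elim _ _
      rw [h3] at hu
      have h4 := Real.log_le_log h1 hu
      rw [Real.log_exp] at h4
      rw [div_lt_iff₀ hε] at hT0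
      linarith
    rw [h2, Set.ncard_empty]
    simp
  | succ k ih =>
    intro a b hd H r hg hr E _ f δ hf hc ε hε
    set D : ℕ := ∑ i, δ i (Fin.last k) with hD
    have hdD : ∀ i, 6 * δ i (Fin.last k) + 1 < 6 * D + 2 := by
      intro i
      have : δ i (Fin.last k) ≤ D :=
        Finset.single_le_sum (f := fun i => δ i (Fin.last k)) (fun _ _ => Nat.zero_le _)
          (Finset.mem_univ i)
      omega
    have hrl : r (Fin.last k) ≠ 0 := by
      have := hr (Fin.last k)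
      omega
    obtain ⟨S, hSi, hS⟩ := (hg (Fin.last k)).smp hrl (6 * D + 2)
    obtain ⟨ε', hε', n0, T0, hfib⟩ := fibre1 hT a b hd H r hg f δ hf (6 * D + 2) S hS w hw ε hε
    have hZc := hZ K k a b hd E f δ hf 1 hc (6 * D + 2) S hSi (fun l => (hS l).1) hdD
    have hB := ih (fun i => a (Fin.castSucc i)) (fun i => b (Fin.castSucc i))
      (fun i => hd (Fin.castSucc i)) (fun i => H (Fin.castSucc i))
      (fun i => r (Fin.castSucc i)) (fun i => hg (Fin.castSucc i))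
      (fun i => hr (Fin.castSucc i)) (Fin (6 * D + 2) × E) (fun p => sec (S p.1) (f p.2))
      (fun p i => δ p.2 (Fin.castSucc i)) (fun p => MH_sec (S p.1) (hf p.2)) hZc ε' hε'
    exact step_bd a b H r hg m (hr _) (Bad1 w δ f H ε) (fun T u hu => hu.1) _ hB n0 T0 hfib

end thmB

end Pool.Agent.TH954.Y
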