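import Pool.Agent.TH954.Y.IndA

/-!
# Points near closed subsets of codimension two
-/

set_option autoImplicit false
set_option linter.unusedSectionVars false

open MvPolynomial Pool.Agent.TH954.X Pool.Agent.TH954.X.We Pool.Agent.TH954.V NumberField

namespace Pool.Agent.TH954.Y

variable {K : Type} [Field K] [NumberField K]

/-- **Points near a closed subset of codimension two at all places.** -/
theorem thmA (hT : T_tuple) (hZ : T_zdim) (hG : T_gform) (hcomb : T_comb) (m : ℕ)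
    (hm : 1 ≤ m) : ∀ (k : ℕ) (a b : Fin k → K), (∀ i, 4 * a i ^ 3 + 27 * b i ^ 2 ≠ 0) →
    ∀ (H : Fin k → Set (Fin 3 → K)) (r : Fin k → ℕ), (∀ i, Good (a i) (b i) (H i) (r i)) →
    (∀ i, m ≤ r i) → ∀ (E : Type) [Fintype E] (f : E → MvPolynomial (Fin k × Fin 3) K)
    (δ : E → Fin k → ℕ), (∀ i, MH (δ i) (f i)) → Codim a b f 2 → ∀ (ε : ℝ), 0 < ε →
    ∃ C : ℝ, ∀ T, 1 ≤ T → (Bad2 δ f H ε T).Finite ∧
      ((Bad2 δ f H ε T).ncard : ℝ) ≤ C * T ^ ((∑ i, (r i : ℝ) - m) / 2) := by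
  intro k
  induction k with
  | zero =>
    intro a b _ H r hg hr E _ f δ hf hc ε hε
    obtain ⟨C4, -, hC4⟩ := box_bd a b H r hg
    set u0 : Fin 0 → Fin 3 → K := fun i => i.elim0 with hu0
    obtain ⟨i0, hi0⟩ := exists_ev_ne hc (by norm_num) u0
    refine ext_bd (Bad2 δ f H ε) (Box H) (fun T u hu => hu.1) (Box_mono H)
      (fun T hT => (hC4 T hT).1) _ (tot (lam0 δ f u0) / ε) ⟨0, fun T hT1 hT0 => ?_⟩
    have h2 : Bad2 δ f H ε T = ∅ := by
      rw [Set.eq_empty_iff_forall_notMem]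
      rintro u ⟨-, hu⟩
      have h3 : u = u0 := Subsingleton.elim _ _
      rw [h3] at hu
      rcases hu with hu | hu
      · exact hi0 (hu i0)
      · rw [div_lt_iff₀ hε] at hT0
        linarith
    rw [h2, Set.ncard_empty]
    simp
  | succ k ih =>
    intro a b hd H r hg hr E _ f δ hf hc ε hε
    set D : ℕ := ∑ i, δ i (Fin.last k) with hD
    have hdD : ∀ i, 6 * δ i (Fin.last k) + 1 < 6 * D + 2 := by
      intro i
      have : δ i (Fin.last k) ≤ D :=
        Finset.single_le_sum (f := fun i => δ i (Fin.last k)) (fun _ _ => Nat.zero_le _)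
          (Finset.mem_univ i)
      omega
    have hrl : r (Fin.last k) ≠ 0 := by
      have := hr (Fin.last k)
      omega
    obtain ⟨S, hSi, hS⟩ := (hg (Fin.last k)).smp hrl (6 * D + 2)
    obtain ⟨g, τ, hgτ, hgc, N1, M1, A1, hM1, hgl⟩ := hG K k a b hd E f δ hf hc
    obtain ⟨ε', hε', n0, T0, hfib⟩ := fibre2 hT hcomb a b hd H r hg f δ hf (6 * D + 2) S hS
      g τ hgτ N1 M1 A1 hM1 hgl ε hε
    have hZc := hZ K k a b hd E f δ hf 2 hc (6 * D + 2) S hSi (fun l => (hS l).1) hdD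
    obtain ⟨C1, hC1⟩ := ih (fun i => a (Fin.castSucc i)) (fun i => b (Fin.castSucc i))
      (fun i => hd (Fin.castSucc i)) (fun i => H (Fin.castSucc i))
      (fun i => r (Fin.castSucc i)) (fun i => hg (Fin.castSucc i))
      (fun i => hr (Fin.castSucc i)) (Fin (6 * D + 2) × E) (fun p => sec (S p.1) (f p.2))
      (fun p i => δ p.2 (Fin.castSucc i)) (fun p => MH_sec (S p.1) (hf p.2)) hZc ε' hε'
    set w1 : AbsoluteValue K ℝ := ai (Classical.arbitrary (InfinitePlace K)) with hw1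
    obtain ⟨C2, hC2⟩ := thmB hT hZ w1 (Or.inr ⟨_, rfl⟩) m hm k (fun i => a (Fin.castSucc i))
      (fun i => b (Fin.castSucc i)) (fun i => hd (Fin.castSucc i))
      (fun i => H (Fin.castSucc i)) (fun i => r (Fin.castSucc i))
      (fun i => hg (Fin.castSucc i)) (fun i => hr (Fin.castSucc i)) Unit (fun _ => g)
      (fun _ => τ) (fun _ => hgτ) hgc 1 one_pos
    refine step_bd a b H r hg m (hr _) (Bad2 δ f H ε) (fun T u hu => hu.1)
      (fun T => Bad2 (fun (p : Fin (6 * D + 2) × E) i => δ p.2 (Fin.castSucc i))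
          (fun p => sec (S p.1) (f p.2)) (fun i => H (Fin.castSucc i)) ε' T ∪
        Bad1 w1 (fun _ : Unit => τ) (fun _ => g) (fun i => H (Fin.castSucc i)) 1 T)
      ⟨C1 + C2, fun T hT1 => ⟨(hC1 T hT1).1.union (hC2 T hT1).1, ?_⟩⟩ n0 T0
      (fun T hT1 hT0 u hu hub => ?_)
    · have h1 := (hC1 T hT1).2
      have h2 := (hC2 T hT1).2
      refine le_trans (by exact_mod_cast Set.ncard_union_le _ _) (le_trans (add_le_add h1 h2) ?_)
      rw [add_mul]
    · refine hfib T hT1 hT0 u hu ?_ (fun h => hub (Or.inl h))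
      intro h0
      refine hub (Or.inr ⟨hu, ?_⟩)
      have h1 : (⨆ _ : Unit, nvW w1 τ g u) = 0 := by
        rw [ciSup_const]
        simp [nvW, h0]
      rw [h1]
      exact (Real.exp_pos _).le

end Pool.Agent.TH954.Y
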