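import Pool.Agent.TH954.Y.Defs

/-!
# Local heights on products of elliptic curves for almost all rational points: tools
-/

set_option autoImplicit false
set_option linter.unusedSectionVars false

open MvPolynomial Pool.Agent.TH954.X Pool.Agent.TH954.X.We Pool.Agent.TH954.V NumberField

namespace Pool.Agent.TH954.Y

section places

variable {K : Type} [Field K] [NumberField K]

/-- the absolute value of a place -/
def IsPl (w : AbsoluteValue K ℝ) : Prop :=
  (∃ v : FinitePlace K, w = av v) ∨ ∃ v : InfinitePlace K, w = ai v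

lemma FS_max {g : AbsoluteValue K ℝ → ℝ} (hg : FS g) : FS (fun w => max 0 (g w)) := by
  refine hg.subset (fun v hv => ?_)
  intro hcon
  apply hv
  change max 0 (g (av v)) = 0
  rw [hcon, max_self]

lemma tot_nonneg {g : AbsoluteValue K ℝ → ℝ} (hg : FS g) (h0 : ∀ w, 0 ≤ g w) : 0 ≤ tot g := by
  have := tot_le (g := fun _ => (0 : ℝ)) FS_zero hg (fun w => h0 _) (fun w => h0 _)
  rwa [tot_zero] at this

lemma le_tot {g : AbsoluteValue K ℝ → ℝ} (hg : FS g) (h0 : ∀ w, 0 ≤ g w)
    {w : AbsoluteValue K ℝ} (hw : IsPl w) : g w ≤ tot g := by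
  unfold tot
  have h1 : 0 ≤ ∑ᶠ v : FinitePlace K, g (av v) := finsum_nonneg (fun v => h0 _)
  have h2 : 0 ≤ ∑ w : InfinitePlace K, (w.mult : ℝ) * g (ai w) :=
    Finset.sum_nonneg (fun w _ => mul_nonneg (Nat.cast_nonneg _) (h0 _))
  rcases hw with ⟨v, rfl⟩ | ⟨v, rfl⟩
  · have h3 : g (av v) ≤ ∑ᶠ v : FinitePlace K, g (av v) :=
      single_le_finsum v hg (fun v => h0 _)
    linarith
  · have h3 : (v.mult : ℝ) * g (ai v) ≤ ∑ w : InfinitePlace K, (w.mult : ℝ) * g (ai w) :=
      Finset.single_le_sum (f := fun w : InfinitePlace K => (w.mult : ℝ) * g (ai w))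
        (fun w _ => mul_nonneg (Nat.cast_nonneg _) (h0 _)) (Finset.mem_univ v)
    have h4 : (1 : ℝ) ≤ v.mult := by exact_mod_cast InfinitePlace.mult_pos
    have h5 : g (ai v) ≤ (v.mult : ℝ) * g (ai v) := by
      nlinarith [h0 (ai v)]
    linarith

end places

section nv

variable {K : Type} [Field K] {ι : Type} [Fintype ι] {n : ℕ}

/-- a bound for the values of a form -/
lemma nvW_le_kap (f : MvPolynomial (ι × Fin n) K) (σ : ι → ℕ) (hf : MH σ f) :
    ∃ (A : Finset K) (M : ℕ), 1 ≤ M ∧ ∀ (w : AbsoluteValue K ℝ) (u : ι → Fin n → K),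
      (∀ j, u j ≠ 0) → nvW w σ f u ≤ kap A M 1 w := by
  classical
  refine ⟨cfsW f, f.support.card + 1, Nat.le_add_left _ _, fun w u hu => ?_⟩
  obtain ⟨c, r, hr, hs, hc⟩ := exists_normW w u hu
  rw [nvW_norm w u r hr hs hf]
  refine evW_le w f _ (fun m hm => Finset.mem_image_of_mem _ hm) _ (Nat.le_succ _) _ ?_
  intro j e
  rw [← hs j]
  exact le_supW w _ e

/-- the logarithm of the value of a form -/
lemma log_nvW (w : AbsoluteValue K ℝ) (σ : ι → ℕ) (f : MvPolynomial (ι × Fin n) K)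
    {u : ι → Fin n → K} (hu : ∀ j, u j ≠ 0) (h0 : ev f u ≠ 0) :
    Real.log (nvW w σ f u) =
      Real.log (w (ev f u)) + ∑ j, (-(σ j : ℝ)) * Real.log (⨆ c, w (u j c)) := by
  unfold nvW
  rw [Real.log_div (w.pos h0).ne' (Finset.prod_pos
    (fun l _ => pow_pos (sup_posW w (hu l)) _)).ne', Real.log_prod
    (fun l _ => (pow_pos (sup_posW w (hu l)) _).ne')]
  simp_rw [Real.log_pow]
  rw [sub_eq_add_neg, ← Finset.sum_neg_distrib]
  congr 1
  exact Finset.sum_congr rfl (fun l _ => by ring)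

lemma nvW_pos (w : AbsoluteValue K ℝ) (σ : ι → ℕ) (f : MvPolynomial (ι × Fin n) K)
    {u : ι → Fin n → K} (hu : ∀ j, u j ≠ 0) (h0 : ev f u ≠ 0) : 0 < nvW w σ f u :=
  div_pos (w.pos h0) (Finset.prod_pos (fun l _ => pow_pos (sup_posW w (hu l)) _))

lemma sup_nvW_pos {E : Type} [Finite E] (w : AbsoluteValue K ℝ) (δ : E → ι → ℕ)
    (f : E → MvPolynomial (ι × Fin n) K) {u : ι → Fin n → K} (hu : ∀ j, u j ≠ 0)
    (h0 : ∃ i, ev (f i) u ≠ 0) : 0 < ⨆ i, nvW w (δ i) (f i) u := by
  obtain ⟨i, hi⟩ := h0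
  exact (nvW_pos w (δ i) (f i) hu hi).trans_le
    (le_ciSup (f := fun i => nvW w (δ i) (f i) u) (Set.finite_range _).bddAbove i)

lemma exists_of_sup_pos {E : Type} (w : AbsoluteValue K ℝ) (δ : E → ι → ℕ)
    (f : E → MvPolynomial (ι × Fin n) K) {u : ι → Fin n → K}
    (h : 0 < ⨆ i, nvW w (δ i) (f i) u) : ∃ i, ev (f i) u ≠ 0 := by
  by_contra hcon
  push Not at hcon
  have h1 : (fun i => nvW w (δ i) (f i) u) = fun _ => 0 := by
    funext i
    simp [nvW, hcon i]
  rw [show (⨆ i, nvW w (δ i) (f i) u) = iSup (fun i => nvW w (δ i) (f i) u) from rfl, h1] at h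
  rcases isEmpty_or_nonempty E with he | he
  · rw [Real.iSup_of_isEmpty] at h
    exact lt_irrefl _ h
  · rw [ciSup_const] at h
    exact lt_irrefl _ h

variable [NumberField K]

lemma FS_lognv (σ : ι → ℕ) (f : MvPolynomial (ι × Fin n) K)
    {u : ι → Fin n → K} (hu : ∀ j, u j ≠ 0) (h0 : ev f u ≠ 0) :
    FS (fun w => Real.log (nvW w σ f u)) := by
  have h1 : (fun w : AbsoluteValue K ℝ => Real.log (nvW w σ f u)) = fun w =>
      Real.log (w (ev f u)) + ∑ j, (-(σ j : ℝ)) * Real.log (⨆ c, w (u j c)) := by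
    funext w
    exact log_nvW w σ f hu h0
  rw [h1]
  exact FS_add (FS_log h0) (FS_sum _ (fun j _ => FS_mul (FS_sup' (hu j)) _))

lemma tot_lognv (σ : ι → ℕ) (f : MvPolynomial (ι × Fin n) K)
    {u : ι → Fin n → K} (hu : ∀ j, u j ≠ 0) (h0 : ev f u ≠ 0) :
    tot (fun w => Real.log (nvW w σ f u)) = -∑ j, (σ j : ℝ) * Height.logHeight (u j) := by
  have h1 : (fun w : AbsoluteValue K ℝ => Real.log (nvW w σ f u)) = fun w =>
      Real.log (w (ev f u)) + ∑ j, (-(σ j : ℝ)) * Real.log (⨆ c, w (u j c)) := by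
    funext w
    exact log_nvW w σ f hu h0
  rw [h1, tot_add (FS_log h0) (FS_sum _ (fun j _ => FS_mul (FS_sup' (hu j)) _)), tot_log h0,
    tot_sum _ (fun j _ => FS_mul (FS_sup' (hu j)) _), zero_add, ← Finset.sum_neg_distrib]
  refine Finset.sum_congr rfl (fun j _ => ?_)
  rw [tot_mul (FS_sup' (hu j)), tot_sup' (hu j)]
  ring

lemma FS_kap (A : Finset K) {M : ℕ} (hM : 1 ≤ M) :
    FS (fun w : AbsoluteValue K ℝ => Real.log (kap A M 1 w)) := by
  obtain ⟨C, -, hC⟩ := tot_kap A hM 1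
  exact (hC K).1

/-- the logarithm of the largest value of finitely many forms -/
lemma FS_logsup {E : Type} [Finite E] (δ : E → ι → ℕ)
    (f : E → MvPolynomial (ι × Fin n) K) (hf : ∀ i, MH (δ i) (f i)) {u : ι → Fin n → K}
    (hu : ∀ j, u j ≠ 0) (h0 : ∃ i, ev (f i) u ≠ 0) :
    FS (fun w => Real.log (⨆ i, nvW w (δ i) (f i) u)) := by
  obtain ⟨i0, hi0⟩ := h0
  choose A M hM hA using fun i => nvW_le_kap (f i) (δ i) (hf i)
  refine ((FS_lognv (δ i0) (f i0) hu hi0).union
    (Set.finite_iUnion (fun i => FS_kap (A i) (hM i)))).subset (fun v hv => ?_)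
  by_contra hcon
  simp only [Set.mem_union, Set.mem_iUnion, Set.mem_ofPred_eq, not_or, not_not, not_exists]
    at hcon
  obtain ⟨h2, h3⟩ := hcon
  apply hv
  have hlog1 : ∀ x : ℝ, 0 < x → Real.log x = 0 → x = 1 := by
    intro x hx h
    rcases Real.log_eq_zero.mp h with h | h | h
    · exact absurd h hx.ne'
    · exact h
    · linarith
  have h4 : nvW (av v) (δ i0) (f i0) u = 1 := hlog1 _ (nvW_pos _ _ _ hu hi0) h2
  have : Nonempty E := ⟨i0⟩
  have h5 : (⨆ i, nvW (av v) (δ i) (f i) u) ≤ 1 := by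
    refine ciSup_le (fun i => ?_)
    have h6 : kap (A i) (M i) 1 (av v) = 1 :=
      hlog1 _ (zero_lt_one.trans_le (one_le_kap _ (hM i) _ _)) (h3 i)
    rw [← h6]
    exact hA i (av v) u hu
  have h7 : 1 ≤ ⨆ i, nvW (av v) (δ i) (f i) u := by
    rw [← h4]
    exact le_ciSup (f := fun i => nvW (av v) (δ i) (f i) u) (Set.finite_range _).bddAbove i0
  change Real.log (⨆ i, nvW (av v) (δ i) (f i) u) = 0
  rw [le_antisymm h5 h7, Real.log_one]

lemma FS_neg {g : AbsoluteValue K ℝ → ℝ} (hg : FS g) : FS (fun w => -g w) := by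
  have h1 := FS_mul hg (-1)
  have h2 : (fun v => (-1 : ℝ) * g v) = fun w => -g w := by
    funext w
    ring
  rwa [h2] at h1

/-- the local height, made nonnegative -/
noncomputable def lam0 {E : Type} (δ : E → ι → ℕ) (f : E → MvPolynomial (ι × Fin n) K)
    (u : ι → Fin n → K) (w : AbsoluteValue K ℝ) : ℝ :=
  max 0 (-Real.log (⨆ i, nvW w (δ i) (f i) u))

lemma lam0_nonneg {E : Type} (δ : E → ι → ℕ) (f : E → MvPolynomial (ι × Fin n) K)
    (u : ι → Fin n → K) (w : AbsoluteValue K ℝ) : 0 ≤ lam0 δ f u w := le_max_left _ _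

lemma FS_lam0 {E : Type} [Finite E] (δ : E → ι → ℕ)
    (f : E → MvPolynomial (ι × Fin n) K) (hf : ∀ i, MH (δ i) (f i)) {u : ι → Fin n → K}
    (hu : ∀ j, u j ≠ 0) (h0 : ∃ i, ev (f i) u ≠ 0) : FS (lam0 δ f u) :=
  FS_max (FS_neg (FS_logsup δ f hf hu h0))

end nv

section sec

variable {K : Type} [Field K] {k : ℕ}

lemma ev_sec (S : Fin 3 → K) (f : MvPolynomial (Fin (k + 1) × Fin 3) K) {F : Type} [Field F]
    [Algebra K F] (u : Fin k → Fin 3 → F) :
    ev (sec S f) u = ev f (snoc u (fun c => algebraMap K F (S c))) := by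
  unfold ev sec
  rw [aeval_def, aeval_def, ← aeval_def, ← aeval_def]
  have h : (aeval (fun p : Fin k × Fin 3 => u p.1 p.2)).comp
      (aeval (fun p : Fin (k + 1) × Fin 3 => Fin.lastCases
        (motive := fun _ => MvPolynomial (Fin k × Fin 3) K)
        (C (S p.2)) (fun i => X (i, p.2)) p.1)) =
      aeval (R := K) (fun p : Fin (k + 1) × Fin 3 =>
        snoc u (fun c => algebraMap K F (S c)) p.1 p.2) := by
    apply algHom_ext
    rintro ⟨i, c⟩
    rw [AlgHom.comp_apply, aeval_X, aeval_X]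
    refine Fin.lastCases ?_ (fun j => ?_) i
    · simp [snoc]
    · simp [snoc]
  exact congrArg (fun φ => φ f) h

lemma MH_sec (S : Fin 3 → K) {f : MvPolynomial (Fin (k + 1) × Fin 3) K} {δ : Fin (k + 1) → ℕ}
    (hf : MH δ f) : MH (fun i => δ (Fin.castSucc i)) (sec S f) := by
  classical
  unfold sec
  rw [aeval_def, eval₂_eq']
  refine MH_sum _ _ _ (fun e he => ?_)
  have h1 := MH_prod Finset.univ (fun (p : Fin (k + 1) × Fin 3) (j : Fin k) =>
      e p * (if p.1 = Fin.castSucc j then 1 else 0))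
    (fun p => (Fin.lastCases (motive := fun _ => MvPolynomial (Fin k × Fin 3) K)
        (C (S p.2)) (fun i => X (i, p.2)) p.1) ^ e p) (fun p _ => by
      refine MH_pow ?_ (e p)
      obtain ⟨i, c⟩ := p
      refine Fin.lastCases ?_ (fun j => ?_) i
      · simp only [Fin.lastCases_last]
        have h2 : (fun j : Fin k => if Fin.last k = Fin.castSucc j then 1 else 0) = fun _ => 0 := by
          funext j
          rw [if_neg]
          exact fun h => (Fin.castSucc_lt_last j).ne h.symm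
        rw [h2]
        exact MH_C _
      · simp only [Fin.lastCases_castSucc]
        intro m hm l
        rw [support_X, Finset.mem_singleton] at hm
        subst hm
        beta_reduce
        rcases eq_or_ne l j with h | h
        · subst h
          rw [if_pos rfl, Finset.sum_eq_single c]
          · simp
          · intro c' _ hc'
            simp [Ne.symm hc']
          · simp
        · rw [if_neg (fun h' => h ((Fin.castSucc_injective k) h').symm)]
          refine Finset.sum_eq_zero (fun c' _ => ?_)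
          simp [Ne.symm h])
  have h2 := MH_mul (MH_C (ι := Fin k) (n := 3) (coeff e f)) h1
  have h3 : (fun j : Fin k => 0 + ∑ p : Fin (k + 1) × Fin 3,
      e p * (if p.1 = Fin.castSucc j then 1 else 0)) = fun i => δ (Fin.castSucc i) := by
    funext j
    rw [zero_add, Fintype.sum_prod_type, Finset.sum_eq_single (Fin.castSucc j)]
    · simp only [if_true, mul_one]
      exact hf e he _
    · intro l _ hl
      refine Finset.sum_eq_zero (fun c _ => ?_)
      rw [if_neg hl, mul_zero]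
    · simp
  rw [h3] at h2
  exact h2

end sec

section count

open Classical in
lemma count {α β γ : Type} (φ : α → β → γ) (X : Set γ) (A B : Set α) (H : Set β) (n0 : ℕ)
    (hA : A.Finite) (hB : B.Finite) (hH : H.Finite)
    (hX : ∀ x ∈ X, ∃ u ∈ A, ∃ v ∈ H, φ u v = x)
    (hgood : ∀ u ∈ A, u ∉ B → {v | v ∈ H ∧ φ u v ∈ X}.ncard ≤ n0) :
    X.Finite ∧ X.ncard ≤ B.ncard * H.ncard + A.ncard * n0 := by
  set F1 : Finset γ := hB.toFinset.biUnion (fun u => hH.toFinset.image (φ u)) with hF1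
  have hfu : ∀ u, {v | v ∈ H ∧ φ u v ∈ X}.Finite := fun u => hH.subset (fun v hv => hv.1)
  set F2 : Finset γ := (hA.toFinset.filter (fun u => u ∉ B)).biUnion
    (fun u => (hfu u).toFinset.image (φ u)) with hF2
  have hsub : X ⊆ ↑(F1 ∪ F2) := by
    intro x hx
    obtain ⟨u, hu, v, hv, rfl⟩ := hX x hx
    rw [Finset.coe_union]
    by_cases h : u ∈ B
    · left
      rw [hF1, Finset.mem_coe, Finset.mem_biUnion]
      exact ⟨u, hB.mem_toFinset.mpr h, Finset.mem_image_of_mem _ (hH.mem_toFinset.mpr hv)⟩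
    · right
      rw [hF2, Finset.mem_coe, Finset.mem_biUnion]
      exact ⟨u, Finset.mem_filter.mpr ⟨hA.mem_toFinset.mpr hu, h⟩,
        Finset.mem_image_of_mem _ ((hfu u).mem_toFinset.mpr ⟨hv, hx⟩)⟩
  refine ⟨(F1 ∪ F2).finite_toSet.subset hsub, ?_⟩
  have h1 : X.ncard ≤ (F1 ∪ F2).card := by
    rw [← Set.ncard_coe_finset]
    exact Set.ncard_le_ncard hsub (Finset.finite_toSet _)
  have h2 : F1.card ≤ B.ncard * H.ncard := by
    rw [Set.ncard_eq_toFinset_card B hB, Set.ncard_eq_toFinset_card H hH]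
    exact Finset.card_biUnion_le_card_mul _ _ _ (fun u _ => Finset.card_image_le)
  have h3 : F2.card ≤ A.ncard * n0 := by
    have h4 : F2.card ≤ (hA.toFinset.filter (fun u => u ∉ B)).card * n0 := by
      refine Finset.card_biUnion_le_card_mul _ _ _ (fun u hu => ?_)
      obtain ⟨hu1, hu2⟩ := Finset.mem_filter.mp hu
      refine Finset.card_image_le.trans ?_
      rw [← Set.ncard_eq_toFinset_card _ (hfu u)]
      exact hgood u (hA.mem_toFinset.mp hu1) hu2
    refine h4.trans (Nat.mul_le_mul_right _ ?_)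
    rw [Set.ncard_eq_toFinset_card A hA]
    exact Finset.card_filter_le _ _
  calc X.ncard ≤ (F1 ∪ F2).card := h1
    _ ≤ F1.card + F2.card := Finset.card_union_le _ _
    _ ≤ _ := add_le_add h2 h3

open Classical in
/-- pigeonhole principle -/
lemma pigeon {β : Type} (X : Set β) (hX : X.Finite) (N M : ℕ) (col : β → Fin N)
    (h : ¬ ∃ Q : Fin (M + 1) → β, Function.Injective Q ∧ (∀ j, Q j ∈ X) ∧
      ∀ i j, col (Q i) = col (Q j)) : X.ncard ≤ M * N := by
  rw [Set.ncard_eq_toFinset_card X hX]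
  have h1 : ∀ b ∈ hX.toFinset.image col, (hX.toFinset.filter (fun x => col x = b)).card ≤ M := by
    intro b _
    by_contra hcon
    push Not at hcon
    apply h
    have h2 : Fintype.card (Fin (M + 1)) ≤
        Fintype.card (hX.toFinset.filter (fun x => col x = b)) := by
      rw [Fintype.card_fin, Fintype.card_coe]
      exact hcon
    obtain ⟨e⟩ := Function.Embedding.nonempty_of_card_le h2
    refine ⟨fun j => (e j).1, fun i j hij => e.injective (Subtype.ext hij), fun j => ?_,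
      fun i j => ?_⟩
    · have := (Finset.mem_filter.mp (e j).2).1
      exact hX.mem_toFinset.mp this
    · rw [(Finset.mem_filter.mp (e i).2).2, (Finset.mem_filter.mp (e j).2).2]
  refine (Finset.card_le_mul_card_image _ M h1).trans ?_
  refine Nat.mul_le_mul_left _ ?_
  refine (Finset.card_le_univ _).trans ?_
  rw [Fintype.card_fin]

/-- small values of the parameter -/
lemma ext_bd {γ : Type} (X Bx : ℝ → Set γ) (hsub : ∀ T, X T ⊆ Bx T)
    (hmono : ∀ T T', T ≤ T' → Bx T ⊆ Bx T') (hfin : ∀ T, 1 ≤ T → (Bx T).Finite) (e T0 : ℝ)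
    (h : ∃ C : ℝ, ∀ T, 1 ≤ T → T0 < T → ((X T).ncard : ℝ) ≤ C * T ^ e) :
    ∃ C : ℝ, ∀ T, 1 ≤ T → (X T).Finite ∧ ((X T).ncard : ℝ) ≤ C * T ^ e := by
  obtain ⟨C, hC⟩ := h
  set T1 : ℝ := max 1 T0 with hT1
  have hT11 : 1 ≤ T1 := le_max_left _ _
  set c : ℝ := min 1 (T1 ^ e) with hc
  have hc0 : 0 < c := lt_min one_pos (Real.rpow_pos_of_pos (one_pos.trans_le hT11) _)
  refine ⟨max C (((Bx T1).ncard : ℝ) / c), fun T hT => ⟨(hfin T hT).subset (hsub T), ?_⟩⟩
  have hTe : 0 < T ^ e := Real.rpow_pos_of_pos (one_pos.trans_le hT) _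
  rcases lt_or_ge T0 T with h | h
  · exact (hC T hT h).trans (mul_le_mul_of_nonneg_right (le_max_left _ _) hTe.le)
  · have h1 : ((X T).ncard : ℝ) ≤ (Bx T1).ncard := by
      exact_mod_cast Set.ncard_le_ncard ((hsub T).trans (hmono T T1 (h.trans (le_max_right _ _))))
        (hfin T1 hT11)
    have h2 : c ≤ T ^ e := by
      rcases le_or_gt 0 e with he | he
      · exact (min_le_left _ _).trans (Real.one_le_rpow hT he)
      · refine (min_le_right _ _).trans ?_
        exact Real.rpow_le_rpow_of_nonpos (one_pos.trans_le hT) (h.trans (le_max_right _ _)) he.le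
    calc ((X T).ncard : ℝ) ≤ (Bx T1).ncard := h1
      _ = ((Bx T1).ncard : ℝ) / c * c := by rw [div_mul_cancel₀ _ hc0.ne']
      _ ≤ ((Bx T1).ncard : ℝ) / c * T ^ e :=
          mul_le_mul_of_nonneg_left h2 (div_nonneg (Nat.cast_nonneg _) hc0.le)
      _ ≤ _ := mul_le_mul_of_nonneg_right (le_max_right _ _) hTe.le

end count

end Pool.Agent.TH954.Y
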